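import Pool.Agent.N772.FU.Hyp
import Pool.Agent.H762R2.RtA

/-!
# Robustness of attracting periodic points
-/

set_option autoImplicit false

open Set Filter Metric Topology

namespace Pool.Agent.N772.FU

/-- `F` is holomorphic and `η`-close to `Q` on the disc of radius `R`. -/
def Nr (Q : ℂ → ℂ) (R η : ℝ) (F : ℂ → ℂ) : Prop :=
  ∀ z : ℂ, ‖z‖ < R → DifferentiableAt ℂ F z ∧ ‖F z - Q z‖ ≤ η

theorem Nr.mono {Q F : ℂ → ℂ} {R R' η η' : ℝ} (h : Nr Q R' η' F) (hR : R ≤ R') (hη : η' ≤ η) :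
    Nr Q R η F :=
  fun z hz => ⟨(h z (hz.trans_le hR)).1, (h z (hz.trans_le hR)).2.trans hη⟩

theorem iter_diffAt' {g : ℂ → ℂ} {z : ℂ} (n : ℕ) (h : ∀ j < n, DifferentiableAt ℂ g (g^[j] z)) :
    DifferentiableAt ℂ (g^[n]) z := by
  induction n with
  | zero => exact differentiableAt_id
  | succ n ih =>
    rw [Function.iterate_succ']
    exact (h n (by omega)).comp z (ih fun j hj => h j (by omega))

theorem per_robust {Q : ℂ → ℂ} (hQ : Differentiable ℂ Q) {p : ℕ} {a : ℂ} (ha : Q^[p] a = a)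
    (hlt : ‖deriv (Q^[p]) a‖ < 1) {ε : ℝ} (hε : 0 < ε) :
    ∃ (r R η : ℝ), 0 < r ∧ r ≤ ε ∧ 0 < η ∧ ∀ F : ℂ → ℂ, Nr Q R η F →
      (∃ α ∈ ball a r, F^[p] α = α) ∧
      (∀ β ∈ ball a r, ‖deriv (F^[p]) β - deriv (Q^[p]) a‖ ≤ ε ∧ ∀ i ≤ p, ‖F^[i] β‖ < R) ∧
      ∀ β ∈ ball a r, ∀ β' ∈ ball a r, F^[p] β = β → F^[p] β' = β' → β = β' := by
  obtain ⟨l, hl1, hl2⟩ := exists_between hlt
  have hl0 : 0 ≤ l := (norm_nonneg _).trans hl1.le
  obtain ⟨ρ₀, hρ₀⟩ : ∃ ρ₀, ρ₀ = deriv (Q^[p]) a := ⟨_, rfl⟩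
  rw [← hρ₀] at hl1
  obtain ⟨ε', hε'⟩ : ∃ ε', ε' = min ε (l - ‖ρ₀‖) := ⟨_, rfl⟩
  have hε'0 : 0 < ε' := by rw [hε']; exact lt_min hε (by linarith)
  have hε'1 : ε' ≤ ε := by rw [hε']; exact min_le_left _ _
  have hε'2 : ε' ≤ l - ‖ρ₀‖ := by rw [hε']; exact min_le_right _ _
  have hGd : Differentiable ℂ (Q^[p]) := hQ.iterate p
  have hdc : Continuous (deriv (Q^[p])) := (hGd.deriv).continuous
  have h1 : ∀ᶠ β in 𝓝 a, ‖deriv (Q^[p]) β - ρ₀‖ < ε' / 2 := by
    have h0 := ((hdc.sub continuous_const).norm).tendsto (x := a) (f := fun β =>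
      ‖deriv (Q^[p]) β - ρ₀‖)
    rw [← hρ₀, sub_self, norm_zero] at h0
    exact h0.eventually_lt_const (by positivity)
  obtain ⟨s, hs, h2⟩ := Metric.eventually_nhds_iff.1 h1
  obtain ⟨r, hr⟩ : ∃ r, r = min (s / 2) ε := ⟨_, rfl⟩
  have hr0 : 0 < r := by rw [hr]; positivity
  have hrε : r ≤ ε := by rw [hr]; exact min_le_right _ _
  have hrs : r ≤ s / 2 := by rw [hr]; exact min_le_left _ _
  have h1l : 0 < 1 - l := by linarith
  obtain ⟨τ, hτ⟩ : ∃ τ, τ = min (ε' * r / 2) ((1 - l) * r / 4) := ⟨_, rfl⟩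
  have hτ0 : 0 < τ := by rw [hτ]; positivity
  have hτ1 : τ ≤ ε' * r / 2 := by rw [hτ]; exact min_le_left _ _
  have hτ2 : τ ≤ (1 - l) * r / 4 := by rw [hτ]; exact min_le_right _ _
  obtain ⟨R, η, hR, hη, H⟩ := iter_near hQ.continuous (isCompact_closedBall a (2 * r)) p τ hτ0
  refine ⟨r, R, η, hr0, hrε, hη, fun F hF => ?_⟩
  have H' := H F (fun z hz => (hF z hz).2)
  have hFd : ∀ β ∈ closedBall a (2 * r), DifferentiableAt ℂ (F^[p]) β := by
    intro β hβ
    exact iter_diffAt' p fun j hj => (hF _ ((H' β hβ j hj.le).2)).1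
  -- the derivative
  have hder : ∀ β ∈ closedBall a r, ‖deriv (F^[p]) β - ρ₀‖ ≤ ε' := by
    intro β hβ
    have hsub : closedBall β r ⊆ closedBall a (2 * r) := by
      intro w hw
      rw [mem_closedBall] at hw hβ ⊢
      calc dist w a ≤ dist w β + dist β a := dist_triangle _ _ _
        _ ≤ r + r := add_le_add hw hβ
        _ = 2 * r := by ring
    have e1 : DifferentiableOn ℂ (fun w => F^[p] w - Q^[p] w) (closedBall β r) := fun w hw =>
      ((hFd w (hsub hw)).sub (hGd w)).differentiableWithinAt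
    have e2 : DiffContOnCl ℂ (fun w => F^[p] w - Q^[p] w) (ball β r) :=
      e1.diffContOnCl_ball subset_rfl
    have e3 := Complex.norm_deriv_le_of_forall_mem_sphere_norm_le (C := τ) hr0 e2
      (fun w hw => (H' w (hsub (sphere_subset_closedBall hw)) p le_rfl).1)
    have e4 : deriv (fun w => F^[p] w - Q^[p] w) β = deriv (F^[p]) β - deriv (Q^[p]) β :=
      (((hFd β (hsub (mem_closedBall_self hr0.le))).hasDerivAt).sub ((hGd β).hasDerivAt)).deriv
    rw [e4] at e3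
    have e5 : τ / r ≤ ε' / 2 := by
      rw [div_le_iff₀ hr0]
      linarith
    have e6 := h2 (y := β) (by
      rw [mem_closedBall] at hβ
      linarith)
    calc ‖deriv (F^[p]) β - ρ₀‖ = ‖(deriv (F^[p]) β - deriv (Q^[p]) β) +
          (deriv (Q^[p]) β - ρ₀)‖ := by congr 1; ring
      _ ≤ ε' / 2 + ε' / 2 := (norm_add_le _ _).trans (add_le_add (e3.trans e5) e6.le)
      _ = ε' := by ring
  have hcl2 : closedBall a r ⊆ closedBall a (2 * r) := closedBall_subset_closedBall (by linarith)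
  have hlip : ∀ β ∈ closedBall a r, ∀ β' ∈ closedBall a r,
      ‖F^[p] β - F^[p] β'‖ ≤ l * ‖β - β'‖ := by
    intro β hβ β' hβ'
    refine (convex_closedBall a r).norm_image_sub_le_of_norm_deriv_le
      (fun w hw => hFd w (hcl2 hw)) (fun w hw => ?_) hβ' hβ
    have e1 := hder w hw
    have e2 := norm_le_norm_add_norm_sub' (deriv (F^[p]) w) ρ₀
    linarith
  have hcen : ‖F^[p] a - a‖ ≤ τ := by
    have e1 := (H' a (mem_closedBall_self (by positivity)) p le_rfl).1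
    rwa [ha] at e1
  refine ⟨?_, ?_, ?_⟩
  · obtain ⟨q, hq1, hq2, -⟩ := Pool.Agent.H762R2.Rt.disc_contraction
      (H := fun x => F^[p] (a + x) - a) (r := r / 2) (q := l) (by positivity) hl0 hl2
      (by
        intro x hx
        have m1 : a + x ∈ closedBall a r := by
          rw [mem_closedBall, dist_eq_norm, add_sub_cancel_left]
          linarith
        have e1 := hlip _ m1 a (mem_closedBall_self hr0.le)
        rw [add_sub_cancel_left] at e1
        calc ‖F^[p] (a + x) - a‖ = ‖(F^[p] (a + x) - F^[p] a) + (F^[p] a - a)‖ := by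
              congr 1; ring
          _ ≤ l * ‖x‖ + τ := (norm_add_le _ _).trans (add_le_add e1 hcen)
          _ ≤ l * (r / 2) + (1 - l) * r / 4 := by gcongr
          _ < r / 2 := by nlinarith)
      (by
        intro x y hx hy
        have m1 : a + x ∈ closedBall a r := by
          rw [mem_closedBall, dist_eq_norm, add_sub_cancel_left]
          linarith
        have m2 : a + y ∈ closedBall a r := by
          rw [mem_closedBall, dist_eq_norm, add_sub_cancel_left]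
          linarith
        have e1 := hlip _ m1 _ m2
        have e2 : F^[p] (a + x) - a - (F^[p] (a + y) - a) = F^[p] (a + x) - F^[p] (a + y) := by
          ring
        have e3 : a + x - (a + y) = x - y := by ring
        rw [e3] at e1
        show ‖F^[p] (a + x) - a - (F^[p] (a + y) - a)‖ ≤ _
        rw [e2]
        exact e1)
    refine ⟨a + q, ?_, ?_⟩
    · rw [mem_ball, dist_eq_norm, add_sub_cancel_left]
      linarith
    · have e1 : F^[p] (a + q) - a = q := hq2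
      linear_combination e1
  · intro β hβ
    have hβ' := ball_subset_closedBall hβ
    refine ⟨(hder β hβ').trans hε'1 |> fun h => by rwa [hρ₀] at h, fun i hi =>
      (H' β (hcl2 hβ') i hi).2⟩
  · intro β hβ β' hβ' e1 e2
    have e3 := hlip β (ball_subset_closedBall hβ) β' (ball_subset_closedBall hβ')
    rw [e1, e2] at e3
    by_contra hcon
    have e4 : 0 < ‖β - β'‖ := norm_pos_iff.2 (sub_ne_zero.2 hcon)
    nlinarith

/-- points which are not periodic -/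
theorem nonper {Q : ℂ → ℂ} (hQ : Continuous Q) (a : ℂ) (m : ℕ) :
    ∃ (r R η : ℝ), 0 < r ∧ 0 < η ∧ ∀ F : ℂ → ℂ, Nr Q R η F →
      ∀ i < m, Q^[i] a ≠ a → ∀ β ∈ ball a r, F^[i] β ≠ β := by
  induction m with
  | zero => exact ⟨1, 1, 1, one_pos, one_pos, fun F _ i hi => absurd hi (Nat.not_lt_zero i)⟩
  | succ m ih =>
    obtain ⟨r₁, R₁, η₁, hr₁, hη₁, H₁⟩ := ih
    by_cases hm : Q^[m] a = a
    · refine ⟨r₁, R₁, η₁, hr₁, hη₁, fun F hF i hi hia => ?_⟩
      rcases Nat.lt_or_ge i m with h | h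
      · exact H₁ F hF i h hia
      · have : i = m := by omega
        rw [this] at hia
        exact absurd hm hia
    · obtain ⟨δ, hδ⟩ : ∃ δ, δ = ‖Q^[m] a - a‖ := ⟨_, rfl⟩
      have hδ0 : 0 < δ := by rw [hδ]; exact norm_pos_iff.2 (sub_ne_zero.2 hm)
      have h1 : ∀ᶠ β in 𝓝 a, δ / 2 < ‖Q^[m] β - β‖ := by
        have h0 := (((hQ.iterate m).sub continuous_id).norm).tendsto (x := a) (f := fun β =>
          ‖Q^[m] β - β‖)
        rw [← hδ] at h0
        exact h0.eventually_const_lt (by linarith)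
      obtain ⟨s, hs, h2⟩ := Metric.eventually_nhds_iff.1 h1
      obtain ⟨R₂, η₂, hR₂, hη₂, H₂⟩ := iter_near hQ (isCompact_closedBall a s) m (δ / 4)
        (by positivity)
      refine ⟨min r₁ s, max R₁ R₂, min η₁ η₂, by positivity, by positivity,
        fun F hF i hi hia β hβ => ?_⟩
      rcases Nat.lt_or_ge i m with h | h
      · exact H₁ F (hF.mono (le_max_left _ _) (min_le_left _ _)) i h hia β
          (ball_subset_ball (min_le_left _ _) hβ)
      · have him : i = m := by omega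
        subst him
        have hβs : β ∈ ball a s := ball_subset_ball (min_le_right _ _) hβ
        have e1 := (H₂ F (fun z hz => ((hF.mono (le_max_right _ _) (min_le_right _ _)) z hz).2) β
          (ball_subset_closedBall hβs) i le_rfl).1
        have e2 := h2 hβs
        intro h3
        rw [h3, norm_sub_rev] at e1
        linarith

/-- **Attracting periodic points near `a`.** -/
theorem per_local {Q : ℂ → ℂ} (hQ : Differentiable ℂ Q) {p : ℕ} (hp : 0 < p) {a : ℂ}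
    (ha : Q^[p] a = a) (hlt : ‖deriv (Q^[p]) a‖ < 1) {ε : ℝ} (hε : 0 < ε) :
    ∃ (r R η : ℝ), 0 < r ∧ r ≤ ε ∧ 0 < η ∧ ∀ F : ℂ → ℂ, Nr Q R η F →
      (∃ α ∈ ball a r, F^[p] α = α) ∧
      (∀ β ∈ ball a r, ‖deriv (F^[p]) β - deriv (Q^[p]) a‖ ≤ ε ∧ ∀ i ≤ p, ‖F^[i] β‖ < R) ∧
      (∀ β ∈ ball a r, F^[p] β = β →
        Function.minimalPeriod F β = Function.minimalPeriod Q a) := by
  obtain ⟨P, hP⟩ : ∃ P, P = Function.minimalPeriod Q a := ⟨_, rfl⟩
  have hPp : Function.IsPeriodicPt Q p a := ha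
  have hP0 : 0 < P := by
    rw [hP]
    exact hPp.minimalPeriod_pos hp
  have hPd : P ∣ p := by
    rw [hP]
    exact hPp.minimalPeriod_dvd
  have haP : Q^[P] a = a := by
    rw [hP]
    exact Function.iterate_minimalPeriod
  obtain ⟨k, hk⟩ := hPd
  have hk0 : k ≠ 0 := by
    rintro rfl
    rw [mul_zero] at hk
    omega
  have hltP : ‖deriv (Q^[P]) a‖ < 1 := by
    have h1 : HasDerivAt (Q^[P]) (deriv (Q^[P]) a) a := ((hQ.iterate P) a).hasDerivAt
    have h2 := HasDerivAt.iterate _ h1 haP k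
    rw [← Function.iterate_mul, ← hk] at h2
    rw [h2.deriv, norm_pow] at hlt
    by_contra hcon
    push Not at hcon
    exact absurd hlt (not_lt.2 (one_le_pow₀ hcon))
  obtain ⟨r₃, R₃, η₃, hr₃, hη₃, H₃⟩ := nonper hQ.continuous a P
  obtain ⟨r₁, R₁, η₁, hr₁, hr₁ε, hη₁, H₁⟩ := per_robust hQ ha hlt (ε := min ε r₃) (by positivity)
  obtain ⟨r₂, R₂, η₂, hr₂, hr₂ε, hη₂, H₂⟩ := per_robust hQ haP hltP hr₁
  refine ⟨r₁, max (max R₁ R₂) R₃, min (min η₁ η₂) η₃, hr₁, hr₁ε.trans (min_le_left _ _),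
    by positivity, fun F hF => ?_⟩
  obtain ⟨g1, g2, g3⟩ := H₁ F (hF.mono ((le_max_left _ _).trans (le_max_left _ _))
    ((min_le_left _ _).trans (min_le_left _ _)))
  obtain ⟨⟨α₀, hα₀, hα₀P⟩, -, -⟩ := H₂ F (hF.mono ((le_max_right _ _).trans (le_max_left _ _))
    ((min_le_left _ _).trans (min_le_right _ _)))
  have g4 := H₃ F (hF.mono (le_max_right _ _) (min_le_right _ _))
  refine ⟨g1, fun β hβ => ⟨(g2 β hβ).1.trans (min_le_left _ _), fun i hi =>
    ((g2 β hβ).2 i hi).trans_le ((le_max_left _ _).trans (le_max_left _ _))⟩, ?_⟩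
  intro β hβ hFβ
  have hα₀' : α₀ ∈ ball a r₁ := ball_subset_ball hr₂ε hα₀
  have hα₀p : F^[p] α₀ = α₀ := by
    rw [hk, Function.iterate_mul]
    exact Function.iterate_fixed hα₀P k
  have hβα : β = α₀ := g3 β hβ α₀ hα₀' hFβ hα₀p
  rw [← hP]
  have hper : Function.IsPeriodicPt F P β := by rw [hβα]; exact hα₀P
  refine le_antisymm (hper.minimalPeriod_le hP0) ?_
  by_contra hcon
  push Not at hcon
  have h0 : 0 < Function.minimalPeriod F β := hper.minimalPeriod_pos hP0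
  have hne : Q^[Function.minimalPeriod F β] a ≠ a := by
    intro h1
    have h2 : Function.IsPeriodicPt Q (Function.minimalPeriod F β) a := h1
    have h3 := h2.minimalPeriod_le h0
    rw [← hP] at h3
    omega
  have hβ3 : β ∈ ball a r₃ := ball_subset_ball (hr₁ε.trans (min_le_right _ _)) hβ
  exact g4 _ hcon hne β hβ3 Function.iterate_minimalPeriod

/-- **Attracting periodic points in a compact family.** -/
theorem per_family {X : Type*} [TopologicalSpace X] {Q : X → ℂ → ℂ}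
    (hQ : ∀ x, Differentiable ℂ (Q x)) (hQc : Continuous fun y : X × ℂ => Q y.1 y.2) {p : ℕ}
    (hp : 0 < p) {S : Set (X × ℂ)} (hS : IsCompact S)
    (h : ∀ y ∈ S, (Q y.1)^[p] y.2 = y.2 ∧ ‖deriv ((Q y.1)^[p]) y.2‖ < 1) {ε : ℝ} (hε : 0 < ε) :
    ∃ (R η : ℝ), 0 < η ∧ ∀ y ∈ S, ∀ F : ℂ → ℂ, Nr (Q y.1) R η F →
      ∃ α : ℂ, ‖α - y.2‖ ≤ ε ∧ F^[p] α = α ∧
        Function.minimalPeriod F α = Function.minimalPeriod (Q y.1) y.2 ∧
        ‖deriv (F^[p]) α - deriv ((Q y.1)^[p]) y.2‖ ≤ ε ∧ ∀ i ≤ p, ‖F^[i] α‖ < R := by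
  have hind : ∃ (R η : ℝ), 0 < η ∧ ∀ y ∈ S, y ∈ S → ∀ F : ℂ → ℂ, Nr (Q y.1) R η F →
      ∃ α : ℂ, ‖α - y.2‖ ≤ ε ∧ F^[p] α = α ∧
        Function.minimalPeriod F α = Function.minimalPeriod (Q y.1) y.2 ∧
        ‖deriv (F^[p]) α - deriv ((Q y.1)^[p]) y.2‖ ≤ ε ∧ ∀ i ≤ p, ‖F^[i] α‖ < R := by
    refine hS.induction_on (p := fun T => ∃ (R η : ℝ), 0 < η ∧ ∀ y ∈ T, y ∈ S → ∀ F : ℂ → ℂ,
      Nr (Q y.1) R η F → ∃ α : ℂ, ‖α - y.2‖ ≤ ε ∧ F^[p] α = α ∧
        Function.minimalPeriod F α = Function.minimalPeriod (Q y.1) y.2 ∧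
        ‖deriv (F^[p]) α - deriv ((Q y.1)^[p]) y.2‖ ≤ ε ∧ ∀ i ≤ p, ‖F^[i] α‖ < R) ?_ ?_ ?_ ?_
    · exact ⟨0, 1, one_pos, fun y hy => absurd hy (notMem_empty y)⟩
    · rintro s t hst ⟨R, η, hη, H⟩
      exact ⟨R, η, hη, fun y hy => H y (hst hy)⟩
    · rintro s t ⟨R₁, η₁, hη₁, H₁⟩ ⟨R₂, η₂, hη₂, H₂⟩
      refine ⟨max R₁ R₂, min η₁ η₂, by positivity, fun y hy hyS F hF => ?_⟩
      rcases hy with hy | hy
      · obtain ⟨α, a1, a2, a3, a4, a5⟩ := H₁ y hy hyS F (hF.mono (le_max_left _ _)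
          (min_le_left _ _))
        exact ⟨α, a1, a2, a3, a4, fun i hi => (a5 i hi).trans_le (le_max_left _ _)⟩
      · obtain ⟨α, a1, a2, a3, a4, a5⟩ := H₂ y hy hyS F (hF.mono (le_max_right _ _)
          (min_le_right _ _))
        exact ⟨α, a1, a2, a3, a4, fun i hi => (a5 i hi).trans_le (le_max_right _ _)⟩
    · intro y₀ hy₀
      obtain ⟨ha, hlt⟩ := h y₀ hy₀
      obtain ⟨r, R, η, hr, hrε, hη, H⟩ := per_local (hQ y₀.1) hp ha hlt (ε := ε / 2)
        (by positivity)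
      have key : ∀ᶠ x in 𝓝 y₀.1, ∀ z ∈ closedBall (0 : ℂ) R, ‖Q x z - Q y₀.1 z‖ < η / 2 := by
        refine (isCompact_closedBall (0 : ℂ) R).eventually_forall_of_forall_eventually ?_
        intro z _
        have hc : Continuous fun y : X × ℂ => ‖Q y.1 y.2 - Q y₀.1 y.2‖ := by
          have h1 : Continuous fun y : X × ℂ => Q y₀.1 y.2 :=
            hQc.comp (continuous_const.prodMk continuous_snd)
          exact (hQc.sub h1).norm
        have h0 := hc.tendsto (y₀.1, z)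
        simp only [sub_self, norm_zero] at h0
        exact h0.eventually_lt_const (by positivity)
      have key1 : ∀ᶠ y in 𝓝 y₀, ∀ z ∈ closedBall (0 : ℂ) R, ‖Q y.1 z - Q y₀.1 z‖ < η / 2 :=
        (continuous_fst.tendsto y₀).eventually key
      have key2 : ∀ᶠ y : X × ℂ in 𝓝 y₀, y.2 ∈ ball y₀.2 r :=
        (continuous_snd.tendsto y₀).eventually (ball_mem_nhds y₀.2 hr)
      refine ⟨{y | (∀ z ∈ closedBall (0 : ℂ) R, ‖Q y.1 z - Q y₀.1 z‖ < η / 2) ∧
        y.2 ∈ ball y₀.2 r}, mem_nhdsWithin_of_mem_nhds (key1.and key2), R, η / 2, by positivity,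
        fun y hy hyS F hF => ?_⟩
      obtain ⟨hy1, hy2⟩ := hy
      have hQy : Nr (Q y₀.1) R η (Q y.1) := fun z hz =>
        ⟨hQ y.1 z, (hy1 z (mem_closedBall_zero_iff.2 hz.le)).le.trans (by linarith)⟩
      have hFy : Nr (Q y₀.1) R η F := fun z hz => by
        refine ⟨(hF z hz).1, ?_⟩
        have e1 := (hF z hz).2
        have e2 := (hy1 z (mem_closedBall_zero_iff.2 hz.le)).le
        calc ‖F z - Q y₀.1 z‖ = ‖(F z - Q y.1 z) + (Q y.1 z - Q y₀.1 z)‖ := by congr 1; ring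
          _ ≤ η / 2 + η / 2 := (norm_add_le _ _).trans (add_le_add e1 e2)
          _ = η := by ring
      obtain ⟨-, b2, b3⟩ := H _ hQy
      obtain ⟨⟨α, hα, hαp⟩, c2, c3⟩ := H _ hFy
      have hyp := (h y hyS).1
      refine ⟨α, ?_, hαp, ?_, ?_, (c2 α hα).2⟩
      · rw [mem_ball, dist_eq_norm] at hα hy2
        calc ‖α - y.2‖ = ‖(α - y₀.2) - (y.2 - y₀.2)‖ := by congr 1; ring
          _ ≤ r + r := (norm_sub_le _ _).trans (add_le_add hα.le hy2.le)
          _ ≤ ε := by linarith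
      · rw [c3 α hα hαp, b3 y.2 hy2 hyp]
      · have e1 := (c2 α hα).1
        have e2 := (b2 y.2 hy2).1
        calc _ = ‖(deriv (F^[p]) α - deriv ((Q y₀.1)^[p]) y₀.2) -
              (deriv ((Q y.1)^[p]) y.2 - deriv ((Q y₀.1)^[p]) y₀.2)‖ := by congr 1; ring
          _ ≤ ε / 2 + ε / 2 := (norm_sub_le _ _).trans (add_le_add e1 e2)
          _ = ε := by ring
  obtain ⟨R, η, hη, H⟩ := hind
  exact ⟨R, η, hη, fun y hy => H y hy hy⟩

end Pool.Agent.N772.FU
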