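import Pool.Agent.N772.FU.Fam
import Pool.Agent.N772.FU.Per

/-!
# The attracting cycles of the rational maps with a prescribed renormalisation
-/

set_option autoImplicit false

open Filter Topology Metric Set

namespace Pool.Agent.N772.FU

/-- the polynomial with the coefficients `x.1` and the constant term `x.2` -/
noncomputable def QQ (d : ℕ) (x : (ℕ → ℂ) × ℂ) (z : ℂ) : ℂ := Us d x.1 z + x.2

theorem QQ_diff (d : ℕ) (x : (ℕ → ℂ) × ℂ) : Differentiable ℂ (QQ d x) :=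
  (Us_diff d x.1).add_const x.2

theorem QQ_cont (d : ℕ) : Continuous fun y : ((ℕ → ℂ) × ℂ) × ℂ => QQ d y.1 y.2 := by
  unfold QQ Us
  fun_prop

theorem dU_cont (d : ℕ) : Continuous fun y : ((ℕ → ℂ) × ℂ) × ℂ => dU d y.1.1 y.2 := by
  unfold dU
  fun_prop

theorem QQ_der (d : ℕ) (x : (ℕ → ℂ) × ℂ) (z : ℂ) : HasDerivAt (QQ d x) (dU d x.1 z) z := by
  unfold QQ
  exact (hasDerivAt_Us d x.1 z).add_const x.2

theorem QQ_iter_cont (d i : ℕ) : Continuous fun y : ((ℕ → ℂ) × ℂ) × ℂ => (QQ d y.1)^[i] y.2 := by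
  induction i with
  | zero => exact continuous_snd
  | succ i ih =>
    have h1 : (fun y : ((ℕ → ℂ) × ℂ) × ℂ => (QQ d y.1)^[i + 1] y.2) =
        fun y => QQ d y.1 ((QQ d y.1)^[i] y.2) := by
      funext y
      exact Function.iterate_succ_apply' _ _ _
    rw [h1]
    exact (QQ_cont d).comp (continuous_fst.prodMk ih)

theorem QQ_iter_der (d i : ℕ) (x : (ℕ → ℂ) × ℂ) (z : ℂ) :
    HasDerivAt ((QQ d x)^[i]) (∏ j ∈ Finset.range i, dU d x.1 ((QQ d x)^[j] z)) z := by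
  induction i with
  | zero => simpa using hasDerivAt_id z
  | succ i ih =>
    rw [Function.iterate_succ', Finset.prod_range_succ, mul_comm]
    exact (QQ_der d x _).comp z ih

theorem QQ_iter_der_cont (d i : ℕ) :
    Continuous fun y : ((ℕ → ℂ) × ℂ) × ℂ => deriv ((QQ d y.1)^[i]) y.2 := by
  have h1 : (fun y : ((ℕ → ℂ) × ℂ) × ℂ => deriv ((QQ d y.1)^[i]) y.2) =
      fun y => ∏ j ∈ Finset.range i, dU d y.1.1 ((QQ d y.1)^[j] y.2) := by
    funext y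
    exact (QQ_iter_der d i y.1 y.2).deriv
  rw [h1]
  refine continuous_finset_prod _ fun j _ => ?_
  exact (dU_cont d).comp (continuous_fst.prodMk (QQ_iter_cont d j))

/-- far away the points escape -/
theorem QQ_far {d : ℕ} (hd : 2 ≤ d) {x : (ℕ → ℂ) × ℂ} {A : ℝ} (hA0 : 0 ≤ A)
    (hq : ∀ i < d, ‖x.1 i‖ ≤ A) (ht : ‖x.2‖ ≤ A) {z : ℂ} (hz : d * A + A + 3 ≤ ‖z‖) :
    3 * ‖z‖ ≤ ‖QQ d x z‖ := by
  have hdR : (2 : ℝ) ≤ d := by exact_mod_cast hd
  have hdA : 0 ≤ d * A := by positivity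
  have hz1 : 1 ≤ ‖z‖ := by linarith
  have h2 : ‖∑ i ∈ Finset.Ico 1 d, x.1 i * z ^ i‖ ≤ d * (A * ‖z‖ ^ (d - 1)) := by
    apply sum_bd (by simp) (by positivity)
    intro i hi
    rw [Finset.mem_Ico] at hi
    rw [norm_mul, norm_pow]
    have e1 : ‖z‖ ^ i ≤ ‖z‖ ^ (d - 1) := pow_le_pow_right₀ hz1 (by omega)
    gcongr
    exact hq i hi.2
  have h4 : ‖z‖ ^ d = ‖z‖ ^ (d - 1) * ‖z‖ := by rw [← pow_succ]; congr 1; omega
  have h5 : ‖z‖ ≤ ‖z‖ ^ (d - 1) := by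
    calc ‖z‖ = ‖z‖ ^ 1 := (pow_one _).symm
      _ ≤ ‖z‖ ^ (d - 1) := pow_le_pow_right₀ hz1 (by omega)
  have h6 : ‖z ^ d‖ ≤ ‖QQ d x z‖ + ‖∑ i ∈ Finset.Ico 1 d, x.1 i * z ^ i‖ + ‖x.2‖ := by
    have e1 : z ^ d = QQ d x z - (∑ i ∈ Finset.Ico 1 d, x.1 i * z ^ i) - x.2 := by
      unfold QQ Us
      ring
    calc ‖z ^ d‖ = ‖QQ d x z - (∑ i ∈ Finset.Ico 1 d, x.1 i * z ^ i) - x.2‖ := by rw [← e1]
      _ ≤ ‖QQ d x z - (∑ i ∈ Finset.Ico 1 d, x.1 i * z ^ i)‖ + ‖x.2‖ := norm_sub_le _ _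
      _ ≤ _ := by
          gcongr
          exact norm_sub_le _ _
  rw [norm_pow, h4] at h6
  have h7 : ‖z‖ * (A + 3) ≤ ‖z‖ ^ (d - 1) * (‖z‖ - d * A) := by
    apply mul_le_mul h5 (by linarith) (by linarith) (by positivity)
  nlinarith

theorem QQ_per_le {d : ℕ} (hd : 2 ≤ d) {x : (ℕ → ℂ) × ℂ} {A : ℝ} (hA0 : 0 ≤ A)
    (hq : ∀ i < d, ‖x.1 i‖ ≤ A) (ht : ‖x.2‖ ≤ A) {p : ℕ} (hp : 0 < p) {a : ℂ}
    (ha : (QQ d x)^[p] a = a) : ‖a‖ ≤ d * A + A + 3 := by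
  by_contra hcon
  push Not at hcon
  have hdA : 0 ≤ d * A := by positivity
  have h1 : ∀ i : ℕ, ‖a‖ ≤ ‖(QQ d x)^[i] a‖ ∧ (1 ≤ i → 3 * ‖a‖ ≤ ‖(QQ d x)^[i] a‖) := by
    intro i
    induction i with
    | zero => exact ⟨le_rfl, fun h => absurd h (by norm_num)⟩
    | succ i ih =>
      rw [Function.iterate_succ_apply']
      have e1 := QQ_far hd hA0 hq ht (z := (QQ d x)^[i] a) (by linarith [ih.1])
      have e2 := ih.1
      have e3 := norm_nonneg a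
      exact ⟨by linarith, fun _ => by linarith⟩
  have h2 := (h1 p).2 hp
  rw [ha] at h2
  linarith

/-- **The attracting cycles.** -/
theorem att_of_uni {d : ℕ} (hd : 2 ≤ d) {S : Set ((ℕ → ℂ) × ℂ)} (hS : IsCompact S) {p : ℕ}
    (hp : 0 < p) {ε : ℝ} (hε : 0 < ε) :
    ∃ (R η : ℝ), 0 < η ∧ ∀ x ∈ S, ∀ a : ℂ, (QQ d x)^[p] a = a →
      ‖deriv ((QQ d x)^[p]) a‖ ≤ 1 - ε → ∀ (n : ℕ) (k m : ℂ) (s : ℕ → ℂ), 0 < n → m ≠ 0 →
      (∀ y : ℂ, ‖y‖ ≤ 4 → Vs d s y ≠ 0) →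
      (∀ z : ℂ, ‖z‖ < R → (∀ j ≤ n, ‖(gg d m x.1 s k)^[j] (m * z)‖ ≤ 4) ∧
        (∀ j, 1 ≤ j → j < n → ‖m‖ * R ≤ ‖(gg d m x.1 s k)^[j] (m * z)‖) ∧
        ‖(gg d m x.1 s k)^[n] (m * z) - m * (QQ d x z)‖ ≤ ‖m‖ * η) →
      ∃ α : ℂ, ‖α - m * a‖ ≤ ε * ‖m‖ ∧
        Function.minimalPeriod (gg d m x.1 s k) α = n * Function.minimalPeriod (QQ d x) a ∧
        ‖deriv ((gg d m x.1 s k)^[n * p]) α - deriv ((QQ d x)^[p]) a‖ ≤ ε ∧
        ∀ j, ‖(gg d m x.1 s k)^[j] α‖ ≤ 4 := by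
  -- the bound of the coefficients
  obtain ⟨A, hA0, hAb, hAt⟩ : ∃ A : ℝ, 0 ≤ A ∧ (∀ x ∈ S, ∀ i < d, ‖x.1 i‖ ≤ A) ∧
      ∀ x ∈ S, ‖x.2‖ ≤ A := by
    have h1 : ∀ i : ℕ, ∃ B : ℝ, ∀ x ∈ S, ‖x.1 i‖ ≤ B := by
      intro i
      have hc : IsCompact ((fun x : (ℕ → ℂ) × ℂ => x.1 i) '' S) :=
        hS.image ((continuous_apply i).comp continuous_fst)
      obtain ⟨B, hB⟩ := hc.isBounded.exists_norm_le
      exact ⟨B, fun x hx => hB _ (mem_image_of_mem (fun x : (ℕ → ℂ) × ℂ => x.1 i) hx)⟩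
    choose B hB using h1
    have hc : IsCompact ((fun x : (ℕ → ℂ) × ℂ => x.2) '' S) := hS.image continuous_snd
    obtain ⟨B', hB'⟩ := hc.isBounded.exists_norm_le
    refine ⟨∑ i ∈ Finset.range d, |B i| + |B'|, by positivity, fun x hx i hi => ?_,
      fun x hx => ?_⟩
    · refine (hB i x hx).trans ((le_abs_self _).trans ?_)
      have h2 := Finset.single_le_sum (f := fun i => |B i|) (fun _ _ => abs_nonneg _)
        (Finset.mem_range.2 hi)
      have h3 := abs_nonneg B'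
      linarith
    · refine (hB' _ (mem_image_of_mem (fun x : (ℕ → ℂ) × ℂ => x.2) hx)).trans
        ((le_abs_self _).trans ?_)
      have : 0 ≤ ∑ i ∈ Finset.range d, |B i| := Finset.sum_nonneg fun _ _ => abs_nonneg _
      linarith
  obtain ⟨T, hT⟩ : ∃ T : Set (((ℕ → ℂ) × ℂ) × ℂ), T = {y | y.1 ∈ S ∧ (QQ d y.1)^[p] y.2 = y.2 ∧
      ‖deriv ((QQ d y.1)^[p]) y.2‖ ≤ 1 - ε} := ⟨_, rfl⟩
  have hTc : IsCompact T := by
    have h1 : T = (S ×ˢ closedBall (0 : ℂ) (d * A + A + 3)) ∩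
        {y | (QQ d y.1)^[p] y.2 = y.2 ∧ ‖deriv ((QQ d y.1)^[p]) y.2‖ ≤ 1 - ε} := by
      rw [hT]
      refine Subset.antisymm ?_ ?_
      · rintro y ⟨h1, h2, h3⟩
        exact ⟨⟨h1, mem_closedBall_zero_iff.2
          (QQ_per_le hd hA0 (hAb _ h1) (hAt _ h1) hp h2)⟩, h2, h3⟩
      · rintro y ⟨⟨h1, -⟩, h2, h3⟩
        exact ⟨h1, h2, h3⟩
    rw [h1]
    refine (hS.prod (isCompact_closedBall _ _)).inter_right ?_
    exact (isClosed_eq (QQ_iter_cont d p) continuous_snd).inter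
      (isClosed_le (QQ_iter_der_cont d p).norm continuous_const)
  obtain ⟨R, η, hη, H⟩ := per_family (X := (ℕ → ℂ) × ℂ) (Q := QQ d) (QQ_diff d) (QQ_cont d) hp hTc
    (fun y hy => by
      rw [hT] at hy
      exact ⟨hy.2.1, hy.2.2.trans_lt (by linarith)⟩) hε
  refine ⟨R, η, hη, fun x hx a ha hρ n k m s hn hm hV huni => ?_⟩
  have hm0 : 0 < ‖m‖ := norm_pos_iff.2 hm
  obtain ⟨g, hg⟩ : ∃ g, g = gg d m x.1 s k := ⟨_, rfl⟩
  rw [← hg] at huni ⊢
  obtain ⟨F, hF⟩ : ∃ F : ℂ → ℂ, F = fun z => g^[n] (m * z) / m := ⟨_, rfl⟩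
  have hFm : ∀ y, m * F y = g^[n] (m * y) := by
    intro y
    rw [hF]
    exact mul_div_cancel₀ _ hm
  have hFi : ∀ (i : ℕ) (y : ℂ), m * F^[i] y = g^[n * i] (m * y) := by
    intro i
    induction i with
    | zero => intro y; simp
    | succ i ih =>
      intro y
      rw [Function.iterate_succ_apply', hFm, ih, ← Function.iterate_add_apply,
        show n * (i + 1) = n + n * i by ring]
  have hgd : ∀ y : ℂ, ‖y‖ ≤ 4 → DifferentiableAt ℂ g y := by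
    intro y hy
    rw [hg]
    unfold gg
    exact (Gs_diffAt (hV y hy)).add_const k
  have hFd : ∀ y : ℂ, ‖y‖ < R → DifferentiableAt ℂ F y := by
    intro y hy
    have e1 : DifferentiableAt ℂ (g^[n]) (m * y) :=
      iter_diffAt n fun j hj => hgd _ ((huni y hy).1 j hj.le)
    have e2 : DifferentiableAt ℂ (fun y : ℂ => m * y) y := differentiableAt_id.const_mul m
    rw [hF]
    exact (e1.comp y e2).div_const m
  have hNr : Nr (QQ d x) R η F := by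
    intro y hy
    refine ⟨hFd y hy, ?_⟩
    have e1 := (huni y hy).2.2
    rw [← hFm, ← mul_sub, norm_mul] at e1
    exact le_of_mul_le_mul_left e1 hm0
  obtain ⟨α, a1, a2, a3, a4, a5⟩ := H (x, a) (by rw [hT]; exact ⟨hx, ha, hρ⟩) F hNr
  simp only at a1 a3 a4
  have hαall : ∀ i : ℕ, ‖F^[i] α‖ < R := by
    intro i
    have e1 : Function.IsPeriodicPt F p α := a2
    rw [← e1.iterate_mod_apply i]
    exact a5 _ (Nat.mod_lt _ hp).le
  have hper : Function.IsPeriodicPt (QQ d x) p a := ha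
  have hP0 : 0 < Function.minimalPeriod (QQ d x) a := hper.minimalPeriod_pos hp
  refine ⟨m * α, ?_, ?_, ?_, ?_⟩
  · rw [← mul_sub, norm_mul, mul_comm ε]
    gcongr
  · rw [← a3]
    have hPF : g^[n * Function.minimalPeriod F α] (m * α) = m * α := by
      rw [← hFi, Function.iterate_minimalPeriod]
    have hPF' : Function.IsPeriodicPt g (n * Function.minimalPeriod F α) (m * α) := hPF
    have h1 := hPF'.minimalPeriod_dvd
    refine Nat.dvd_antisymm h1 ?_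
    obtain ⟨M, hM⟩ : ∃ M, M = Function.minimalPeriod g (m * α) := ⟨_, rfl⟩
    rw [← hM]
    have hMg : g^[M] (m * α) = m * α := by rw [hM]; exact Function.iterate_minimalPeriod
    have hdecomp : M % n + n * (M / n) = M := Nat.mod_add_div M n
    have hj : M % n = 0 := by
      by_contra hcon
      have e1 : 1 ≤ M % n := Nat.one_le_iff_ne_zero.2 hcon
      have e2 : M % n < n := Nat.mod_lt _ hn
      rw [← hdecomp, Function.iterate_add_apply, ← hFi] at hMg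
      have e3 := (huni _ (hαall (M / n))).2.1 _ e1 e2
      rw [hMg, norm_mul] at e3
      have e4 := hαall 0
      rw [Function.iterate_zero, id_eq] at e4
      have e5 := mul_lt_mul_of_pos_left e4 hm0
      linarith
    rw [hj, zero_add] at hdecomp
    rw [← hdecomp, ← hFi] at hMg
    have e6 : F^[M / n] α = α := mul_left_cancel₀ hm hMg
    have e7 : Function.IsPeriodicPt F (M / n) α := e6
    rw [← hdecomp]
    exact Nat.mul_dvd_mul_left n e7.minimalPeriod_dvd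
  · have hFpd : DifferentiableAt ℂ (F^[p]) α := iter_diffAt p fun j _ => hFd _ (hαall j)
    have e1 : g^[n * p] = fun w => m * F^[p] (w / m) := by
      funext w
      rw [hFi, mul_div_cancel₀ _ hm]
    have e2 : HasDerivAt (fun w : ℂ => w / m) (1 / m) (m * α) := (hasDerivAt_id _).div_const m
    have e3 : HasDerivAt (F^[p]) (deriv (F^[p]) α) (m * α / m) := by
      rw [mul_div_cancel_left₀ _ hm]
      exact hFpd.hasDerivAt
    have e4 : HasDerivAt (fun w => m * F^[p] (w / m)) (m * (deriv (F^[p]) α * (1 / m))) (m * α) :=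
      (e3.comp (m * α) e2).const_mul m
    rw [e1, e4.deriv]
    have e5 : m * (deriv (F^[p]) α * (1 / m)) = deriv (F^[p]) α := by field_simp
    rw [e5]
    exact a4
  · intro j
    have hdecomp : j % n + n * (j / n) = j := Nat.mod_add_div j n
    rw [← hdecomp, Function.iterate_add_apply, ← hFi]
    exact (huni _ (hαall (j / n))).1 _ (Nat.mod_lt _ hn).le

end Pool.Agent.N772.FU
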