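import Pool.Agent.N772.FU.Sph

/-!
# Hyperbolicity of the rational maps with a prescribed renormalisation
-/

set_option autoImplicit false

open Polynomial Filter Topology MeasureTheory
open scoped OnePoint

namespace Pool.Agent.N772.FU

open Pool.Agent.H762R2.Rt Pool.Agent.H462R2.AP
open Pool.Agent.Helper114.Herman Pool.Agent.Helper114.Konig

/-- the derivative of `Us` -/
noncomputable def dU (d : ℕ) (q : ℕ → ℂ) (z : ℂ) : ℂ :=
  d * z ^ (d - 1) + ∑ i ∈ Finset.Ico 1 d, q i * (i * z ^ (i - 1))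

theorem hasDerivAt_Us (d : ℕ) (q : ℕ → ℂ) (z : ℂ) : HasDerivAt (Us d q) (dU d q z) z := by
  unfold Us dU
  refine (hasDerivAt_pow d z).add (HasDerivAt.fun_sum fun i _ => ?_)
  exact (hasDerivAt_pow i z).const_mul _

theorem hasDerivAt_Vs (d : ℕ) (s : ℕ → ℂ) (z : ℂ) :
    HasDerivAt (Vs d s) (∑ i ∈ Finset.Icc 1 d, s i * (i * z ^ (i - 1))) z := by
  unfold Vs
  refine HasDerivAt.const_add 1 (HasDerivAt.fun_sum fun i _ => ?_)
  exact (hasDerivAt_pow i z).const_mul _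

theorem dVs_le {d : ℕ} {s : ℕ → ℂ} {σ : ℝ} (hs : ∀ i, ‖s i‖ ≤ σ) {z : ℂ} (hz : ‖z‖ ≤ 10) :
    ‖deriv (Vs d s) z‖ ≤ d * (σ * (d * 10 ^ d)) := by
  have hσ : 0 ≤ σ := (norm_nonneg _).trans (hs 0)
  rw [(hasDerivAt_Vs d s z).deriv]
  apply sum_bd (by simp) (by positivity)
  intro i hi
  rw [Finset.mem_Icc] at hi
  rw [norm_mul, norm_mul, norm_pow, Complex.norm_natCast]
  have h1 : ‖z‖ ^ (i - 1) ≤ 10 ^ d := by
    calc ‖z‖ ^ (i - 1) ≤ 10 ^ (i - 1) := by gcongr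
      _ ≤ 10 ^ d := pow_le_pow_right₀ (by norm_num) (by omega)
  have h2 : (i : ℝ) ≤ d := by exact_mod_cast hi.2
  gcongr
  exact hs i

theorem Us_scale {d : ℕ} (m : ℂ) (q : ℕ → ℂ) (z : ℂ) :
    Us d (pp d m q) (m * z) = m ^ d * Us d q z := by
  unfold Us
  rw [mul_add, mul_pow, Finset.mul_sum]
  congr 1
  refine Finset.sum_congr rfl fun i hi => ?_
  rw [Finset.mem_Ico] at hi
  unfold pp
  rw [if_pos hi.2, mul_pow]
  have : m ^ d = m ^ (d - i) * m ^ i := by rw [← pow_add]; congr 1; omega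
  rw [this]
  ring

theorem dU_scale {d : ℕ} (hd : 2 ≤ d) (m : ℂ) (q : ℕ → ℂ) (z : ℂ) :
    dU d (pp d m q) (m * z) = m ^ (d - 1) * dU d q z := by
  unfold dU
  rw [mul_add, Finset.mul_sum]
  congr 1
  · rw [mul_pow]
    ring
  refine Finset.sum_congr rfl fun i hi => ?_
  rw [Finset.mem_Ico] at hi
  unfold pp
  rw [if_pos hi.2, mul_pow]
  have : m ^ (d - 1) = m ^ (d - i) * m ^ (i - 1) := by rw [← pow_add]; congr 1; omega
  rw [this]
  ring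

/-- far away -/
theorem dU_far {d : ℕ} (hd : 2 ≤ d) {q : ℕ → ℂ} {A : ℝ} (hq : ∀ i < d, ‖q i‖ ≤ A) {z : ℂ}
    (hz1 : 1 ≤ ‖z‖) (hz : 2 * d * A ≤ ‖z‖) :
    d / 2 * ‖z‖ ^ (d - 1) ≤ ‖dU d q z‖ ∧ ‖Us d q z‖ ≤ 2 * ‖z‖ ^ d := by
  have hA : 0 ≤ A := (norm_nonneg _).trans (hq 0 (by omega))
  have hdR : (2 : ℝ) ≤ d := by exact_mod_cast hd
  have hz0 : 0 < ‖z‖ := by linarith
  obtain ⟨D, hD⟩ : ∃ D, d = D + 2 := ⟨d - 2, by omega⟩
  have h1 : ‖∑ i ∈ Finset.Ico 1 d, q i * (i * z ^ (i - 1))‖ ≤ d * (A * (d * ‖z‖ ^ (d - 2))) := by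
    apply sum_bd (by simp) (by positivity)
    intro i hi
    rw [Finset.mem_Ico] at hi
    rw [norm_mul, norm_mul, norm_pow, Complex.norm_natCast]
    have e1 : ‖z‖ ^ (i - 1) ≤ ‖z‖ ^ (d - 2) := pow_le_pow_right₀ hz1 (by omega)
    have e2 : (i : ℝ) ≤ d := by exact_mod_cast hi.2.le
    gcongr
    exact hq i hi.2
  have h2 : ‖∑ i ∈ Finset.Ico 1 d, q i * z ^ i‖ ≤ d * (A * ‖z‖ ^ (d - 1)) := by
    apply sum_bd (by simp) (by positivity)
    intro i hi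
    rw [Finset.mem_Ico] at hi
    rw [norm_mul, norm_pow]
    have e1 : ‖z‖ ^ i ≤ ‖z‖ ^ (d - 1) := pow_le_pow_right₀ hz1 (by omega)
    gcongr
    exact hq i hi.2
  have h3 : ‖z‖ ^ (d - 1) = ‖z‖ ^ (d - 2) * ‖z‖ := by rw [← pow_succ]; congr 1; omega
  have h4 : ‖z‖ ^ d = ‖z‖ ^ (d - 1) * ‖z‖ := by rw [← pow_succ]; congr 1; omega
  constructor
  · have e1 : ‖(d : ℂ) * z ^ (d - 1)‖ = d * ‖z‖ ^ (d - 1) := by
      rw [norm_mul, norm_pow, Complex.norm_natCast]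
    have e2 : ‖(d : ℂ) * z ^ (d - 1)‖ ≤ ‖dU d q z‖ +
        ‖∑ i ∈ Finset.Ico 1 d, q i * (i * z ^ (i - 1))‖ := by
      have : (d : ℂ) * z ^ (d - 1) = dU d q z - ∑ i ∈ Finset.Ico 1 d, q i * (i * z ^ (i - 1)) := by
        unfold dU
        ring
      rw [this]
      exact norm_sub_le _ _
    have e3 : d * (A * (d * ‖z‖ ^ (d - 2))) ≤ d / 2 * ‖z‖ ^ (d - 1) := by
      rw [h3]
      have : (d : ℝ) / 2 * (‖z‖ ^ (d - 2) * ‖z‖) - d * (A * (d * ‖z‖ ^ (d - 2))) =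
          d / 2 * ‖z‖ ^ (d - 2) * (‖z‖ - 2 * d * A) := by ring
      have h5 : 0 ≤ (d : ℝ) / 2 * ‖z‖ ^ (d - 2) * (‖z‖ - 2 * d * A) := by
        apply mul_nonneg (by positivity)
        linarith
      linarith
    rw [e1] at e2
    linarith
  · have e3 : d * (A * ‖z‖ ^ (d - 1)) ≤ ‖z‖ ^ d := by
      rw [h4]
      have h5 : 0 ≤ ‖z‖ ^ (d - 1) * (‖z‖ - d * A) := by
        apply mul_nonneg (by positivity)
        have : 0 ≤ d * A := by positivity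
        linarith
      linarith
    unfold Us
    refine (norm_add_le _ _).trans ?_
    rw [norm_pow]
    linarith

/-- the iterates are differentiable -/
theorem iter_diffAt {g : ℂ → ℂ} {z : ℂ} (n : ℕ) (h : ∀ j < n, DifferentiableAt ℂ g (g^[j] z)) :
    DifferentiableAt ℂ (g^[n]) z := by
  induction n with
  | zero => exact differentiableAt_id
  | succ n ih =>
    rw [Function.iterate_succ']
    exact (h n (by omega)).comp z (ih fun j hj => h j (by omega))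

/-- **Hyperbolicity.** -/
theorem hyp_of_uni {d : ℕ} (hd : 2 ≤ d) {S : Set ((ℕ → ℂ) × ℂ)} (hS : IsCompact S)
    (hA : ∀ x ∈ S, ∀ w, dU d x.1 w = 0 → Attr (fun z => Us d x.1 z + x.2) w) :
    ∃ (R ε : ℝ), 0 < ε ∧ ∀ x ∈ S, ∀ (n : ℕ) (k m : ℂ) (s : ℕ → ℂ), 0 < n → m ≠ 0 → ‖m‖ ≤ ε →
      (∀ i, ‖s i‖ ≤ ε) → (∀ i, ‖pp d m x.1 i‖ ≤ ε) → ‖k‖ ≤ 3 →
      (∀ z : ℂ, ‖z‖ < R → (∀ j ≤ n, ‖(gg d m x.1 s k)^[j] (m * z)‖ ≤ 4) ∧
        ‖(gg d m x.1 s k)^[n] (m * z) - m * (Us d x.1 z + x.2)‖ ≤ ‖m‖ * ε) →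
      IsCoprime (numP d (pp d m x.1) s k) (denP d s) ∧
      max (numP d (pp d m x.1) s k).natDegree (denP d s).natDegree = d ∧
      Hyp (numP d (pp d m x.1) s k) (denP d s) := by
  have hdR : (2 : ℝ) ≤ d := by exact_mod_cast hd
  -- the bound of the coefficients
  obtain ⟨A, hA0, hAb⟩ : ∃ A : ℝ, 0 ≤ A ∧ ∀ x ∈ S, ∀ i < d, ‖x.1 i‖ ≤ A := by
    have h1 : ∀ i : ℕ, ∃ B : ℝ, ∀ x ∈ S, ‖x.1 i‖ ≤ B := by
      intro i
      have hc : IsCompact ((fun x : (ℕ → ℂ) × ℂ => x.1 i) '' S) :=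
        hS.image ((continuous_apply i).comp continuous_fst)
      obtain ⟨B, hB⟩ := hc.isBounded.exists_norm_le
      exact ⟨B, fun x hx => hB _ (Set.mem_image_of_mem (fun x : (ℕ → ℂ) × ℂ => x.1 i) hx)⟩
    choose B hB using h1
    refine ⟨∑ i ∈ Finset.range d, |B i|, Finset.sum_nonneg fun _ _ => abs_nonneg _,
      fun x hx i hi => ?_⟩
    refine (hB i x hx).trans ((le_abs_self _).trans ?_)
    exact Finset.single_le_sum (f := fun i => |B i|) (fun _ _ => abs_nonneg _)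
      (Finset.mem_range.2 hi)
  obtain ⟨K, hK⟩ : ∃ K : ℝ, K = max 1 (2 * d * A) := ⟨_, rfl⟩
  have hK1 : 1 ≤ K := by rw [hK]; exact le_max_left _ _
  have hKA : 2 * d * A ≤ K := by rw [hK]; exact le_max_right _ _
  have hcU : Continuous fun y : ((ℕ → ℂ) × ℂ) × ℂ => Us d y.1.1 y.2 := by
    unfold Us
    fun_prop
  have hcdU : Continuous fun y : ((ℕ → ℂ) × ℂ) × ℂ => dU d y.1.1 y.2 := by
    unfold dU
    fun_prop
  obtain ⟨R, ε₁, hε₁, H⟩ := trap_family (X := (ℕ → ℂ) × ℂ) (Q := fun x z => Us d x.1 z + x.2)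
    (Q' := fun x z => dU d x.1 z) (fun x => (Us_diff d x.1).add_const x.2)
    (hcU.add (continuous_snd.comp continuous_fst)) hcdU hS hA K
  obtain ⟨B, hB⟩ : ∃ B : ℝ, B = K ^ d + d * (A * K ^ d) := ⟨_, rfl⟩
  have hB0 : 0 ≤ B := by rw [hB]; positivity
  obtain ⟨CV, hCV⟩ : ∃ CV : ℝ, CV = d * (d * 10 ^ d) := ⟨_, rfl⟩
  have hCV0 : 0 < CV := by rw [hCV]; positivity
  have h10 : (1 : ℝ) ≤ 10 ^ d := one_le_pow₀ (by norm_num)
  obtain ⟨ε, hε⟩ : ∃ ε : ℝ, ε = min (min ε₁ 1) (min (1 / (1000 * CV)) (ε₁ / (2 * (B + 1) * CV))) :=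
    ⟨_, rfl⟩
  have hε0 : 0 < ε := by rw [hε]; positivity
  have hεε : ε ≤ ε₁ := by rw [hε]; exact (min_le_left _ _).trans (min_le_left _ _)
  have hε1 : ε ≤ 1 := by rw [hε]; exact (min_le_left _ _).trans (min_le_right _ _)
  have hεC : 1000 * (CV * ε) ≤ 1 := by
    have : ε ≤ 1 / (1000 * CV) := by rw [hε]; exact (min_le_right _ _).trans (min_le_left _ _)
    rw [le_div_iff₀ (by positivity)] at this
    linarith
  have hεB : 2 * ((B + 1) * (CV * ε)) ≤ ε₁ := by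
    have : ε ≤ ε₁ / (2 * (B + 1) * CV) := by
      rw [hε]; exact (min_le_right _ _).trans (min_le_right _ _)
    rw [le_div_iff₀ (by positivity)] at this
    linarith
  have hεd : d * (ε * 10 ^ d) ≤ 1 / 1000 := by
    have e1 : d * (ε * 10 ^ d) ≤ CV * ε := by
      rw [hCV]
      calc d * (ε * 10 ^ d) = 1 * (d * (ε * 10 ^ d)) := (one_mul _).symm
        _ ≤ d * (d * (ε * 10 ^ d)) := by gcongr; linarith
        _ = _ := by ring
    linarith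
  refine ⟨R, ε, hε0, fun x hx n k m s hn hm hmε hs hp hk huni => ?_⟩
  have hm0 : 0 < ‖m‖ := norm_pos_iff.2 hm
  have hV10 : ∀ z : ℂ, ‖z‖ ≤ 10 → 1 / 2 ≤ ‖Vs d s z‖ ∧ Vs d s z ≠ 0 := by
    intro z hz
    have e1 := Vs_near (d := d) hs (by norm_num) hz
    exact half_of_near (e1.trans (by linarith))
  refine sphere_hyp hd hp hs hεd hk fun f hf z hz hcrit => ?_
  obtain ⟨ζ, hζ⟩ : ∃ ζ, ζ = z / m := ⟨_, rfl⟩
  have hzζ : z = m * ζ := by rw [hζ, mul_div_cancel₀ _ hm]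
  obtain ⟨F, hF⟩ : ∃ F : ℂ → ℂ, F = fun z => (gg d m x.1 s k)^[n] (m * z) / m := ⟨_, rfl⟩
  have hFm : ∀ y, m * F y = (gg d m x.1 s k)^[n] (m * y) := by
    intro y
    rw [hF]
    exact mul_div_cancel₀ _ hm
  -- the rescaled critical equation
  have hcr : dU d x.1 ζ * Vs d s z = m * Us d x.1 ζ * deriv (Vs d s) z := by
    rw [(hasDerivAt_Us d _ z).deriv, hzζ, dU_scale hd, Us_scale] at hcrit
    have e1 : m ^ d = m ^ (d - 1) * m := by rw [← pow_succ, Nat.sub_add_cancel (by omega)]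
    rw [e1, ← hzζ] at hcrit
    have e2 : m ^ (d - 1) * (dU d x.1 ζ * Vs d s z) =
        m ^ (d - 1) * (m * Us d x.1 ζ * deriv (Vs d s) z) := by linear_combination hcrit
    exact mul_left_cancel₀ (pow_ne_zero _ hm) e2
  have hdV := dVs_le (d := d) hs hz
  have hdV' : ‖deriv (Vs d s) z‖ ≤ CV * ε := by
    refine hdV.trans (le_of_eq ?_)
    rw [hCV]
    ring
  have hmain : ‖dU d x.1 ζ‖ ≤ 2 * (‖m‖ * ‖Us d x.1 ζ‖ * (CV * ε)) := by
    have e1 : ‖dU d x.1 ζ‖ * (1 / 2) ≤ ‖dU d x.1 ζ‖ * ‖Vs d s z‖ := by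
      gcongr
      exact (hV10 z hz).1
    have e2 : ‖dU d x.1 ζ‖ * ‖Vs d s z‖ = ‖m‖ * ‖Us d x.1 ζ‖ * ‖deriv (Vs d s) z‖ := by
      rw [← norm_mul, hcr, norm_mul, norm_mul]
    have e3 : ‖m‖ * ‖Us d x.1 ζ‖ * ‖deriv (Vs d s) z‖ ≤ ‖m‖ * ‖Us d x.1 ζ‖ * (CV * ε) := by gcongr
    linarith
  have hζK : ‖ζ‖ ≤ K := by
    by_contra hcon
    push Not at hcon
    obtain ⟨e1, e2⟩ := dU_far hd (hAb x hx) (by linarith : 1 ≤ ‖ζ‖) (by linarith)
    have e3 : ‖m‖ * ‖ζ‖ ≤ 10 := by rw [← norm_mul, ← hzζ]; exact hz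
    have e4 : 0 < ‖ζ‖ ^ (d - 1) := by
      have : 0 < ‖ζ‖ := by linarith
      positivity
    have e5 : ‖ζ‖ ^ d = ‖ζ‖ ^ (d - 1) * ‖ζ‖ := by rw [← pow_succ]; congr 1; omega
    have e6 : ‖dU d x.1 ζ‖ ≤ 40 * (CV * ε) * ‖ζ‖ ^ (d - 1) := by
      calc ‖dU d x.1 ζ‖ ≤ 2 * (‖m‖ * ‖Us d x.1 ζ‖ * (CV * ε)) := hmain
        _ ≤ 2 * (‖m‖ * (2 * ‖ζ‖ ^ d) * (CV * ε)) := by gcongr
        _ = 4 * (CV * ε) * ‖ζ‖ ^ (d - 1) * (‖m‖ * ‖ζ‖) := by rw [e5]; ring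
        _ ≤ 4 * (CV * ε) * ‖ζ‖ ^ (d - 1) * 10 := by gcongr
        _ = _ := by ring
    have e7 : 40 * (CV * ε) * ‖ζ‖ ^ (d - 1) ≤ 1 / 25 * ‖ζ‖ ^ (d - 1) := by
      gcongr
      linarith
    have e8 : 1 * ‖ζ‖ ^ (d - 1) ≤ d / 2 * ‖ζ‖ ^ (d - 1) := by
      gcongr
      linarith
    linarith
  have hUB : ‖Us d x.1 ζ‖ ≤ B := by
    have e2 : ‖∑ i ∈ Finset.Ico 1 d, x.1 i * ζ ^ i‖ ≤ d * (A * K ^ d) := by
      apply sum_bd (by simp) (by positivity)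
      intro i hi
      rw [Finset.mem_Ico] at hi
      rw [norm_mul, norm_pow]
      have e1 : ‖ζ‖ ^ i ≤ K ^ d := by
        calc ‖ζ‖ ^ i ≤ K ^ i := by gcongr
          _ ≤ K ^ d := pow_le_pow_right₀ hK1 hi.2.le
      gcongr
      exact hAb x hx i hi.2
    unfold Us
    refine (norm_add_le _ _).trans ?_
    rw [norm_pow, hB]
    gcongr
  have hsmall : ‖dU d x.1 ζ‖ ≤ ε₁ := by
    calc ‖dU d x.1 ζ‖ ≤ 2 * (‖m‖ * ‖Us d x.1 ζ‖ * (CV * ε)) := hmain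
      _ ≤ 2 * (1 * B * (CV * ε)) := by
          gcongr
          linarith
      _ ≤ 2 * ((B + 1) * (CV * ε)) := by
          rw [one_mul]
          gcongr
          linarith
      _ ≤ ε₁ := hεB
  have hgd : ∀ y : ℂ, ‖y‖ ≤ 4 → DifferentiableAt ℂ (gg d m x.1 s k) y := by
    intro y hy
    unfold gg
    exact (Gs_diffAt (hV10 y (by linarith)).2).add_const k
  have hfg : ∀ y : ℂ, ‖y‖ ≤ 4 → f (y : OnePoint ℂ) = ((gg d m x.1 s k y : ℂ) : OnePoint ℂ) := by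
    intro y hy
    have e1 : (denP d s).eval y ≠ 0 := by rw [denP_eval]; exact (hV10 y (by linarith)).2
    rw [hf.eval y e1, denP_eval, numP_eval]
    congr 1
    unfold gg Gs
    rw [denP_eval] at e1
    field_simp
  have hfit : ∀ (y : ℂ) (j : ℕ), (∀ i < j, ‖(gg d m x.1 s k)^[i] y‖ ≤ 4) →
      f^[j] (y : OnePoint ℂ) = (((gg d m x.1 s k)^[j] y : ℂ) : OnePoint ℂ) := by
    intro y j
    induction j with
    | zero => intro _; rfl
    | succ j ih =>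
      intro hj
      rw [Function.iterate_succ_apply', ih (fun i hi => hj i (by omega)), hfg _ (hj j (by omega)),
        Function.iterate_succ_apply']
  rw [hzζ]
  apply sinks_of_trap hf.cont hm hn (F := F) (R := R)
  · intro y hy
    rw [hFm, hfit _ n (fun i hi => (huni y hy).1 i hi.le)]
  · intro y hy
    have e1 : DifferentiableAt ℂ ((gg d m x.1 s k)^[n]) (m * y) :=
      iter_diffAt n fun j hj => hgd _ ((huni y hy).1 j hj.le)
    have e2 : DifferentiableAt ℂ (fun y : ℂ => m * y) y := differentiableAt_id.const_mul m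
    rw [hF]
    exact (e1.comp y e2).div_const m
  · refine H x hx F ?_ ζ hζK hsmall
    intro y hy
    have e1 := (huni y hy).2
    rw [← hFm, ← mul_sub, norm_mul] at e1
    exact (le_of_mul_le_mul_left e1 hm0).trans hεε

end Pool.Agent.N772.FU
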