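import Mathlib
import Pool.Agent.N772.FU.Fam
import Pool.Agent.N772.FU.Att

/-! The final bookkeeping. -/

set_option autoImplicit false

open Polynomial Filter Metric Topology Set
open Pool.Agent.H712R2 Pool.Agent.H762R2.Rt

namespace Pool.Agent.N772.FU

/-- the coefficients of the numerator -/
noncomputable def exq (d : ℕ) (q : Fin (d - 1) → ℂ) (i : ℕ) : ℂ :=
  if h : 1 ≤ i ∧ i < d then q ⟨i - 1, by omega⟩ else 0

/-- the coefficients of the denominator -/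
noncomputable def exs (d : ℕ) (s : Fin d → ℂ) (i : ℕ) : ℂ :=
  if h : 1 ≤ i ∧ i ≤ d then s ⟨i - 1, by omega⟩ else 0

theorem exq_le {d : ℕ} {q : Fin (d - 1) → ℂ} {A : ℝ} (hA : 0 ≤ A) (h : ∀ i, ‖q i‖ ≤ A) (i : ℕ) :
    ‖exq d q i‖ ≤ A := by
  unfold exq
  split_ifs with hi
  · exact h _
  · simpa using hA

theorem exs_le {d : ℕ} {s : Fin d → ℂ} {A : ℝ} (hA : 0 ≤ A) (h : ∀ i, ‖s i‖ ≤ A) (i : ℕ) :
    ‖exs d s i‖ ≤ A := by
  unfold exs
  split_ifs with hi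
  · exact h _
  · simpa using hA

theorem exq_cont (d : ℕ) : Continuous fun x : (Fin (d - 1) → ℂ) × ℂ => (exq d x.1, x.2) := by
  refine Continuous.prodMk ?_ continuous_snd
  refine continuous_pi fun i => ?_
  unfold exq
  split_ifs with hi
  · exact (continuous_apply _).comp continuous_fst
  · exact continuous_const

theorem sum_Ico_fin {M : Type*} [AddCommMonoid M] (d : ℕ) (F : ℕ → M) :
    ∑ i ∈ Finset.Ico 1 d, F i = ∑ i : Fin (d - 1), F (i.1 + 1) := by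
  rw [Finset.sum_Ico_eq_sum_range, Finset.sum_range]
  refine Finset.sum_congr rfl fun i _ => ?_
  rw [add_comm]

theorem sum_Icc_fin {M : Type*} [AddCommMonoid M] (d : ℕ) (F : ℕ → M) :
    ∑ i ∈ Finset.Icc 1 d, F i = ∑ i : Fin d, F (i.1 + 1) := by
  have h1 : Finset.Icc 1 d = Finset.Ico 1 (d + 1) := by
    ext x
    simp only [Finset.mem_Icc, Finset.mem_Ico]
    omega
  rw [h1, sum_Ico_fin]
  rfl

theorem exq_apply {d : ℕ} (q : Fin (d - 1) → ℂ) (i : Fin (d - 1)) : exq d q (i.1 + 1) = q i := by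
  have hi := i.2
  unfold exq
  rw [dif_pos ⟨by omega, by omega⟩]
  rfl

theorem exs_apply {d : ℕ} (s : Fin d → ℂ) (i : Fin d) : exs d s (i.1 + 1) = s i := by
  have hi := i.2
  unfold exs
  rw [dif_pos ⟨by omega, by omega⟩]
  rfl

theorem Us_exq (d : ℕ) (q : Fin (d - 1) → ℂ) (z : ℂ) :
    Us d (exq d q) z = z ^ d + ∑ i : Fin (d - 1), q i * z ^ (i.1 + 1) := by
  unfold Us
  rw [sum_Ico_fin]
  congr 1
  refine Finset.sum_congr rfl fun i _ => ?_
  rw [exq_apply]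

theorem pp_exq {d : ℕ} (m : ℂ) (q : Fin (d - 1) → ℂ) (i : Fin (d - 1)) :
    pp d m (exq d q) (i.1 + 1) = q i * m ^ (d - 1 - i.1) := by
  have hi := i.2
  unfold pp
  rw [if_pos (by omega), exq_apply]
  congr 2
  omega

theorem upper_eq (d : ℕ) (m : ℂ) (q : Fin (d - 1) → ℂ) :
    (X ^ d + ∑ i : Fin (d - 1), C (q i * m ^ (d - 1 - i.1)) * X ^ (i.1 + 1) : ℂ[X]) =
      X ^ d + ∑ i ∈ Finset.Ico 1 d, C (pp d m (exq d q) i) * X ^ i := by
  rw [sum_Ico_fin]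
  congr 1
  refine Finset.sum_congr rfl fun i _ => ?_
  rw [pp_exq]

theorem lower_eq (d : ℕ) (s : Fin d → ℂ) :
    (1 + ∑ i : Fin d, C (s i) * X ^ (i.1 + 1) : ℂ[X]) = denP d (exs d s) := by
  unfold denP
  rw [sum_Icc_fin]
  congr 1
  refine Finset.sum_congr rfl fun i _ => ?_
  rw [exs_apply]

theorem upper_eval (d : ℕ) (p : ℕ → ℂ) (z : ℂ) :
    (X ^ d + ∑ i ∈ Finset.Ico 1 d, C (p i) * X ^ i : ℂ[X]).eval z = Us d p z := by
  unfold Us
  rw [eval_add, eval_pow, eval_X, eval_finsetSum]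
  simp

theorem pp_le {d : ℕ} {m : ℂ} (hm : ‖m‖ ≤ 1) {q : ℕ → ℂ} {A : ℝ} (hA : 0 ≤ A)
    (hq : ∀ i, ‖q i‖ ≤ A) (i : ℕ) : ‖pp d m q i‖ ≤ A * ‖m‖ := by
  unfold pp
  split_ifs with hi
  · rw [norm_mul, norm_pow]
    have h1 : ‖m‖ ^ (d - i) ≤ ‖m‖ := by
      calc ‖m‖ ^ (d - i) ≤ ‖m‖ ^ 1 := pow_le_pow_of_le_one (norm_nonneg m) hm (by omega)
        _ = ‖m‖ := pow_one _
    gcongr
    exact hq i
  · rw [norm_zero]
    positivity

theorem upper_coeff_le {d : ℕ} {p : ℕ → ℂ} {A : ℝ} (hA : 0 ≤ A) (hp : ∀ i, ‖p i‖ ≤ A) (j : ℕ) :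
    ‖((X ^ d + ∑ i ∈ Finset.Ico 1 d, C (p i) * X ^ i : ℂ[X]) - X ^ d).coeff j‖ ≤ A := by
  rw [add_sub_cancel_left, finset_sum_coeff]
  by_cases hj : j ∈ Finset.Ico 1 d
  · rw [Finset.sum_eq_single j]
    · rw [coeff_C_mul_X_pow, if_pos rfl]
      exact hp j
    · intro i _ hij
      rw [coeff_C_mul_X_pow, if_neg (Ne.symm hij)]
    · intro h
      exact absurd hj h
  · rw [Finset.sum_eq_zero]
    · simpa using hA
    · intro i hi
      rw [coeff_C_mul_X_pow, if_neg]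
      rintro rfl
      exact hj hi

theorem lower_coeff_le {d : ℕ} {s : ℕ → ℂ} {A : ℝ} (hA : 0 ≤ A) (hs : ∀ i, ‖s i‖ ≤ A) (j : ℕ) :
    ‖(denP d s - 1).coeff j‖ ≤ A := by
  unfold denP
  rw [add_sub_cancel_left, finset_sum_coeff]
  by_cases hj : j ∈ Finset.Icc 1 d
  · rw [Finset.sum_eq_single j]
    · rw [coeff_C_mul_X_pow, if_pos rfl]
      exact hs j
    · intro i _ hij
      rw [coeff_C_mul_X_pow, if_neg (Ne.symm hij)]
    · intro h
      exact absurd hj h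
  · rw [Finset.sum_eq_zero]
    · simpa using hA
    · intro i hi
      rw [coeff_C_mul_X_pow, if_neg]
      rintro rfl
      exact hj hi

/-- coprimality and the degree -/
theorem cop_deg {d : ℕ} (hd : 2 ≤ d) {p s : ℕ → ℂ} {σ : ℝ} (hp : ∀ i, ‖p i‖ ≤ σ)
    (hs : ∀ i, ‖s i‖ ≤ σ) (hσ : d * (σ * 10 ^ d) ≤ 1 / 1000) {k : ℂ} (hk : ‖k‖ ≤ 3) :
    IsCoprime (numP d p s k) (denP d s) ∧
      max (numP d p s k).natDegree (denP d s).natDegree = d ∧
      ∀ z : ℂ, ‖z‖ ≤ 10 → Vs d s z ≠ 0 := by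
  have hσ0 : 0 ≤ σ := (norm_nonneg _).trans (hp 0)
  have hdR : (2 : ℝ) ≤ d := by exact_mod_cast hd
  have h10 : (1 : ℝ) ≤ 10 ^ d := one_le_pow₀ (by norm_num)
  have hσd : d * σ ≤ 1 / 1000 := by
    refine le_trans ?_ hσ
    gcongr
    exact le_mul_of_one_le_right hσ0 h10
  have hσ1 : σ ≤ 1 / 1000 := by
    have : σ ≤ d * σ := le_mul_of_one_le_left hσ0 (by linarith)
    linarith
  have hV10 : ∀ z : ℂ, ‖z‖ ≤ 10 → Vs d s z ≠ 0 := by
    intro z hz
    have e1 := Vs_near (d := d) hs (by norm_num) hz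
    exact (half_of_near (e1.trans (by linarith))).2
  have htop : (numP d p s k).coeff d ≠ 0 := by
    rw [numP_coeff_top hd]
    intro h0
    have e1 : (1 : ℂ) = -(k * s d) := by linear_combination h0
    have e2 : (1 : ℝ) = ‖k * s d‖ := by
      rw [← norm_neg, ← e1, norm_one]
    rw [norm_mul] at e2
    have e3 : ‖k‖ * ‖s d‖ ≤ 3 * (1 / 1000) := by
      gcongr
      exact (hs d).trans hσ1
    linarith
  have hndeg : (numP d p s k).natDegree = d :=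
    le_antisymm (numP_deg_le d p s k) (le_natDegree_of_ne_zero htop)
  have hdeg : max (numP d p s k).natDegree (denP d s).natDegree = d := by
    rw [hndeg]
    exact max_eq_left (denP_deg d s)
  refine ⟨?_, hdeg, hV10⟩
  refine (isCoprime_iff_aeval_ne_zero_of_isAlgClosed ℂ ℂ _ _).2 ?_
  intro z
  simp only [coe_aeval_eq_eval]
  by_contra hcon
  push Not at hcon
  obtain ⟨h1, h2⟩ := hcon
  rw [denP_eval] at h2
  rw [numP_eval, h2, mul_zero, add_zero] at h1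
  rcases le_or_gt ‖z‖ 10 with hz | hz
  · exact hV10 z hz h2
  · -- far away the numerator does not vanish
    have e1 : ‖Us d p z - z ^ d‖ ≤ d * (σ * ‖z‖ ^ d) := Us_near hp (by linarith) le_rfl
    rw [h1, zero_sub, norm_neg, norm_pow] at e1
    have e2 : 0 < ‖z‖ ^ d := by positivity
    have e3 : d * (σ * ‖z‖ ^ d) = d * σ * ‖z‖ ^ d := by ring
    rw [e3] at e1
    nlinarith

end Pool.Agent.N772.FU
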