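import Mathlib

/-!
# Robustness of the attraction of critical points
-/

set_option autoImplicit false

open Set Filter Metric Topology

namespace Pool.Agent.N772.FU

/-- the iterates of nearby maps are close on compact sets -/
theorem iter_near {Q : ℂ → ℂ} (hQ : Continuous Q) {K : Set ℂ} (hK : IsCompact K) (J : ℕ) :
    ∀ ε : ℝ, 0 < ε → ∃ (R η : ℝ), 0 < R ∧ 0 < η ∧ ∀ F : ℂ → ℂ,
      (∀ z : ℂ, ‖z‖ < R → ‖F z - Q z‖ ≤ η) →
      ∀ z ∈ K, ∀ i ≤ J, ‖F^[i] z - Q^[i] z‖ ≤ ε ∧ ‖F^[i] z‖ < R := by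
  induction J with
  | zero =>
    intro ε hε
    obtain ⟨B, hB⟩ := hK.isBounded.exists_norm_le
    refine ⟨max B 0 + 1, 1, by positivity, one_pos, fun F _ z hz i hi => ?_⟩
    have h0 : i = 0 := by omega
    rw [h0, Function.iterate_zero, Function.iterate_zero, id_eq, sub_self, norm_zero]
    refine ⟨hε.le, ?_⟩
    have := hB z hz
    have := le_max_left B 0
    linarith
  | succ J ih =>
    intro ε hε
    have hc1 : IsCompact (Q^[J] '' K) := hK.image (hQ.iterate J)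
    have hc2 : IsCompact (Q^[J + 1] '' K) := hK.image (hQ.iterate (J + 1))
    obtain ⟨B₁, hB₁⟩ := hc1.isBounded.exists_norm_le
    obtain ⟨B₂, hB₂⟩ := hc2.isBounded.exists_norm_le
    obtain ⟨R', hR'⟩ : ∃ R' : ℝ, R' = max B₁ 0 + 2 := ⟨_, rfl⟩
    have hu := (isCompact_closedBall (0 : ℂ) R').uniformContinuousOn_of_continuous
      hQ.continuousOn
    rw [Metric.uniformContinuousOn_iff] at hu
    obtain ⟨δ, hδ, hu⟩ := hu (ε / 2) (by positivity)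
    obtain ⟨R₁, η₁, hR₁, hη₁, H⟩ := ih (min (min (δ / 2) ε) 1) (by positivity)
    refine ⟨max (max R₁ R') (max B₂ 0 + ε + 1), min η₁ (ε / 2), by positivity, by positivity,
      fun F hF z hz i hi => ?_⟩
    have hF1 : ∀ z : ℂ, ‖z‖ < R₁ → ‖F z - Q z‖ ≤ η₁ := fun z hz =>
      (hF z (hz.trans_le ((le_max_left _ _).trans (le_max_left _ _)))).trans (min_le_left _ _)
    rcases Nat.lt_or_ge i (J + 1) with hi' | hi'
    · obtain ⟨h1, h2⟩ := H F hF1 z hz i (by omega)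
      exact ⟨h1.trans ((min_le_left _ _).trans (min_le_right _ _)),
        h2.trans_le ((le_max_left _ _).trans (le_max_left _ _))⟩
    · have hiJ : i = J + 1 := by omega
      subst hiJ
      obtain ⟨h1, h2⟩ := H F hF1 z hz J le_rfl
      have hb1 : ‖Q^[J] z‖ ≤ R' - 2 := by
        have := hB₁ _ (mem_image_of_mem _ hz)
        have := le_max_left B₁ 0
        rw [hR']
        linarith
      have hb2 : ‖F^[J] z‖ ≤ R' - 1 := by
        have := norm_le_norm_add_norm_sub' (F^[J] z) (Q^[J] z)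
        have := h1.trans (min_le_right _ _)
        linarith
      have h3 := hF (F^[J] z) (by
        refine lt_of_lt_of_le ?_ ((le_max_right _ _).trans (le_max_left _ _))
        linarith)
      have h4 := hu (F^[J] z) (by rw [mem_closedBall_zero_iff]; linarith) (Q^[J] z)
        (by rw [mem_closedBall_zero_iff]; linarith) (by
          rw [dist_eq_norm]
          have := h1.trans ((min_le_left _ _).trans (min_le_left _ _))
          linarith)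
      rw [dist_eq_norm] at h4
      have h5 : ‖F^[J + 1] z - Q^[J + 1] z‖ ≤ ε := by
        rw [Function.iterate_succ_apply', Function.iterate_succ_apply']
        calc ‖F (F^[J] z) - Q (Q^[J] z)‖ = ‖(F (F^[J] z) - Q (F^[J] z)) +
              (Q (F^[J] z) - Q (Q^[J] z))‖ := by congr 1; ring
          _ ≤ ‖F (F^[J] z) - Q (F^[J] z)‖ + ‖Q (F^[J] z) - Q (Q^[J] z)‖ := norm_add_le _ _
          _ ≤ ε / 2 + ε / 2 := add_le_add (h3.trans (min_le_right _ _)) h4.le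
          _ = ε := by ring
      refine ⟨h5, ?_⟩
      have h6 := hB₂ _ (mem_image_of_mem (Q^[J + 1]) hz)
      have h7 := norm_le_norm_add_norm_sub' (F^[J + 1] z) (Q^[J + 1] z)
      refine lt_of_lt_of_le ?_ (le_max_right _ _)
      have := le_max_left B₂ 0
      linarith

/-- a trap for the orbit of `ζ` -/
def Trap (F : ℂ → ℂ) (R : ℝ) (ζ : ℂ) : Prop :=
  ∃ (a : ℂ) (ρ : ℝ) (m J : ℕ), 0 < ρ ∧ 0 < m ∧
    (∀ x ∈ closedBall a ρ, ‖F^[m] x - a‖ < ρ / 4 ∧ ∀ i ≤ m, ‖F^[i] x‖ < R) ∧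
    ‖F^[J] ζ - a‖ ≤ ρ / 2 ∧ ∀ i ≤ J, ‖F^[i] ζ‖ < R

theorem Trap.mono {F : ℂ → ℂ} {R R' : ℝ} {ζ : ℂ} (h : Trap F R ζ) (hR : R ≤ R') : Trap F R' ζ := by
  obtain ⟨a, ρ, m, J, h1, h2, h3, h4, h5⟩ := h
  exact ⟨a, ρ, m, J, h1, h2, fun x hx => ⟨(h3 x hx).1, fun i hi => ((h3 x hx).2 i hi).trans_le hR⟩,
    h4, fun i hi => (h5 i hi).trans_le hR⟩

/-- attraction of the point `w` by an attracting cycle of `Q` -/
def Attr (Q : ℂ → ℂ) (w : ℂ) : Prop :=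
  ∃ (m : ℕ) (a : ℂ), 0 < m ∧ Q^[m] a = a ∧ ‖deriv (Q^[m]) a‖ < 1 ∧
    Tendsto (fun k : ℕ => Q^[m * k] w) atTop (𝓝 a)

theorem contr {Q : ℂ → ℂ} (hQ : Differentiable ℂ Q) {m : ℕ} {a : ℂ} (ha : Q^[m] a = a)
    (hlt : ‖deriv (Q^[m]) a‖ < 1) : ∃ (ρ l : ℝ), 0 < ρ ∧ 0 ≤ l ∧ l < 1 ∧
      ∀ k : ℕ, ∀ x ∈ closedBall a ρ, ‖Q^[m * k] x - a‖ ≤ l ^ k * ‖x - a‖ := by
  obtain ⟨l, hl1, hl2⟩ := exists_between hlt
  have hl0 : 0 ≤ l := (norm_nonneg _).trans hl1.le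
  have hder : HasDerivAt (Q^[m]) (deriv (Q^[m]) a) a := ((hQ.iterate m) a).hasDerivAt
  have h1 : ∀ᶠ x in 𝓝 a, ‖Q^[m] x - a‖ ≤ l * ‖x - a‖ := by
    have h2 := hder.isLittleO
    have h3 : (0 : ℝ) < l - ‖deriv (Q^[m]) a‖ := by linarith
    filter_upwards [h2.def h3] with x hx
    rw [ha] at hx
    have h4 : Q^[m] x - a = (Q^[m] x - a - (x - a) • deriv (Q^[m]) a) +
        (x - a) • deriv (Q^[m]) a := by ring
    rw [h4]
    refine (norm_add_le _ _).trans ?_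
    rw [norm_smul (x - a)]
    nlinarith [norm_nonneg (x - a)]
  obtain ⟨ρ, hρ, h2⟩ := Metric.eventually_nhds_iff.1 h1
  refine ⟨ρ / 2, l, by positivity, hl0, hl2, fun k => ?_⟩
  induction k with
  | zero => intro x _; simp
  | succ k ih =>
    intro x hx
    have h3 := ih x hx
    have h4 : l ^ k ≤ 1 := pow_le_one₀ hl0 hl2.le
    have h5 : ‖x - a‖ ≤ ρ / 2 := by rwa [mem_closedBall, dist_eq_norm] at hx
    have h6 : ‖Q^[m * k] x - a‖ ≤ ρ / 2 := by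
      calc ‖Q^[m * k] x - a‖ ≤ l ^ k * ‖x - a‖ := h3
        _ ≤ 1 * (ρ / 2) := by gcongr
        _ = ρ / 2 := one_mul _
    have h7 : ‖Q^[m] (Q^[m * k] x) - a‖ ≤ l * ‖Q^[m * k] x - a‖ := h2 (by
      rw [dist_eq_norm]
      linarith)
    rw [show m * (k + 1) = m + m * k by ring, Function.iterate_add_apply]
    calc _ ≤ l * ‖Q^[m * k] x - a‖ := h7
      _ ≤ l * (l ^ k * ‖x - a‖) := by gcongr
      _ = _ := by ring

/-- local robustness -/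
theorem trap_robust {Q : ℂ → ℂ} (hQ : Differentiable ℂ Q) {w : ℂ} (h : Attr Q w) :
    ∃ (r R η : ℝ), 0 < r ∧ 0 < η ∧ ∀ F : ℂ → ℂ, (∀ z : ℂ, ‖z‖ < R → ‖F z - Q z‖ ≤ η) →
      ∀ ζ ∈ ball w r, Trap F R ζ := by
  obtain ⟨m, a, hm, ha, hlt, hlim⟩ := h
  obtain ⟨ρ, l, hρ, hl0, hl1, hcon⟩ := contr hQ ha hlt
  obtain ⟨k, hk⟩ := exists_pow_lt_of_lt_one (show (0 : ℝ) < 1 / 16 by norm_num) hl1
  have hk1 : l ^ (k + 1) ≤ 1 / 16 := by
    have : l ^ (k + 1) ≤ l ^ k := pow_le_pow_of_le_one hl0 hl1.le (by omega)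
    linarith
  obtain ⟨k', hk'⟩ := ((Metric.tendsto_nhds.1 hlim) (ρ / 8) (by positivity)).exists
  rw [dist_eq_norm] at hk'
  have hcont : Continuous (Q^[m * k']) := hQ.continuous.iterate _
  have h1 : ∀ᶠ ζ in 𝓝 w, ‖Q^[m * k'] ζ - a‖ < ρ / 8 :=
    ((hcont.sub continuous_const).norm.tendsto w).eventually_lt_const hk'
  obtain ⟨r, hr, h2⟩ := Metric.eventually_nhds_iff.1 h1
  obtain ⟨R₁, η₁, hR₁, hη₁, H₁⟩ := iter_near hQ.continuous (isCompact_closedBall a ρ) (m * (k + 1))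
    (ρ / 16) (by positivity)
  obtain ⟨R₂, η₂, hR₂, hη₂, H₂⟩ := iter_near hQ.continuous (isCompact_closedBall w r) (m * k')
    (ρ / 16) (by positivity)
  refine ⟨r, max R₁ R₂, min η₁ η₂, hr, by positivity, fun F hF ζ hζ => ?_⟩
  have hF1 : ∀ z : ℂ, ‖z‖ < R₁ → ‖F z - Q z‖ ≤ η₁ := fun z hz =>
    (hF z (hz.trans_le (le_max_left _ _))).trans (min_le_left _ _)
  have hF2 : ∀ z : ℂ, ‖z‖ < R₂ → ‖F z - Q z‖ ≤ η₂ := fun z hz =>
    (hF z (hz.trans_le (le_max_right _ _))).trans (min_le_right _ _)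
  refine ⟨a, ρ, m * (k + 1), m * k', hρ, by positivity, ?_, ?_, ?_⟩
  · intro x hx
    have g1 := H₁ F hF1 x hx
    refine ⟨?_, fun i hi => ((g1 i hi).2).trans_le (le_max_left _ _)⟩
    have g2 := (g1 _ le_rfl).1
    have g3 := hcon (k + 1) x hx
    rw [mem_closedBall, dist_eq_norm] at hx
    have g4 : l ^ (k + 1) * ‖x - a‖ ≤ 1 / 16 * ρ := by gcongr
    calc ‖F^[m * (k + 1)] x - a‖ = ‖(F^[m * (k + 1)] x - Q^[m * (k + 1)] x) +
          (Q^[m * (k + 1)] x - a)‖ := by congr 1; ring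
      _ ≤ ρ / 16 + 1 / 16 * ρ := (norm_add_le _ _).trans (add_le_add g2 (g3.trans g4))
      _ < ρ / 4 := by linarith
  · have g2 := (H₂ F hF2 ζ (ball_subset_closedBall hζ) _ le_rfl).1
    have g3 := h2 hζ
    calc ‖F^[m * k'] ζ - a‖ = ‖(F^[m * k'] ζ - Q^[m * k'] ζ) + (Q^[m * k'] ζ - a)‖ := by
          congr 1; ring
      _ ≤ ρ / 16 + ρ / 8 := (norm_add_le _ _).trans (add_le_add g2 g3.le)
      _ ≤ ρ / 2 := by linarith
  · intro i hi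
    exact ((H₂ F hF2 ζ (ball_subset_closedBall hζ) i hi).2).trans_le (le_max_right _ _)

/-- robustness on a disc -/
theorem trap_disc {Q Q' : ℂ → ℂ} (hQ : Differentiable ℂ Q) (hQ' : Continuous Q')
    (h : ∀ w, Q' w = 0 → Attr Q w) (K : ℝ) :
    ∃ (R ε : ℝ), 0 < ε ∧ ∀ F : ℂ → ℂ, (∀ z : ℂ, ‖z‖ < R → ‖F z - Q z‖ ≤ ε) →
      ∀ ζ : ℂ, ‖ζ‖ ≤ K → ‖Q' ζ‖ ≤ ε → Trap F R ζ := by
  have hind : ∀ s : Set ℂ, IsCompact s → ∃ (R ε : ℝ), 0 < ε ∧ ∀ F : ℂ → ℂ,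
      (∀ z : ℂ, ‖z‖ < R → ‖F z - Q z‖ ≤ ε) → ∀ ζ ∈ s, ‖Q' ζ‖ ≤ ε → Trap F R ζ := by
    intro s hs
    refine hs.induction_on (p := fun s => ∃ (R ε : ℝ), 0 < ε ∧ ∀ F : ℂ → ℂ,
      (∀ z : ℂ, ‖z‖ < R → ‖F z - Q z‖ ≤ ε) → ∀ ζ ∈ s, ‖Q' ζ‖ ≤ ε → Trap F R ζ) ?_ ?_ ?_ ?_
    · exact ⟨0, 1, one_pos, fun F _ ζ hζ => absurd hζ (notMem_empty ζ)⟩
    · rintro s t hst ⟨R, ε, hε, H⟩
      exact ⟨R, ε, hε, fun F hF ζ hζ => H F hF ζ (hst hζ)⟩
    · rintro s t ⟨R₁, ε₁, hε₁, H₁⟩ ⟨R₂, ε₂, hε₂, H₂⟩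
      refine ⟨max R₁ R₂, min ε₁ ε₂, by positivity, fun F hF ζ hζ hQζ => ?_⟩
      rcases hζ with hζ | hζ
      · exact (H₁ F (fun z hz => (hF z (hz.trans_le (le_max_left _ _))).trans (min_le_left _ _)) ζ hζ
          (hQζ.trans (min_le_left _ _))).mono (le_max_left _ _)
      · exact (H₂ F (fun z hz => (hF z (hz.trans_le (le_max_right _ _))).trans (min_le_right _ _)) ζ
          hζ (hQζ.trans (min_le_right _ _))).mono (le_max_right _ _)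
    · intro w _
      by_cases hw : Q' w = 0
      · obtain ⟨r, R, η, hr, hη, H⟩ := trap_robust hQ (h w hw)
        exact ⟨ball w r, mem_nhdsWithin_of_mem_nhds (ball_mem_nhds w hr), R, η, hη,
          fun F hF ζ hζ _ => H F hF ζ hζ⟩
      · have hpos : 0 < ‖Q' w‖ := norm_pos_iff.2 hw
        have h1 : ∀ᶠ ζ in 𝓝 w, ‖Q' w‖ / 2 < ‖Q' ζ‖ :=
          (hQ'.norm.tendsto w).eventually_const_lt (by linarith)
        refine ⟨{ζ | ‖Q' w‖ / 2 < ‖Q' ζ‖}, mem_nhdsWithin_of_mem_nhds h1, 0, ‖Q' w‖ / 2,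
          by positivity, fun F _ ζ hζ hQζ => ?_⟩
        exact absurd hQζ (not_le.2 hζ)
  obtain ⟨R, ε, hε, H⟩ := hind _ (isCompact_closedBall (0 : ℂ) K)
  exact ⟨R, ε, hε, fun F hF ζ hζ => H F hF ζ (mem_closedBall_zero_iff.2 hζ)⟩

/-- robustness in a compact family -/
theorem trap_family {X : Type*} [TopologicalSpace X] {Q Q' : X → ℂ → ℂ}
    (hQ : ∀ x, Differentiable ℂ (Q x)) (hQc : Continuous fun y : X × ℂ => Q y.1 y.2)
    (hQ' : Continuous fun y : X × ℂ => Q' y.1 y.2) {S : Set X} (hS : IsCompact S)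
    (h : ∀ x ∈ S, ∀ w, Q' x w = 0 → Attr (Q x) w) (K : ℝ) :
    ∃ (R ε : ℝ), 0 < ε ∧ ∀ x ∈ S, ∀ F : ℂ → ℂ, (∀ z : ℂ, ‖z‖ < R → ‖F z - Q x z‖ ≤ ε) →
      ∀ ζ : ℂ, ‖ζ‖ ≤ K → ‖Q' x ζ‖ ≤ ε → Trap F R ζ := by
  refine hS.induction_on (p := fun S => ∃ (R ε : ℝ), 0 < ε ∧ ∀ x ∈ S, ∀ F : ℂ → ℂ,
    (∀ z : ℂ, ‖z‖ < R → ‖F z - Q x z‖ ≤ ε) → ∀ ζ : ℂ, ‖ζ‖ ≤ K → ‖Q' x ζ‖ ≤ ε → Trap F R ζ)
    ?_ ?_ ?_ ?_
  · exact ⟨0, 1, one_pos, fun x hx => absurd hx (notMem_empty x)⟩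
  · rintro s t hst ⟨R, ε, hε, H⟩
    exact ⟨R, ε, hε, fun x hx => H x (hst hx)⟩
  · rintro s t ⟨R₁, ε₁, hε₁, H₁⟩ ⟨R₂, ε₂, hε₂, H₂⟩
    refine ⟨max R₁ R₂, min ε₁ ε₂, by positivity, fun x hx F hF ζ hζ hQζ => ?_⟩
    rcases hx with hx | hx
    · exact (H₁ x hx F (fun z hz => (hF z (hz.trans_le (le_max_left _ _))).trans (min_le_left _ _))
        ζ hζ (hQζ.trans (min_le_left _ _))).mono (le_max_left _ _)
    · exact (H₂ x hx F (fun z hz => (hF z (hz.trans_le (le_max_right _ _))).trans (min_le_right _ _))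
        ζ hζ (hQζ.trans (min_le_right _ _))).mono (le_max_right _ _)
  · intro x₀ hx₀
    have hQ'x : Continuous (Q' x₀) := hQ'.comp (continuous_const.prodMk continuous_id)
    obtain ⟨R, ε, hε, H⟩ := trap_disc (hQ x₀) hQ'x (h x₀ hx₀) K
    have key : ∀ (G : X → ℂ → ℂ), Continuous (fun y : X × ℂ => G y.1 y.2) → ∀ T : ℝ,
        ∀ᶠ x in 𝓝 x₀, ∀ z ∈ closedBall (0 : ℂ) T, ‖G x z - G x₀ z‖ < ε / 2 := by
      intro G hG T
      refine (isCompact_closedBall (0 : ℂ) T).eventually_forall_of_forall_eventually ?_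
      intro z _
      have hc : Continuous fun y : X × ℂ => ‖G y.1 y.2 - G x₀ y.2‖ := by
        have h1 : Continuous fun y : X × ℂ => G x₀ y.2 :=
          hG.comp (continuous_const.prodMk continuous_snd)
        exact (hG.sub h1).norm
      have h0 := hc.tendsto (x₀, z)
      simp only [sub_self, norm_zero] at h0
      exact h0.eventually_lt_const (by positivity)
    have h1 := (key Q hQc R).and (key Q' hQ' K)
    refine ⟨{x | (∀ z ∈ closedBall (0 : ℂ) R, ‖Q x z - Q x₀ z‖ < ε / 2) ∧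
      ∀ z ∈ closedBall (0 : ℂ) K, ‖Q' x z - Q' x₀ z‖ < ε / 2}, mem_nhdsWithin_of_mem_nhds h1, R,
      ε / 2, by positivity, fun x hx F hF ζ hζ hQζ => ?_⟩
    obtain ⟨hx1, hx2⟩ := hx
    apply H F _ ζ hζ
    · have h2 := hx2 ζ (mem_closedBall_zero_iff.2 hζ)
      have h3 := norm_le_norm_add_norm_sub (Q' x ζ) (Q' x₀ ζ)
      linarith
    · intro z hz
      have h2 := hx1 z (mem_closedBall_zero_iff.2 hz.le)
      calc ‖F z - Q x₀ z‖ = ‖(F z - Q x z) + (Q x z - Q x₀ z)‖ := by congr 1; ring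
        _ ≤ ε / 2 + ε / 2 := (norm_add_le _ _).trans (add_le_add (hF z hz) h2.le)
        _ = ε := by ring

end Pool.Agent.N772.FU
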