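import Pool.Agent.N772.FU.Map

/-!
# The renormalised maps of the rational perturbations
-/

set_option autoImplicit false

open Set Filter Metric MeasureTheory Topology

namespace Pool.Agent.N772.FU

open Pool.Agent.TH279.MD Pool.Agent.Y298.SH Pool.Agent.Y298.SH.CD Pool.Agent.Y298.CA
open Pool.Agent.N253.MS Pool.Agent.N772.TC
open Pool.Agent.H712R2 (P P_succ)

/-- the perturbed orbit -/
theorem orbit {d N : ℕ} (hd : 2 ≤ d) {c : ℂ} {M : ℝ} (hO : Orb N (aa d c) M)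
    (hb : ∀ j, ‖zz d c j‖ ≤ 2) (hz : zz d c N = 0) {p s : ℕ → ℂ} {σ : ℝ}
    (hp : ∀ i, ‖p i‖ ≤ σ) (hs : ∀ i, ‖s i‖ ≤ σ) (hσ : 20 * Kc d ^ 2 * M ^ 10 * σ ≤ 1) :
    ∃ (b : ℂ) (X : ℕ → ℂ), ‖b‖ ≤ 2 * Kc d * M ^ 3 * σ ∧ X 0 = c + b ∧ X N = 0 ∧
      (∀ j < N, X (j + 1) = Gs d p s (X j) + (c + b)) ∧
      ∀ j, ‖X j - zz d c j‖ ≤ 4 * Kc d * M ^ 5 * σ := by
  have hσ0 : 0 ≤ σ := (norm_nonneg _).trans (hp 0)
  have hK := Kc_ge hd
  obtain ⟨K, hKK⟩ : ∃ K, K = Kc d := ⟨_, rfl⟩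
  rw [← hKK] at hK hσ ⊢
  have hM1 := hO.hM
  have hM0 : 0 < M := by linarith
  have hK0 : 0 < K := by linarith
  have hM5 : 1 ≤ M ^ 5 := one_le_pow₀ hM1
  have hMM : M ^ 10 = M ^ 5 * M ^ 5 := by ring
  obtain ⟨ρ, hρ⟩ : ∃ ρ, ρ = 4 * K * M ^ 5 * σ := ⟨_, rfl⟩
  have hρ0 : 0 ≤ ρ := by rw [hρ]; positivity
  -- the main condition
  have hσρ : σ ≤ K * M ^ 5 * σ := by
    have : 1 ≤ K * M ^ 5 := one_le_mul_of_one_le_of_one_le hK hM5
    exact le_mul_of_one_le_left hσ0 this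
  have hmain : 4 * M ^ 5 * (K * (ρ + σ)) ≤ 1 := by
    calc 4 * M ^ 5 * (K * (ρ + σ)) ≤ 4 * M ^ 5 * (K * (4 * K * M ^ 5 * σ + K * M ^ 5 * σ)) := by
          rw [hρ]
          gcongr
      _ = 20 * K ^ 2 * M ^ 10 * σ := by rw [hMM]; ring
      _ ≤ 1 := hσ
  have hρ1 : ρ ≤ 1 := by
    have h1 : ρ ≤ 4 * M ^ 5 * (K * (ρ + σ)) := by
      have h2 : 1 ≤ 4 * M ^ 5 * K := by nlinarith
      calc ρ ≤ ρ + σ := by linarith
        _ ≤ (4 * M ^ 5 * K) * (ρ + σ) := le_mul_of_one_le_left (by positivity) h2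
        _ = _ := by ring
    linarith
  have hKσ : Kc d * σ ≤ 1 / 2 := by
    rw [← hKK]
    have h1 : K * σ ≤ K * (ρ + σ) := by
      gcongr
      linarith
    have h2 : 4 * (K * (ρ + σ)) ≤ 4 * M ^ 5 * (K * (ρ + σ)) := by
      gcongr
      linarith
    have h3 : 0 ≤ K * σ := by positivity
    linarith
  obtain ⟨α, hα⟩ : ∃ α, α = K * σ + K * (ρ + σ) * ρ := ⟨_, rfl⟩
  have hα0 : 0 ≤ α := by rw [hα]; positivity
  have hαb : α * (4 * M ^ 5) ≤ 4 * M ^ 5 * (K * σ) + ρ := by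
    rw [hα]
    have : 4 * M ^ 5 * (K * (ρ + σ)) * ρ ≤ 1 * ρ := by gcongr
    linarith
  have hρK : 4 * M ^ 5 * (K * σ) = ρ := by rw [hρ]; ring
  have hα1 : 2 * M ^ 5 * α ≤ ρ := by linarith
  have hα2 : α ≤ 2 * K * σ := by
    have h1 : α * (4 * M ^ 5) ≤ (2 * K * σ) * (4 * M ^ 5) := by
      calc _ ≤ 4 * M ^ 5 * (K * σ) + ρ := hαb
        _ = (2 * K * σ) * (4 * M ^ 5) := by rw [← hρK]; ring
    exact le_of_mul_le_mul_right h1 (by positivity)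
  obtain ⟨x, b, hx0, hxN, hxρ, hxs, hbb⟩ := shadow hO (R := fun j u => Rr d p s (zz d c j) u)
    (α := α) (L := K * (ρ + σ)) hρ0 hα0 (by positivity) (by
      intro i _ u hu
      have h1 := Rr_lip hd hp hs hKσ (hb i) (show ρ ≤ 2 by linarith) hu
        (show ‖(0 : ℂ)‖ ≤ ρ by simpa using hρ0)
      have h2 := Rr_zero hd hp hs hKσ (hb i)
      rw [sub_zero, ← hKK] at h1
      rw [← hKK] at h2
      have h3 := norm_le_norm_add_norm_sub' (Rr d p s (zz d c i) u) (Rr d p s (zz d c i) 0)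
      have h4 : K * (ρ + σ) * ‖u‖ ≤ K * (ρ + σ) * ρ := by gcongr
      rw [hα]
      linarith) (by
      intro i _ u v hu hv
      have h1 := Rr_lip hd hp hs hKσ (hb i) (show ρ ≤ 2 by linarith) hu hv
      rwa [← hKK] at h1) hα1 hmain
  refine ⟨b, fun j => zz d c j + x j, ?_, ?_, ?_, ?_, ?_⟩
  · refine hbb.trans ?_
    calc M ^ 3 * α ≤ M ^ 3 * (2 * K * σ) := by gcongr
      _ = _ := by ring
  · show zz d c 0 + x 0 = c + b
    rw [hx0, zz_zero]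
  · show zz d c N + x N = 0
    rw [hxN, hz, add_zero]
  · intro j hj
    show zz d c (j + 1) + x (j + 1) = Gs d p s (zz d c j + x j) + (c + b)
    rw [hxs j hj, zz_succ]
    unfold Rr aa
    ring
  · intro j
    show ‖zz d c j + x j - zz d c j‖ ≤ _
    rw [add_sub_cancel_left, ← hρ]
    exact hxρ j

/-- **The renormalised maps.** -/
theorem ren {d N : ℕ} (hd : 2 ≤ d) {c : ℂ} {M : ℝ} (hO : Orb N (aa d c) M)
    (hb : ∀ j, ‖zz d c j‖ ≤ 2) {p s q : ℕ → ℂ} {σ : ℝ}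
    (hp : ∀ i, ‖p i‖ ≤ σ) (hs : ∀ i, ‖s i‖ ≤ σ) (hσ : 20 * Kc d ^ 2 * M ^ 10 * σ ≤ 1)
    {b : ℂ} {X : ℕ → ℂ} (hX0 : X 0 = c + b) (hXN : X N = 0)
    (hX : ∀ j < N, X (j + 1) = Gs d p s (X j) + (c + b))
    (hXc : ∀ j, ‖X j - zz d c j‖ ≤ 4 * Kc d * M ^ 5 * σ)
    {m l : ℂ} (hm : m ^ (d - 1) * Dp (aa d c) N = 1)
    (hl : l * (Dp (aa d c) N * ∑ i ∈ Finset.range (N + 1), (Dp (aa d c) i)⁻¹) = m)
    (hpq : ∀ i ∈ Finset.Ico 1 d, p i = q i * m ^ (d - i))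
    {Z H : ℝ} {z t : ℂ} (ht : ‖t‖ ≤ Z) (hmz : ‖m * z‖ ≤ 1)
    (hH1 : ‖Us d q z‖ ≤ H / 4) (hH2 : M ^ 3 * Z ≤ H / 2)
    (h1 : 2 * M * ‖m‖ * H ≤ 1)
    (h2 : M ^ 2 * (10 * Kc d ^ 2 * M ^ 5 * σ + 4 * Kc d * M * ‖m‖ * H) ≤ 1) :
    (∀ j ≤ N + 1, ‖(fun y => Gs d p s y + (c + (b + l * t)))^[j] (m * z)‖ ≤ 4) ∧
    (∀ j ≤ N, ‖(fun y => Gs d p s y + (c + (b + l * t)))^[j + 1] (m * z) - zz d c j‖ ≤
      2 * M * ‖m‖ * H + 4 * Kc d * M ^ 5 * σ) ∧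
    ‖(fun y => Gs d p s y + (c + (b + l * t)))^[N + 1] (m * z) - m * (Us d q z + t)‖ ≤
      ‖m‖ * H * (M ^ 2 * (10 * Kc d ^ 2 * M ^ 5 * σ + 4 * Kc d * M * ‖m‖ * H) + d * σ) := by
  have hσ0 : 0 ≤ σ := (norm_nonneg _).trans (hp 0)
  have hK := Kc_ge hd
  obtain ⟨K, hKK⟩ : ∃ K, K = Kc d := ⟨_, rfl⟩
  rw [← hKK] at hK hσ hXc h2 ⊢
  have hM1 := hO.hM
  have hM0 : 0 < M := by linarith
  have hK0 : 0 < K := by linarith
  have hM5 : 1 ≤ M ^ 5 := one_le_pow₀ hM1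
  obtain ⟨ρ, hρ⟩ : ∃ ρ, ρ = 4 * K * M ^ 5 * σ := ⟨_, rfl⟩
  rw [← hρ] at hXc
  have hρ0 : 0 ≤ ρ := by rw [hρ]; positivity
  have hσρ : σ ≤ K * M ^ 5 * σ := by
    have : 1 ≤ K * M ^ 5 := one_le_mul_of_one_le_of_one_le hK hM5
    exact le_mul_of_one_le_left hσ0 this
  have hmain : 4 * M ^ 5 * (K * (ρ + σ)) ≤ 1 := by
    calc 4 * M ^ 5 * (K * (ρ + σ)) ≤ 4 * M ^ 5 * (K * (4 * K * M ^ 5 * σ + K * M ^ 5 * σ)) := by
          rw [hρ]
          gcongr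
      _ = 20 * K ^ 2 * M ^ 10 * σ := by ring
      _ ≤ 1 := hσ
  have hKρ : K * (ρ + σ) ≤ 1 / 4 := by
    have h2 : 4 * (K * (ρ + σ)) ≤ 4 * M ^ 5 * (K * (ρ + σ)) := by
      gcongr
      linarith
    linarith
  have hρ1 : ρ ≤ 1 / 4 := by
    have h1 : ρ + σ ≤ K * (ρ + σ) := le_mul_of_one_le_left (by positivity) hK
    linarith
  have hKσ : Kc d * σ ≤ 1 / 2 := by
    rw [← hKK]
    have h1 : K * σ ≤ K * (ρ + σ) := by
      gcongr
      linarith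
    linarith
  obtain ⟨D, hD⟩ : ∃ D, D = Dp (aa d c) N := ⟨_, rfl⟩
  obtain ⟨T, hT⟩ : ∃ T, T = ∑ i ∈ Finset.range (N + 1), (Dp (aa d c) i)⁻¹ := ⟨_, rfl⟩
  have hDne : D ≠ 0 := by rw [hD]; exact hO.ne N le_rfl
  have hD0 : 0 < ‖D‖ := norm_pos_iff.2 hDne
  rw [← hD] at hm
  rw [← hD, ← hT] at hl
  have hT1 : 1 ≤ M * ‖T‖ := by rw [hT]; exact hO.hT
  have hmne : m ≠ 0 := by
    rintro rfl
    rw [zero_pow (by omega), zero_mul] at hm
    exact zero_ne_one hm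
  have hm0 : 0 < ‖m‖ := norm_pos_iff.2 hmne
  have hH0 : 0 ≤ H := by
    have := norm_nonneg (Us d q z)
    linarith
  have hZ0 : 0 ≤ Z := (norm_nonneg _).trans ht
  -- the first step
  have hV := (Gs_near hd hp hs hKσ (show ‖m * z‖ ≤ 5 by linarith)).2
  obtain ⟨hV2, hVne⟩ := half_of_near hV
  have hUm : Us d p (m * z) = m ^ d * Us d q z := by
    unfold Us
    rw [mul_add, mul_pow, Finset.mul_sum]
    congr 1
    refine Finset.sum_congr rfl fun i hi => ?_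
    rw [hpq i hi, mul_pow]
    rw [Finset.mem_Ico] at hi
    have : m ^ d = m ^ (d - i) * m ^ i := by rw [← pow_add]; congr 1; omega
    rw [this]
    ring
  obtain ⟨W, hW⟩ : ∃ W, W = Us d q z / Vs d s (m * z) := ⟨_, rfl⟩
  have hGW : Gs d p s (m * z) = m ^ d * W := by
    unfold Gs
    rw [hUm, hW, mul_div_assoc]
  have hWH : ‖W‖ ≤ H / 2 := by
    rw [hW, norm_div, div_le_iff₀ (by linarith)]
    have : H / 2 * (1 / 2) ≤ H / 2 * ‖Vs d s (m * z)‖ := by gcongr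
    linarith
  obtain ⟨y, hy⟩ : ∃ y, y = m ^ d * W := ⟨_, rfl⟩
  obtain ⟨u, hu⟩ : ∃ u, u = l * t := ⟨_, rfl⟩
  have hDy : D * y = m * W := by
    have h3 : m ^ d = m ^ (d - 1) * m := by rw [← pow_succ, Nat.sub_add_cancel (by omega)]
    rw [hy, h3]
    calc D * (m ^ (d - 1) * m * W) = (m ^ (d - 1) * D) * (m * W) := by ring
      _ = _ := by rw [hm, one_mul]
  have hDu : D * (u * T) = m * t := by
    rw [hu, ← hl]
    ring
  obtain ⟨Y, hY⟩ : ∃ Y, Y = ‖m‖ * H / ‖D‖ := ⟨_, rfl⟩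
  have hDY : ‖D‖ * Y = ‖m‖ * H := by rw [hY]; field_simp
  have hyY : ‖y‖ ≤ ‖m‖ * (H / 2) / ‖D‖ := by
    rw [le_div_iff₀ hD0, mul_comm, ← norm_mul, hDy, norm_mul]
    gcongr
  have huY : ‖u‖ ≤ M * (‖m‖ * Z) / ‖D‖ := by
    rw [le_div_iff₀ hD0]
    have h3 : ‖u‖ * ‖D‖ * ‖T‖ = ‖m‖ * ‖t‖ := by
      rw [← norm_mul, ← norm_mul, ← norm_mul, ← hDu]
      congr 1
      ring
    calc ‖u‖ * ‖D‖ ≤ ‖u‖ * ‖D‖ * (M * ‖T‖) := le_mul_of_one_le_right (by positivity) hT1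
      _ = M * (‖m‖ * ‖t‖) := by rw [← h3]; ring
      _ ≤ _ := by gcongr
  have hYY : ‖y‖ + M ^ 2 * ‖u‖ ≤ Y := by
    have h3 : M ^ 2 * ‖u‖ ≤ ‖m‖ * (H / 2) / ‖D‖ := by
      calc M ^ 2 * ‖u‖ ≤ M ^ 2 * (M * (‖m‖ * Z) / ‖D‖) := by gcongr
        _ = ‖m‖ * (M ^ 3 * Z) / ‖D‖ := by ring
        _ ≤ _ := by gcongr
    have h4 : Y = ‖m‖ * (H / 2) / ‖D‖ + ‖m‖ * (H / 2) / ‖D‖ := by rw [hY]; ring
    linarith
  obtain ⟨G, hG⟩ : ∃ G : ℂ → ℂ, G = fun y => Gs d p s y + (c + b) := ⟨_, rfl⟩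
  have hfun : (fun y => Gs d p s y + (c + (b + l * t))) = fun y => G y + u := by
    funext y
    rw [hG, hu]
    ring
  obtain ⟨E, hE⟩ : ∃ E, E = 2 * (K * (ρ + σ)) + 4 * K * M * ‖D‖ * Y := ⟨_, rfl⟩
  have hEb : E ≤ 10 * K ^ 2 * M ^ 5 * σ + 4 * K * M * ‖m‖ * H := by
    rw [hE]
    have e1 : 2 * (K * (ρ + σ)) ≤ 10 * K ^ 2 * M ^ 5 * σ := by
      calc 2 * (K * (ρ + σ)) ≤ 2 * (K * (4 * K * M ^ 5 * σ + K * M ^ 5 * σ)) := by
            rw [hρ]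
            gcongr
        _ = _ := by ring
    have e2 : 4 * K * M * ‖D‖ * Y = 4 * K * M * ‖m‖ * H := by
      calc 4 * K * M * ‖D‖ * Y = 4 * K * M * (‖D‖ * Y) := by ring
        _ = _ := by rw [hDY]; ring
    linarith
  have hE0 : 0 ≤ E := by
    rw [hE]
    have : 0 ≤ Y := le_trans (by positivity) hYY
    positivity
  have haff := affine hO (G := G) (X := X) (fun j hj => by rw [hG]; exact hX j hj)
    (β := K * (ρ + σ)) (K := K) (by positivity) hK0.le (by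
      intro j _ w hw
      have e1 : ‖(X j - zz d c j) + w‖ ≤ ρ + ‖w‖ := (norm_add_le _ _).trans (by
        have := hXc j
        linarith)
      have e2 : ‖X j - zz d c j‖ ≤ ρ + ‖w‖ := (hXc j).trans (by
        have := norm_nonneg w
        linarith)
      have e3 := Rr_lip hd hp hs hKσ (hb j) (show ρ + ‖w‖ ≤ 2 by linarith) e1 e2
      rw [← hKK, add_sub_cancel_left] at e3
      have e4 : Rr d p s (zz d c j) (X j - zz d c j + w) - Rr d p s (zz d c j) (X j - zz d c j) =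
          G (X j + w) - G (X j) - aa d c j * w := by
        rw [hG]
        unfold Rr aa
        have f1 : zz d c j + (X j - zz d c j + w) = X j + w := by ring
        have f2 : zz d c j + (X j - zz d c j) = X j := by ring
        rw [f1, f2]
        ring
      rw [e4] at e3
      refine e3.trans (le_of_eq ?_)
      ring) (u := u) (y := y) (Y := Y) hYY (by
      rw [← hD]
      calc 2 * M * ‖D‖ * Y = 2 * M * (‖D‖ * Y) := by ring
        _ = 2 * M * ‖m‖ * H := by rw [hDY]; ring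
        _ ≤ 1 := h1) (by
      rw [← hD, ← hE]
      refine le_trans ?_ h2
      gcongr)
  rw [← hD, ← hE] at haff
  have hstart : (fun y => G y + u) (m * z) = X 0 + u + y := by
    rw [hG]
    simp only
    rw [hGW, hX0, hy]
    ring
  have hstep : ∀ j : ℕ, (fun y => G y + u)^[j + 1] (m * z) = (fun y => G y + u)^[j] (X 0 + u + y) := by
    intro j
    rw [Function.iterate_succ_apply]
    exact congrArg _ hstart
  rw [hfun]
  refine ⟨?_, ?_, ?_⟩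
  · intro j hj
    rcases Nat.eq_zero_or_pos j with h0 | h0
    · rw [h0, Function.iterate_zero, id_eq]
      linarith
    obtain ⟨i, rfl⟩ : ∃ i, j = i + 1 := ⟨j - 1, by omega⟩
    rw [hstep]
    have e1 := (haff i (by omega)).2.1
    have e2 := norm_le_norm_add_norm_sub' ((fun y => G y + u)^[i] (X 0 + u + y)) (X i)
    have e3 := norm_le_norm_add_norm_sub' (X i) (zz d c i)
    have e4 := hXc i
    have e5 := hb i
    linarith
  · intro j hj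
    rw [hstep, ← hρ]
    have e1 := (haff j hj).2.2
    have e2 : 2 * M * ‖D‖ * Y = 2 * M * ‖m‖ * H := by
      calc 2 * M * ‖D‖ * Y = 2 * M * (‖D‖ * Y) := by ring
        _ = _ := by rw [hDY]; ring
    rw [e2] at e1
    calc _ = ‖((fun y => G y + u)^[j] (X 0 + u + y) - X j) + (X j - zz d c j)‖ := by
          congr 1; ring
      _ ≤ _ := (norm_add_le _ _).trans (add_le_add e1 (hXc j))
  · rw [hstep]
    obtain ⟨e1, -⟩ := haff N le_rfl
    rw [hXN, sub_zero, ← hT, ← hD, mul_add, hDy, hDu, hDY] at e1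
    have hN2 : M * N * E ≤ M ^ 2 * E := by
      have : (N : ℝ) ≤ M := by linarith [hO.hN]
      calc M * N * E ≤ M * M * E := by gcongr
        _ = _ := by ring
    have hVd : ‖Vs d s (m * z) - 1‖ ≤ d * σ := by
      have := Vs_near (d := d) hs le_rfl hmz
      rwa [one_pow, mul_one] at this
    have hWU : ‖W - Us d q z‖ ≤ H * (d * σ) := by
      have e3 : W - Us d q z = -(W * (Vs d s (m * z) - 1)) := by
        rw [hW]
        field_simp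
        ring
      rw [e3, norm_neg, norm_mul]
      calc ‖W‖ * ‖Vs d s (m * z) - 1‖ ≤ H / 2 * (d * σ) := by gcongr
        _ ≤ H * (d * σ) := by
            have : 0 ≤ H * (d * σ) := by positivity
            linarith
    have e4 : (fun y => G y + u)^[N] (X 0 + u + y) - m * (Us d q z + t) =
        ((fun y => G y + u)^[N] (X 0 + u + y) - (m * W + m * t)) + m * (W - Us d q z) := by ring
    rw [e4]
    refine (norm_add_le _ _).trans ?_
    rw [norm_mul]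
    calc _ ≤ ‖m‖ * H * (M * N * E) + ‖m‖ * (H * (d * σ)) := by
          gcongr
      _ ≤ ‖m‖ * H * (M ^ 2 * (10 * K ^ 2 * M ^ 5 * σ + 4 * K * M * ‖m‖ * H)) +
          ‖m‖ * (H * (d * σ)) := by
          have e5 : M * N * E ≤ M ^ 2 * (10 * K ^ 2 * M ^ 5 * σ + 4 * K * M * ‖m‖ * H) :=
            hN2.trans (by gcongr)
          have e6 := mul_le_mul_of_nonneg_left e5 (show 0 ≤ ‖m‖ * H by positivity)
          linarith
      _ = _ := by ring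

end Pool.Agent.N772.FU
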