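import Mathlib

/-!
# Shadowing and the affine part of the iterates of a perturbed map
-/

set_option autoImplicit false

open Set Filter Metric Topology Finset

namespace Pool.Agent.N772.FU

/-- products -/
noncomputable def Dp (a : ℕ → ℂ) (j : ℕ) : ℂ := ∏ i ∈ Finset.range j, a i

theorem Dp_zero (a : ℕ → ℂ) : Dp a 0 = 1 := by simp [Dp]

theorem Dp_succ (a : ℕ → ℂ) (j : ℕ) : Dp a (j + 1) = Dp a j * a j := Finset.prod_range_succ _ _

/-- The bounds of the products along an orbit. -/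
structure Orb (N : ℕ) (a : ℕ → ℂ) (M : ℝ) : Prop where
  hM : 1 ≤ M
  hN : (N : ℝ) + 1 ≤ M
  ne : ∀ j ≤ N, Dp a j ≠ 0
  hD : ∀ j i, j ≤ i → i ≤ N → ‖Dp a j‖ ≤ M * ‖Dp a i‖
  hT : 1 ≤ M * ‖∑ i ∈ range (N + 1), (Dp a i)⁻¹‖

variable {N : ℕ} {a : ℕ → ℂ} {M : ℝ}

theorem Orb.inv_le (h : Orb N a M) {i : ℕ} (hi : i ≤ N) : ‖(Dp a i)⁻¹‖ ≤ M := by
  have h1 := h.hD 0 i (Nat.zero_le _) hi
  rw [Dp_zero, norm_one] at h1
  have h2 : 0 < ‖Dp a i‖ := norm_pos_iff.2 (h.ne i hi)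
  rw [norm_inv]
  exact (inv_le_iff_one_le_mul₀ h2).2 h1

theorem Orb.ratio (h : Orb N a M) {j i : ℕ} (hji : j ≤ i) (hi : i ≤ N) :
    ‖Dp a j * (Dp a i)⁻¹‖ ≤ M := by
  have h1 := h.hD j i hji hi
  have h2 : 0 < ‖Dp a i‖ := norm_pos_iff.2 (h.ne i hi)
  rw [norm_mul, norm_inv, ← div_eq_mul_inv, div_le_iff₀ h2]
  exact h1

/-- the coordinates -/
noncomputable def cf {N : ℕ} (v : Fin (N + 1) → ℂ) (i : ℕ) : ℂ :=
  if h : i < N + 1 then v ⟨i, h⟩ else 0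

theorem cf_norm {N : ℕ} (v : Fin (N + 1) → ℂ) (i : ℕ) : ‖cf v i‖ ≤ ‖v‖ := by
  unfold cf
  split_ifs with h
  · exact norm_le_pi_norm v _
  · simp

theorem cf_sub {N : ℕ} (v w : Fin (N + 1) → ℂ) (i : ℕ) : ‖cf v i - cf w i‖ ≤ ‖v - w‖ := by
  unfold cf
  split_ifs with h
  · exact norm_le_pi_norm (v - w) ⟨i, h⟩
  · simp

theorem cf_coe {N : ℕ} (v : Fin (N + 1) → ℂ) (j : Fin (N + 1)) : cf v j = v j := by
  unfold cf
  rw [dif_pos j.2]

/-- the parameter -/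
noncomputable def bb (N : ℕ) (a : ℕ → ℂ) (R : ℕ → ℂ → ℂ) (x : ℕ → ℂ) : ℂ :=
  -(∑ i ∈ range N, R i (x i) * (Dp a (i + 1))⁻¹) * (∑ i ∈ range (N + 1), (Dp a i)⁻¹)⁻¹

/-- the next approximation -/
noncomputable def nx (N : ℕ) (a : ℕ → ℂ) (R : ℕ → ℂ → ℂ) (x : ℕ → ℂ) (j : ℕ) : ℂ :=
  -∑ i ∈ Finset.Ico j N, (bb N a R x + R i (x i)) * (Dp a j * (Dp a (i + 1))⁻¹)

/-- the map on the vectors -/
noncomputable def Ph (N : ℕ) (a : ℕ → ℂ) (R : ℕ → ℂ → ℂ) (v : Fin (N + 1) → ℂ) :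
    Fin (N + 1) → ℂ := fun j => nx N a R (cf v) (j : ℕ)

theorem sum_bd {s : Finset ℕ} {g : ℕ → ℂ} {K : ℝ} {n : ℕ} (hs : s.card ≤ n) (hK : 0 ≤ K)
    (h : ∀ i ∈ s, ‖g i‖ ≤ K) : ‖∑ i ∈ s, g i‖ ≤ n * K := by
  refine (norm_sum_le_of_le _ h).trans ?_
  rw [sum_const, nsmul_eq_mul]
  gcongr

theorem shadow (h : Orb N a M) {R : ℕ → ℂ → ℂ} {α L ρ : ℝ} (hρ : 0 ≤ ρ) (hα : 0 ≤ α)
    (hL0 : 0 ≤ L) (hR : ∀ i < N, ∀ x : ℂ, ‖x‖ ≤ ρ → ‖R i x‖ ≤ α)
    (hL : ∀ i < N, ∀ x y : ℂ, ‖x‖ ≤ ρ → ‖y‖ ≤ ρ → ‖R i x - R i y‖ ≤ L * ‖x - y‖)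
    (h1 : 2 * M ^ 5 * α ≤ ρ) (h2 : 4 * M ^ 5 * L ≤ 1) :
    ∃ (x : ℕ → ℂ) (b : ℂ), x 0 = b ∧ x N = 0 ∧ (∀ j, ‖x j‖ ≤ ρ) ∧
      (∀ j < N, x (j + 1) = a j * x j + b + R j (x j)) ∧ ‖b‖ ≤ M ^ 3 * α := by
  have hM0 : 0 < M := by linarith [h.hM]
  have hM1 := h.hM
  have hNM : (N : ℝ) ≤ M := by linarith [h.hN]
  obtain ⟨T, hT⟩ : ∃ T, T = ∑ i ∈ range (N + 1), (Dp a i)⁻¹ := ⟨_, rfl⟩
  have hT1 : 1 ≤ M * ‖T‖ := by rw [hT]; exact h.hT
  have hT0 : 0 < ‖T‖ := by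
    by_contra hcon
    have : ‖T‖ = 0 := le_antisymm (not_lt.1 hcon) (norm_nonneg _)
    rw [this] at hT1
    linarith
  have hTne : T ≠ 0 := norm_pos_iff.1 hT0
  have hTinv : ‖T⁻¹‖ ≤ M := by
    rw [norm_inv]
    exact (inv_le_iff_one_le_mul₀ hT0).2 hT1
  have hbb : ∀ x : ℕ → ℂ, (∀ i, ‖x i‖ ≤ ρ) → ‖bb N a R x‖ ≤ M ^ 3 * α := by
    intro x hx
    unfold bb
    rw [← hT, neg_mul, norm_neg, norm_mul]
    have e1 : ‖∑ i ∈ range N, R i (x i) * (Dp a (i + 1))⁻¹‖ ≤ N * (α * M) := by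
      apply sum_bd (by simp) (by positivity)
      intro i hi
      rw [Finset.mem_range] at hi
      rw [norm_mul]
      gcongr
      · exact hR i hi _ (hx i)
      · exact h.inv_le (by omega)
    calc _ ≤ N * (α * M) * M := by gcongr
      _ ≤ M * (α * M) * M := by gcongr
      _ = M ^ 3 * α := by ring
  have hbl : ∀ (x y : ℕ → ℂ) (t : ℝ), (∀ i, ‖x i‖ ≤ ρ) → (∀ i, ‖y i‖ ≤ ρ) →
      (∀ i, ‖x i - y i‖ ≤ t) → ‖bb N a R x - bb N a R y‖ ≤ M ^ 3 * (L * t) := by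
    intro x y t hx hy hxy
    have ht : 0 ≤ t := (norm_nonneg _).trans (hxy 0)
    have e0 : bb N a R x - bb N a R y =
        -(∑ i ∈ range N, (R i (x i) - R i (y i)) * (Dp a (i + 1))⁻¹) * T⁻¹ := by
      unfold bb
      rw [← hT]
      simp only [sub_mul, Finset.sum_sub_distrib]
      ring
    rw [e0, neg_mul, norm_neg, norm_mul]
    have e1 : ‖∑ i ∈ range N, (R i (x i) - R i (y i)) * (Dp a (i + 1))⁻¹‖ ≤ N * (L * t * M) := by
      apply sum_bd (by simp) (by positivity)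
      intro i hi
      rw [Finset.mem_range] at hi
      rw [norm_mul]
      gcongr
      · refine (hL i hi _ _ (hx i) (hy i)).trans ?_
        gcongr
        exact hxy i
      · exact h.inv_le (by omega)
    calc _ ≤ N * (L * t * M) * M := by gcongr
      _ ≤ M * (L * t * M) * M := by gcongr
      _ = M ^ 3 * (L * t) := by ring
  have hnb : ∀ x : ℕ → ℂ, (∀ i, ‖x i‖ ≤ ρ) → ∀ j, ‖nx N a R x j‖ ≤ ρ := by
    intro x hx j
    unfold nx
    rw [norm_neg]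
    have e1 := hbb x hx
    have e2 : ‖∑ i ∈ Finset.Ico j N, (bb N a R x + R i (x i)) * (Dp a j * (Dp a (i + 1))⁻¹)‖ ≤
        N * ((M ^ 3 * α + α) * M) := by
      apply sum_bd (by simp) (by positivity)
      intro i hi
      rw [Finset.mem_Ico] at hi
      rw [norm_mul]
      gcongr
      · exact (norm_add_le _ _).trans (add_le_add e1 (hR i hi.2 _ (hx i)))
      · exact h.ratio (by omega) (by omega)
    have hM3 : 1 ≤ M ^ 3 := one_le_pow₀ hM1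
    have hα' : α ≤ M ^ 3 * α := le_mul_of_one_le_left hα hM3
    calc _ ≤ N * ((M ^ 3 * α + α) * M) := e2
      _ ≤ M * ((M ^ 3 * α + M ^ 3 * α) * M) := by
          apply mul_le_mul hNM _ (by positivity) hM0.le
          exact mul_le_mul_of_nonneg_right (by linarith) hM0.le
      _ = 2 * M ^ 5 * α := by ring
      _ ≤ ρ := h1
  have hnl : ∀ (x y : ℕ → ℂ) (t : ℝ), (∀ i, ‖x i‖ ≤ ρ) → (∀ i, ‖y i‖ ≤ ρ) →
      (∀ i, ‖x i - y i‖ ≤ t) → ∀ j, ‖nx N a R x j - nx N a R y j‖ ≤ 1 / 2 * t := by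
    intro x y t hx hy hxy j
    have ht : 0 ≤ t := (norm_nonneg _).trans (hxy 0)
    have e0 : nx N a R x j - nx N a R y j = -∑ i ∈ Finset.Ico j N,
        ((bb N a R x - bb N a R y) + (R i (x i) - R i (y i))) * (Dp a j * (Dp a (i + 1))⁻¹) := by
      unfold nx
      rw [neg_sub_neg, ← Finset.sum_sub_distrib, ← Finset.sum_neg_distrib]
      refine Finset.sum_congr rfl fun i _ => ?_
      ring
    rw [e0, norm_neg]
    have e1 := hbl x y t hx hy hxy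
    have e2 : ‖∑ i ∈ Finset.Ico j N, ((bb N a R x - bb N a R y) + (R i (x i) - R i (y i))) *
        (Dp a j * (Dp a (i + 1))⁻¹)‖ ≤ N * ((M ^ 3 * (L * t) + L * t) * M) := by
      apply sum_bd (by simp) (by positivity)
      intro i hi
      rw [Finset.mem_Ico] at hi
      rw [norm_mul]
      gcongr
      · refine (norm_add_le _ _).trans (add_le_add e1 ?_)
        refine (hL i hi.2 _ _ (hx i) (hy i)).trans ?_
        gcongr
        exact hxy i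
      · exact h.ratio (by omega) (by omega)
    have hM3 : 1 ≤ M ^ 3 := one_le_pow₀ hM1
    have hLt : 0 ≤ L * t := by positivity
    have hLt' : L * t ≤ M ^ 3 * (L * t) := le_mul_of_one_le_left hLt hM3
    calc _ ≤ N * ((M ^ 3 * (L * t) + L * t) * M) := e2
      _ ≤ M * ((M ^ 3 * (L * t) + M ^ 3 * (L * t)) * M) := by
          apply mul_le_mul hNM _ (by positivity) hM0.le
          exact mul_le_mul_of_nonneg_right (by linarith) hM0.le
      _ = 2 * M ^ 5 * L * t := by ring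
      _ ≤ 1 / 2 * t := by
          gcongr
          linarith
  -- the fixed point
  obtain ⟨Φ, hΦ⟩ : ∃ Φ : (Fin (N + 1) → ℂ) → (Fin (N + 1) → ℂ), Φ = Ph N a R := ⟨_, rfl⟩
  have hmaps : MapsTo Φ (closedBall 0 ρ) (closedBall 0 ρ) := by
    intro v hv
    rw [mem_closedBall_zero_iff] at hv ⊢
    rw [pi_norm_le_iff_of_nonneg hρ, hΦ]
    intro j
    exact hnb _ (fun i => (cf_norm v i).trans hv) _
  have hcomp : IsComplete (closedBall (0 : Fin (N + 1) → ℂ) ρ) := isClosed_closedBall.isComplete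
  have hq : (1 / 2 : ℝ) < 1 := by norm_num
  have hK : ContractingWith (⟨1 / 2, by norm_num⟩ : NNReal) (hmaps.restrict Φ _ _) := by
    refine ⟨by exact_mod_cast hq, ?_⟩
    refine LipschitzWith.of_dist_le_mul ?_
    intro v w
    have hv := mem_closedBall_zero_iff.1 v.2
    have hw := mem_closedBall_zero_iff.1 w.2
    rw [Subtype.dist_eq, Subtype.dist_eq, dist_eq_norm, dist_eq_norm]
    show ‖Φ v.1 - Φ w.1‖ ≤ 1 / 2 * ‖v.1 - w.1‖
    rw [pi_norm_le_iff_of_nonneg (by positivity)]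
    intro j
    rw [Pi.sub_apply, hΦ]
    exact hnl _ _ _ (fun i => (cf_norm v.1 i).trans hv) (fun i => (cf_norm w.1 i).trans hw)
      (fun i => cf_sub v.1 w.1 i) _
  obtain ⟨v, hv, hfix, -, -⟩ := ContractingWith.exists_fixedPoint' hcomp hmaps hK
    (x := 0) (by simp [hρ]) (edist_ne_top _ _)
  rw [mem_closedBall_zero_iff] at hv
  have hfix' : ∀ j ≤ N, cf v j = nx N a R (cf v) j := by
    intro j hj
    have h3 : Φ v = v := hfix
    have h4 := congrFun h3 ⟨j, by omega⟩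
    rw [← cf_coe v ⟨j, by omega⟩, hΦ] at h4
    exact h4.symm
  have hvρ : ∀ i, ‖cf v i‖ ≤ ρ := fun i => (cf_norm v i).trans hv
  refine ⟨cf v, bb N a R (cf v), ?_, ?_, hvρ, ?_, hbb _ hvρ⟩
  · rw [hfix' 0 (Nat.zero_le _)]
    unfold nx
    rw [Dp_zero, Nat.Ico_zero_eq_range]
    have e1 : ∀ i ∈ range N, (bb N a R (cf v) + R i (cf v i)) * (1 * (Dp a (i + 1))⁻¹) =
        bb N a R (cf v) * (Dp a (i + 1))⁻¹ + R i (cf v i) * (Dp a (i + 1))⁻¹ := fun i _ => by ring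
    rw [Finset.sum_congr rfl e1, Finset.sum_add_distrib, ← Finset.mul_sum]
    have e2 : T = (∑ i ∈ range N, (Dp a (i + 1))⁻¹) + 1 := by
      rw [hT, Finset.sum_range_succ', Dp_zero, inv_one]
    have e3 : bb N a R (cf v) * T = -(∑ i ∈ range N, R i (cf v i) * (Dp a (i + 1))⁻¹) := by
      unfold bb
      rw [← hT, mul_assoc, inv_mul_cancel₀ hTne, mul_one]
    rw [e2, mul_add, mul_one] at e3
    linear_combination -e3
  · rw [hfix' N le_rfl]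
    unfold nx
    simp
  · intro j hj
    have hne : Dp a (j + 1) ≠ 0 := h.ne _ (by omega)
    have e1 : a j * nx N a R (cf v) j = nx N a R (cf v) (j + 1) -
        (bb N a R (cf v) + R j (cf v j)) := by
      unfold nx
      rw [Finset.sum_eq_sum_Ico_succ_bot hj, mul_neg, mul_add, Finset.mul_sum]
      have e2 : a j * ((bb N a R (cf v) + R j (cf v j)) * (Dp a j * (Dp a (j + 1))⁻¹)) =
          bb N a R (cf v) + R j (cf v j) := by
        calc _ = (bb N a R (cf v) + R j (cf v j)) * ((Dp a j * a j) * (Dp a (j + 1))⁻¹) := by ring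
          _ = _ := by rw [← Dp_succ, mul_inv_cancel₀ hne, mul_one]
      have e3 : ∀ i ∈ Finset.Ico (j + 1) N, a j * ((bb N a R (cf v) + R i (cf v i)) *
          (Dp a j * (Dp a (i + 1))⁻¹)) = (bb N a R (cf v) + R i (cf v i)) *
          (Dp a (j + 1) * (Dp a (i + 1))⁻¹) := by
        intro i _
        rw [Dp_succ a j]
        ring
      rw [e2, Finset.sum_congr rfl e3]
      ring
    rw [hfix' (j + 1) (by omega)]
    have e4 := hfix' j hj.le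
    calc nx N a R (cf v) (j + 1) = a j * nx N a R (cf v) j + (bb N a R (cf v) + R j (cf v j)) := by
          rw [e1]; ring
      _ = _ := by rw [← e4]; ring

/-- the sums of the inverses of the derivatives -/
theorem Orb.Tj (h : Orb N a M) {j : ℕ} (hj : j ≤ N) :
    ‖∑ i ∈ range (j + 1), (Dp a i)⁻¹‖ ≤ M ^ 2 := by
  have e1 : ‖∑ i ∈ range (j + 1), (Dp a i)⁻¹‖ ≤ (j + 1 : ℕ) * M := by
    apply sum_bd (by simp) (by linarith [h.hM])
    intro i hi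
    rw [Finset.mem_range] at hi
    exact h.inv_le (by omega)
  refine e1.trans ?_
  have h1 : ((j + 1 : ℕ) : ℝ) ≤ M := by
    have : ((j + 1 : ℕ) : ℝ) ≤ (N : ℝ) + 1 := by exact_mod_cast (by omega : j + 1 ≤ N + 1)
    linarith [h.hN]
  calc _ ≤ M * M := by
        have := h.hM
        gcongr
    _ = M ^ 2 := by ring

/-- **The iterates are nearly affine.** -/
theorem affine (h : Orb N a M) {G : ℂ → ℂ} {X : ℕ → ℂ} (hX : ∀ j < N, X (j + 1) = G (X j))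
    {β K : ℝ} (hβ : 0 ≤ β) (hK : 0 ≤ K)
    (hG : ∀ j < N, ∀ y : ℂ, ‖y‖ ≤ 1 → ‖G (X j + y) - G (X j) - a j * y‖ ≤ β * ‖y‖ + K * ‖y‖ ^ 2)
    {u y : ℂ} {Y : ℝ} (hY : ‖y‖ + M ^ 2 * ‖u‖ ≤ Y) (h1 : 2 * M * ‖Dp a N‖ * Y ≤ 1)
    (h2 : M ^ 2 * (2 * β + 4 * K * M * ‖Dp a N‖ * Y) ≤ 1) :
    ∀ j ≤ N, ‖(fun z => G z + u)^[j] (X 0 + u + y) - X j -
      Dp a j * (y + u * ∑ i ∈ range (j + 1), (Dp a i)⁻¹)‖ ≤
      ‖Dp a j‖ * Y * (M * j * (2 * β + 4 * K * M * ‖Dp a N‖ * Y)) ∧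
      ‖(fun z => G z + u)^[j] (X 0 + u + y) - X j‖ ≤ 1 ∧
      ‖(fun z => G z + u)^[j] (X 0 + u + y) - X j‖ ≤ 2 * M * ‖Dp a N‖ * Y := by
  have hM1 := h.hM
  have hM0 : 0 < M := by linarith
  have hY0 : 0 ≤ Y := le_trans (by positivity) hY
  obtain ⟨E, hE⟩ : ∃ E, E = 2 * β + 4 * K * M * ‖Dp a N‖ * Y := ⟨_, rfl⟩
  have hE0 : 0 ≤ E := by rw [hE]; positivity
  rw [← hE] at h2
  have hjE : ∀ j : ℕ, j ≤ N → M * j * E ≤ 1 := by
    intro j hj
    have h3 : (j : ℝ) ≤ M := by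
      have : (j : ℝ) ≤ N := by exact_mod_cast hj
      linarith [h.hN]
    calc M * j * E ≤ M * M * E := by gcongr
      _ = M ^ 2 * E := by ring
      _ ≤ 1 := h2
  have hlin : ∀ j ≤ N, ‖Dp a j * (y + u * ∑ i ∈ range (j + 1), (Dp a i)⁻¹)‖ ≤ ‖Dp a j‖ * Y := by
    intro j hj
    rw [norm_mul]
    gcongr
    refine (norm_add_le _ _).trans (le_trans ?_ hY)
    rw [norm_mul, mul_comm ‖u‖]
    gcongr
    exact h.Tj hj
  rw [← hE]
  intro j
  induction j with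
  | zero =>
    intro hj
    rw [Function.iterate_zero, id_eq, Dp_zero, zero_add, Finset.sum_range_one, Dp_zero]
    have hfin : ‖X 0 + u + y - X 0‖ ≤ 2 * M * ‖Dp a N‖ * Y := by
      have e1 : X 0 + u + y - X 0 = y + u := by ring
      rw [e1]
      have e2 : ‖y + u‖ ≤ Y := by
        refine (norm_add_le _ _).trans (le_trans ?_ hY)
        have : 1 ≤ M ^ 2 := one_le_pow₀ hM1
        have := mul_le_mul_of_nonneg_right this (norm_nonneg u)
        linarith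
      have e3 : 1 ≤ M * ‖Dp a N‖ := by
        have := h.hD 0 N (Nat.zero_le _) le_rfl
        rwa [Dp_zero, norm_one] at this
      have e4 : Y ≤ 2 * M * ‖Dp a N‖ * Y := by
        have := mul_le_mul_of_nonneg_right e3 hY0
        linarith
      linarith
    refine ⟨?_, hfin.trans h1, hfin⟩
    have e1 : X 0 + u + y - X 0 - 1 * (y + u * 1⁻¹) = 0 := by rw [inv_one]; ring
    rw [e1, norm_zero]
    simp
  | succ j ih =>
    intro hj
    obtain ⟨i1, i2, -⟩ := ih (by omega)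
    obtain ⟨z, hz⟩ : ∃ z, z = (fun z => G z + u)^[j] (X 0 + u + y) - X j := ⟨_, rfl⟩
    rw [← hz] at i1 i2
    obtain ⟨S, hS⟩ : ∃ S, S = ∑ i ∈ range (j + 1), (Dp a i)⁻¹ := ⟨_, rfl⟩
    rw [← hS] at i1
    have hzb : ‖z‖ ≤ 2 * ‖Dp a j‖ * Y := by
      have e1 := hlin j (by omega)
      rw [← hS] at e1
      have e2 := norm_le_norm_add_norm_sub' z (Dp a j * (y + u * S))
      have e3 : ‖Dp a j‖ * Y * (M * j * E) ≤ ‖Dp a j‖ * Y * 1 := by
        gcongr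
        exact hjE j (by omega)
      linarith
    have hne : Dp a (j + 1) ≠ 0 := h.ne _ (by omega)
    have e5 : (fun z => G z + u)^[j + 1] (X 0 + u + y) - X (j + 1) =
        (G (X j + z) - G (X j) - a j * z) + a j * z + u := by
      rw [Function.iterate_succ_apply', hX j (by omega)]
      have e6 : X j + z = (fun z => G z + u)^[j] (X 0 + u + y) := by rw [hz]; ring
      rw [e6]
      ring
    have e7 : Dp a (j + 1) * (y + u * ∑ i ∈ range (j + 1 + 1), (Dp a i)⁻¹) =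
        a j * (Dp a j * (y + u * S)) + u := by
      rw [Finset.sum_range_succ, ← hS]
      calc _ = Dp a (j + 1) * (y + u * S) + u * (Dp a (j + 1) * (Dp a (j + 1))⁻¹) := by ring
        _ = _ := by rw [mul_inv_cancel₀ hne, Dp_succ]; ring
    have e8 : (fun z => G z + u)^[j + 1] (X 0 + u + y) - X (j + 1) -
        Dp a (j + 1) * (y + u * ∑ i ∈ range (j + 1 + 1), (Dp a i)⁻¹) =
        (G (X j + z) - G (X j) - a j * z) + a j * (z - Dp a j * (y + u * S)) := by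
      rw [e5, e7]
      ring
    have e9 := hG j (by omega) z i2
    have e10 : β * ‖z‖ + K * ‖z‖ ^ 2 ≤ ‖Dp a (j + 1)‖ * Y * (M * E) := by
      have f1 : ‖Dp a j‖ ≤ M * ‖Dp a (j + 1)‖ := h.hD j (j + 1) (by omega) hj
      have f2 : ‖Dp a j‖ ≤ M * ‖Dp a N‖ := h.hD j N (by omega) le_rfl
      calc β * ‖z‖ + K * ‖z‖ ^ 2 = ‖z‖ * (β + K * ‖z‖) := by ring
        _ ≤ (2 * ‖Dp a j‖ * Y) * (β + K * (2 * ‖Dp a j‖ * Y)) := by gcongr
        _ ≤ (2 * (M * ‖Dp a (j + 1)‖) * Y) * (β + K * (2 * (M * ‖Dp a N‖) * Y)) := by gcongr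
        _ = ‖Dp a (j + 1)‖ * Y * (M * E) := by rw [hE]; ring
    have e11 : ‖a j * (z - Dp a j * (y + u * S))‖ ≤ ‖Dp a (j + 1)‖ * Y * (M * j * E) := by
      rw [norm_mul, Dp_succ, norm_mul]
      calc ‖a j‖ * ‖z - Dp a j * (y + u * S)‖ ≤ ‖a j‖ * (‖Dp a j‖ * Y * (M * j * E)) := by gcongr
        _ = _ := by ring
    have e12 : ‖(fun z => G z + u)^[j + 1] (X 0 + u + y) - X (j + 1) -
        Dp a (j + 1) * (y + u * ∑ i ∈ range (j + 1 + 1), (Dp a i)⁻¹)‖ ≤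
        ‖Dp a (j + 1)‖ * Y * (M * (j + 1 : ℕ) * E) := by
      rw [e8]
      refine (norm_add_le _ _).trans ?_
      calc _ ≤ ‖Dp a (j + 1)‖ * Y * (M * E) + ‖Dp a (j + 1)‖ * Y * (M * j * E) :=
            add_le_add (e9.trans e10) e11
        _ = _ := by push_cast; ring
    have hfin : ‖(fun z => G z + u)^[j + 1] (X 0 + u + y) - X (j + 1)‖ ≤
        2 * M * ‖Dp a N‖ * Y → ‖(fun z => G z + u)^[j + 1] (X 0 + u + y) - X (j + 1)‖ ≤ 1 ∧
        ‖(fun z => G z + u)^[j + 1] (X 0 + u + y) - X (j + 1)‖ ≤ 2 * M * ‖Dp a N‖ * Y :=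
      fun hh => ⟨hh.trans h1, hh⟩
    refine ⟨e12, hfin ?_⟩
    have e13 := hlin (j + 1) hj
    have e14 := norm_le_norm_add_norm_sub' ((fun z => G z + u)^[j + 1] (X 0 + u + y) - X (j + 1))
      (Dp a (j + 1) * (y + u * ∑ i ∈ range (j + 1 + 1), (Dp a i)⁻¹))
    have e15 : ‖Dp a (j + 1)‖ * Y * (M * (j + 1 : ℕ) * E) ≤ ‖Dp a (j + 1)‖ * Y * 1 := by
      gcongr
      exact hjE (j + 1) hj
    have f2 : ‖Dp a (j + 1)‖ ≤ M * ‖Dp a N‖ := h.hD (j + 1) N hj le_rfl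
    have e16 : ‖Dp a (j + 1)‖ * Y ≤ M * ‖Dp a N‖ * Y := by gcongr
    linarith

end Pool.Agent.N772.FU
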