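import Pool.Agent.N772.FU.Seq
import Pool.Agent.N772.FU.Shd
import Pool.Agent.H762R2.RtB

/-!
# Rational perturbations of `z ^ d + c`: the renormalised maps
-/

set_option autoImplicit false

open Set Filter Metric MeasureTheory Topology

namespace Pool.Agent.N772.FU

open Pool.Agent.TH279.MD Pool.Agent.Y298.SH Pool.Agent.Y298.SH.CD Pool.Agent.Y298.CA
open Pool.Agent.N253.MS Pool.Agent.N772.TC
open Pool.Agent.H712R2 (P P_succ)

/-- the numerator -/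
noncomputable def Us (d : ℕ) (p : ℕ → ℂ) (z : ℂ) : ℂ := z ^ d + ∑ i ∈ Finset.Ico 1 d, p i * z ^ i

/-- the denominator -/
noncomputable def Vs (d : ℕ) (s : ℕ → ℂ) (z : ℂ) : ℂ := 1 + ∑ i ∈ Finset.Icc 1 d, s i * z ^ i

/-- the perturbation of `z ^ d` -/
noncomputable def Gs (d : ℕ) (p s : ℕ → ℂ) (z : ℂ) : ℂ := Us d p z / Vs d s z

theorem Us_diff (d : ℕ) (p : ℕ → ℂ) : Differentiable ℂ (Us d p) := by
  unfold Us
  fun_prop

theorem Vs_diff (d : ℕ) (s : ℕ → ℂ) : Differentiable ℂ (Vs d s) := by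
  unfold Vs
  fun_prop

theorem sum_small {s : Finset ℕ} {d : ℕ} (hs : s.card ≤ d) (hsd : ∀ i ∈ s, 1 ≤ i ∧ i ≤ d)
    {p : ℕ → ℂ} {σ r : ℝ} (hp : ∀ i, ‖p i‖ ≤ σ) (hr : 1 ≤ r) {z : ℂ} (hz : ‖z‖ ≤ r) :
    ‖∑ i ∈ s, p i * z ^ i‖ ≤ d * (σ * r ^ d) := by
  have hσ : 0 ≤ σ := (norm_nonneg _).trans (hp 0)
  apply sum_bd hs (by positivity)
  intro i hi
  rw [norm_mul, norm_pow]
  have h1 : ‖z‖ ^ i ≤ r ^ d := by
    calc ‖z‖ ^ i ≤ r ^ i := by gcongr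
      _ ≤ r ^ d := pow_le_pow_right₀ hr (hsd i hi).2
  gcongr
  exact hp i

theorem Us_near {d : ℕ} {p : ℕ → ℂ} {σ r : ℝ} (hp : ∀ i, ‖p i‖ ≤ σ) (hr : 1 ≤ r)
    {z : ℂ} (hz : ‖z‖ ≤ r) : ‖Us d p z - z ^ d‖ ≤ d * (σ * r ^ d) := by
  unfold Us
  rw [add_sub_cancel_left]
  exact sum_small (by simp) (fun i hi => by rw [Finset.mem_Ico] at hi; omega) hp hr hz

theorem Vs_near {d : ℕ} {s : ℕ → ℂ} {σ r : ℝ} (hp : ∀ i, ‖s i‖ ≤ σ) (hr : 1 ≤ r)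
    {z : ℂ} (hz : ‖z‖ ≤ r) : ‖Vs d s z - 1‖ ≤ d * (σ * r ^ d) := by
  unfold Vs
  rw [add_sub_cancel_left]
  exact sum_small (by simp) (fun i hi => by rw [Finset.mem_Icc] at hi; omega) hp hr hz

theorem half_of_near {v : ℂ} (h : ‖v - 1‖ ≤ 1 / 2) : 1 / 2 ≤ ‖v‖ ∧ v ≠ 0 := by
  have h1 : 1 / 2 ≤ ‖v‖ := by
    have := norm_le_norm_add_norm_sub (1 : ℂ) v
    have h2 := norm_sub_norm_le (1 : ℂ) v
    rw [norm_one, norm_sub_rev] at h2
    linarith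
  refine ⟨h1, ?_⟩
  rintro rfl
  rw [norm_zero] at h1
  linarith

/-- the constant -/
noncomputable def Kc (d : ℕ) : ℝ := 4 * d * d * 5 ^ d * 5 ^ d

theorem Kc_ge {d : ℕ} (hd : 2 ≤ d) : 1 ≤ Kc d := by
  have hdR : (2 : ℝ) ≤ d := by exact_mod_cast hd
  have h5 : (1 : ℝ) ≤ 5 ^ d := one_le_pow₀ (by norm_num)
  unfold Kc
  have h1 : (1 : ℝ) ≤ 4 * d * d := by nlinarith
  nlinarith [mul_le_mul h5 h5 (by norm_num) (by positivity : (0 : ℝ) ≤ 5 ^ d)]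

/-- the perturbation is small on the disc of radius five -/
theorem Gs_near {d : ℕ} (hd : 2 ≤ d) {p s : ℕ → ℂ} {σ : ℝ} (hp : ∀ i, ‖p i‖ ≤ σ)
    (hs : ∀ i, ‖s i‖ ≤ σ) (hσ : Kc d * σ ≤ 1 / 2) {z : ℂ} (hz : ‖z‖ ≤ 5) :
    ‖Gs d p s z - z ^ d‖ ≤ Kc d * σ ∧ ‖Vs d s z - 1‖ ≤ 1 / 2 := by
  have hσ0 : 0 ≤ σ := (norm_nonneg _).trans (hp 0)
  have hdR : (2 : ℝ) ≤ d := by exact_mod_cast hd
  have h5 : (1 : ℝ) ≤ 5 ^ d := one_le_pow₀ (by norm_num)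
  have h1 := Us_near (d := d) hp (by norm_num) hz
  have h2 := Vs_near (d := d) hs (by norm_num) hz
  have h3 : (d : ℝ) * (σ * 5 ^ d) ≤ Kc d * σ := by
    unfold Kc
    have e1 : (d : ℝ) * (σ * 5 ^ d) * 1 ≤ (d : ℝ) * (σ * 5 ^ d) * (4 * d * 5 ^ d) := by
      gcongr
      nlinarith
    calc _ = (d : ℝ) * (σ * 5 ^ d) * 1 := (mul_one _).symm
      _ ≤ _ := e1
      _ = _ := by ring
  have h4 : ‖Vs d s z - 1‖ ≤ 1 / 2 := h2.trans (h3.trans hσ)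
  obtain ⟨h5', h6⟩ := half_of_near h4
  refine ⟨?_, h4⟩
  have e1 : Gs d p s z - z ^ d = ((Us d p z - z ^ d) - z ^ d * (Vs d s z - 1)) / Vs d s z := by
    unfold Gs
    field_simp
    ring
  rw [e1, norm_div, div_le_iff₀ (by linarith)]
  have e2 : ‖(Us d p z - z ^ d) - z ^ d * (Vs d s z - 1)‖ ≤
      d * (σ * 5 ^ d) + 5 ^ d * (d * (σ * 5 ^ d)) := by
    refine (norm_sub_le _ _).trans (add_le_add h1 ?_)
    rw [norm_mul, norm_pow]
    gcongr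
  have e3 : d * (σ * 5 ^ d) + 5 ^ d * (d * (σ * 5 ^ d)) ≤ Kc d * σ * (1 / 2) := by
    unfold Kc
    have f1 : (d : ℝ) * (σ * 5 ^ d) ≤ 5 ^ d * (d * (σ * 5 ^ d)) :=
      le_mul_of_one_le_left (by positivity) h5
    have f2 : 2 * (5 ^ d * (d * (σ * 5 ^ d))) ≤ 4 * d * d * 5 ^ d * 5 ^ d * σ * (1 / 2) := by
      have : 4 * d * d * 5 ^ d * 5 ^ d * σ * (1 / 2) = (d : ℝ) * (2 * (5 ^ d * (d * (σ * 5 ^ d)))) := by
        ring
      rw [this]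
      exact le_mul_of_one_le_left (by positivity) (by linarith)
    linarith
  refine e2.trans (e3.trans ?_)
  have hK := Kc_ge hd
  gcongr

theorem Gs_diffAt {d : ℕ} {p s : ℕ → ℂ} {z : ℂ} (h : Vs d s z ≠ 0) :
    DifferentiableAt ℂ (Gs d p s) z := by
  unfold Gs
  exact (Us_diff d p z).fun_div (Vs_diff d s z) h

/-- the remainder -/
noncomputable def Rr (d : ℕ) (p s : ℕ → ℂ) (x u : ℂ) : ℂ :=
  Gs d p s (x + u) - x ^ d - d * x ^ (d - 1) * u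

theorem Rr_lip {d : ℕ} (hd : 2 ≤ d) {p s : ℕ → ℂ} {σ : ℝ} (hp : ∀ i, ‖p i‖ ≤ σ)
    (hs : ∀ i, ‖s i‖ ≤ σ) (hσ : Kc d * σ ≤ 1 / 2) {x : ℂ} (hx : ‖x‖ ≤ 2) {ρ : ℝ} (hρ : ρ ≤ 2)
    {u v : ℂ} (hu : ‖u‖ ≤ ρ) (hv : ‖v‖ ≤ ρ) :
    ‖Rr d p s x u - Rr d p s x v‖ ≤ Kc d * (ρ + σ) * ‖u - v‖ := by
  have hσ0 : 0 ≤ σ := (norm_nonneg _).trans (hp 0)
  have hρ0 : 0 ≤ ρ := (norm_nonneg _).trans hu
  have hdR : (2 : ℝ) ≤ d := by exact_mod_cast hd
  have hx4 : ∀ w ∈ closedBall (0 : ℂ) ρ, ‖x + w‖ ≤ 4 := by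
    intro w hw
    rw [mem_closedBall_zero_iff] at hw
    exact (norm_add_le _ _).trans (by linarith)
  have hV : ∀ y : ℂ, ‖y‖ ≤ 5 → Vs d s y ≠ 0 := fun y hy =>
    (half_of_near (Gs_near hd hp hs hσ hy).2).2
  obtain ⟨S, hS⟩ : ∃ S : ℂ → ℂ, S = fun y => Gs d p s y - y ^ d := ⟨_, rfl⟩
  have hSd : ∀ y : ℂ, ‖y‖ ≤ 5 → DifferentiableAt ℂ S y := by
    intro y hy
    rw [hS]
    exact (Gs_diffAt (hV y hy)).sub (differentiableAt_id.pow d)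
  have hSder : ∀ y : ℂ, ‖y‖ ≤ 4 → ‖deriv S y‖ ≤ Kc d * σ := by
    intro y hy
    have hin : ∀ w ∈ closedBall y 1, ‖w‖ ≤ 5 := by
      intro w hw
      rw [mem_closedBall, dist_eq_norm] at hw
      have := norm_le_norm_add_norm_sub' w y
      linarith
    have h1 : DifferentiableOn ℂ S (closedBall y 1) := fun w hw =>
      (hSd w (hin w hw)).differentiableWithinAt
    have h2 : DiffContOnCl ℂ S (ball y 1) := h1.diffContOnCl_ball subset_rfl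
    have h3 := Complex.norm_deriv_le_of_forall_mem_sphere_norm_le (C := Kc d * σ) one_pos h2
      (fun w hw => by
        rw [hS]
        exact (Gs_near hd hp hs hσ (hin w (sphere_subset_closedBall hw))).1)
    rwa [div_one] at h3
  have hder : ∀ w ∈ closedBall (0 : ℂ) ρ, HasDerivAt (Rr d p s x)
      (deriv S (x + w) + (d * (x + w) ^ (d - 1) - d * x ^ (d - 1))) w := by
    intro w hw
    have h1 : HasDerivAt (fun u : ℂ => x + u) 1 w := by simpa using (hasDerivAt_id w).const_add x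
    have h2 : HasDerivAt (fun u : ℂ => S (x + u)) (deriv S (x + w) * 1) w :=
      ((hSd (x + w) (by linarith [hx4 w hw])).hasDerivAt).comp w h1
    have h3 : HasDerivAt (fun u : ℂ => (x + u) ^ d) (d * (x + w) ^ (d - 1) * 1) w := h1.pow d
    have h4 : HasDerivAt (fun u : ℂ => (d : ℂ) * x ^ (d - 1) * u) ((d : ℂ) * x ^ (d - 1) * 1) w :=
      (hasDerivAt_id w).const_mul _
    have h5 := ((h2.add h3).sub_const (x ^ d)).sub h4
    refine (h5.congr_deriv (by ring)).congr_of_eventuallyEq (Eventually.of_forall fun u => ?_)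
    show Rr d p s x u = _
    simp only [Pi.add_apply, Pi.sub_apply]
    rw [Rr, hS]
    ring
  have hbd : ∀ w ∈ closedBall (0 : ℂ) ρ, ‖deriv (Rr d p s x) w‖ ≤ Kc d * (ρ + σ) := by
    intro w hw
    rw [(hder w hw).deriv]
    have e1 := hSder _ (hx4 w hw)
    have e2 := Pool.Agent.H762R2.Rt.pow_lip (hx4 w hw) (show ‖x‖ ≤ 4 by linarith) (d - 1)
    rw [add_sub_cancel_left] at e2
    rw [mem_closedBall_zero_iff] at hw
    have e3 : ‖(d : ℂ) * (x + w) ^ (d - 1) - d * x ^ (d - 1)‖ ≤ Kc d * ρ := by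
      rw [← mul_sub, norm_mul, Complex.norm_natCast]
      have f1 : ((d - 1 : ℕ) : ℝ) ≤ d := by exact_mod_cast Nat.sub_le d 1
      have f2 : (4 : ℝ) ^ (d - 1 - 1) ≤ 5 ^ d * 5 ^ d := by
        calc (4 : ℝ) ^ (d - 1 - 1) ≤ 4 ^ d := pow_le_pow_right₀ (by norm_num) (by omega)
          _ ≤ 5 ^ d := by gcongr; norm_num
          _ ≤ 5 ^ d * 5 ^ d := le_mul_of_one_le_left (by positivity) (one_le_pow₀ (by norm_num))
      calc (d : ℝ) * ‖(x + w) ^ (d - 1) - x ^ (d - 1)‖ ≤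
            d * (((d - 1 : ℕ) : ℝ) * 4 ^ (d - 1 - 1) * ‖w‖) := by gcongr
        _ ≤ d * (d * (5 ^ d * 5 ^ d) * ρ) := by gcongr
        _ = (d * d * 5 ^ d * 5 ^ d * ρ) * 1 := by ring
        _ ≤ (d * d * 5 ^ d * 5 ^ d * ρ) * 4 := by
            gcongr
            norm_num
        _ = Kc d * ρ := by unfold Kc; ring
    calc _ ≤ Kc d * σ + Kc d * ρ := (norm_add_le _ _).trans (add_le_add e1 e3)
      _ = _ := by ring
  exact (convex_closedBall (0 : ℂ) ρ).norm_image_sub_le_of_norm_deriv_le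
    (fun w hw => (hder w hw).differentiableAt) hbd (mem_closedBall_zero_iff.2 hv)
    (mem_closedBall_zero_iff.2 hu)

theorem Rr_zero {d : ℕ} (hd : 2 ≤ d) {p s : ℕ → ℂ} {σ : ℝ} (hp : ∀ i, ‖p i‖ ≤ σ)
    (hs : ∀ i, ‖s i‖ ≤ σ) (hσ : Kc d * σ ≤ 1 / 2) {x : ℂ} (hx : ‖x‖ ≤ 2) :
    ‖Rr d p s x 0‖ ≤ Kc d * σ := by
  unfold Rr
  rw [add_zero, mul_zero, sub_zero]
  exact (Gs_near hd hp hs hσ (by linarith)).1

/-- the derivatives along the orbit -/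
noncomputable def aa (d : ℕ) (c : ℂ) (j : ℕ) : ℂ := d * zz d c j ^ (d - 1)

theorem Dp_eq (d : ℕ) (c : ℂ) (j : ℕ) : Dp (aa d c) j = deriv ((f d c)^[j]) c := by
  rw [deriv_iter_eq]
  rfl

theorem norm_Dp (d : ℕ) (c : ℂ) (j : ℕ) : ‖Dp (aa d c) j‖ = Pd d c j := by
  rw [Dp_eq]
  rfl

/-- the derivative with respect to the parameter -/
theorem derP {d : ℕ} (hd : 2 ≤ d) {c : ℂ} (N : ℕ) (hne : ∀ j ≤ N, Dp (aa d c) j ≠ 0) :
    deriv (P d (N + 1)) c = Dp (aa d c) N * ∑ i ∈ Finset.range (N + 1), (Dp (aa d c) i)⁻¹ := by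
  have hP : ∀ m : ℕ, P d (m + 1) c = zz d c m := fun m => by
    rw [P_last hd (by omega)]
    rfl
  induction N with
  | zero =>
    have h1 : P d (0 + 1) = fun c => c := by
      ext c
      rw [P_last hd (by omega)]
      rfl
    rw [h1]
    simp [Dp_zero]
  | succ N ih =>
    have ih' := ih (fun j hj => hne j (by omega))
    have h1 : P d (N + 1 + 1) = fun c => P d (N + 1) c ^ d + c := by
      ext c
      exact P_succ d (N + 1) c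
    have h2 : HasDerivAt (P d (N + 1 + 1))
        (d * P d (N + 1) c ^ (d - 1) * deriv (P d (N + 1)) c + 1) c := by
      rw [h1]
      exact ((((Pool.Agent.H713R2.differentiable_P d (N + 1)) c).hasDerivAt).pow d).add
        (hasDerivAt_id c)
    rw [h2.deriv, ih', hP, Finset.sum_range_succ (fun i => (Dp (aa d c) i)⁻¹) (N + 1), mul_add,
      mul_inv_cancel₀ (hne (N + 1) le_rfl), Dp_succ]
    show d * zz d c N ^ (d - 1) * (Dp (aa d c) N * _) + 1 = Dp (aa d c) N * aa d c N * _ + 1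
    unfold aa
    ring

end Pool.Agent.N772.FU
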