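import Pool.Agent.N772.TC.Uni

/-!
# The derivatives along the orbit of a superattracting parameter next to `c₀`
-/

set_option autoImplicit false

open Set Filter Metric MeasureTheory Topology

namespace Pool.Agent.N772.FU

open Pool.Agent.TH279.MD Pool.Agent.Y298.SH Pool.Agent.Y298.SH.CD Pool.Agent.Y298.CA
open Pool.Agent.N253.MS Pool.Agent.N772.TC
open Pool.Agent.H712R2 (P)

theorem Pd_le {d : ℕ} (hd : 2 ≤ d) {c : ℂ} (hb : ∀ j, ‖zz d c j‖ ≤ 2) (j m : ℕ) :
    Pd d c (j + m) ≤ Pd d c j * Real.exp (Real.log (d * 2 ^ (d - 1)) * m) := by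
  have hdR : (2 : ℝ) ≤ d := by exact_mod_cast hd
  have h0 : (0 : ℝ) < d * 2 ^ (d - 1) := by positivity
  induction m with
  | zero => simp
  | succ m ih =>
    rw [← add_assoc, Pd_succ]
    have h1 : (d : ℝ) * ‖zz d c (j + m)‖ ^ (d - 1) ≤ d * 2 ^ (d - 1) := by
      gcongr
      exact hb _
    calc (d : ℝ) * ‖zz d c (j + m)‖ ^ (d - 1) * Pd d c (j + m) ≤
          (d * 2 ^ (d - 1)) * (Pd d c j * Real.exp (Real.log (d * 2 ^ (d - 1)) * m)) := by
          gcongr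
          exact Pd_nonneg _ _ _
      _ = Pd d c j * Real.exp (Real.log (d * 2 ^ (d - 1)) * (m + 1 : ℕ)) := by
          push_cast
          rw [mul_add, mul_one, Real.exp_add, Real.exp_log h0]
          ring

theorem seq_law {d : ℕ} (hd : 2 ≤ d) {χ : ℝ} {c₀ : ℂ} (h : Lyap d χ c₀) {ε : ℝ} (hε : 0 < ε) :
    ∃ δ : ℝ, 0 < δ ∧ ∀ᶠ n : ℕ in atTop, ∀ c' : ℂ, P d n c' = 0 →
      ‖c' - c₀‖ ≤ Real.exp (-((χ - δ) * n)) → ∀ j ≤ n - 1,
        Real.exp (χ * j - ε * n) ≤ Pd d c' j ∧ Pd d c' j ≤ Real.exp (χ * j + ε * n) := by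
  have hχ : 0 < χ := h.1
  have hdR : (2 : ℝ) ≤ d := by exact_mod_cast hd
  obtain ⟨Λ, hΛ⟩ : ∃ Λ, Λ = Real.log (d * 2 ^ (d - 1)) := ⟨_, rfl⟩
  have hΛ0 : 0 < Λ := by
    rw [hΛ]
    apply Real.log_pos
    have : (1 : ℝ) ≤ 2 ^ (d - 1) := one_le_pow₀ (by norm_num)
    nlinarith
  obtain ⟨κ, hκ⟩ : ∃ κ, κ = min (ε / 8) (χ * ε / (20 * Λ)) := ⟨_, rfl⟩
  have hκ0 : 0 < κ := by rw [hκ]; positivity
  have hκ1 : κ ≤ ε / 8 := by rw [hκ]; exact min_le_left _ _
  have hκ2 : κ ≤ χ * ε / (20 * Λ) := by rw [hκ]; exact min_le_right _ _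
  obtain ⟨⟨C₁, lam, hc⟩, hlya⟩ := Pool.Agent.Y674.CA.lya d χ c₀ hd h
  obtain ⟨C₂, hC₂1, hC₂⟩ := hlya κ hκ0
  have hC₂0 : 0 < C₂ := by linarith
  obtain ⟨B, Ca, hPC⟩ := Pool.Agent.Y434.CA.pa d C₁ lam (Real.exp κ) hd hc.C1 hc.lam1
    (Real.one_lt_exp_iff.mpr hκ0)
  have hB1 : 1 ≤ B := hPC.Ca1.trans hPC.CaB
  have hB0 : 0 < B := by linarith
  obtain ⟨δ₁, hδ₁, H⟩ := der_law hd h (ε := ε / 4) (by positivity)
  refine ⟨min κ δ₁, lt_min hκ0 hδ₁, ?_⟩
  filter_upwards [H, ev_lin hκ0 (Real.log (B * C₂ ^ 2)), ev_lin hκ0 (Real.log (2 * C₂)),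
    eventually_ge_atTop 1] with n hn1 hn2 hn3 hn c' hPc hcc
  have hn0 : (1 : ℝ) ≤ n := by exact_mod_cast hn
  have hn00 : (0 : ℝ) < n := by linarith
  obtain ⟨⟨hlow, -⟩, -, -⟩ := hn1 c' hPc (hcc.trans (Real.exp_le_exp.2 (by
    have : (χ - δ₁) * n ≤ (χ - min κ δ₁) * n := by
      gcongr
      exact min_le_right _ _
    linarith)))
  have hbd : ∀ j, ‖zz d c' j‖ ≤ 2 := by
    intro j
    have h1 := bd_of_centre hd hn hPc (j + 1)
    have h2 : P d (j + 1) c' = zz d c' j := by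
      rw [P_last hd (by omega)]
      rfl
    rwa [h2] at h1
  obtain ⟨s, hs⟩ : ∃ s : ℝ, s = Real.exp (-((χ - κ) * n)) := ⟨_, rfl⟩
  have hs0 : 0 < s := by rw [hs]; exact Real.exp_pos _
  have hcs : ‖c' - c₀‖ ≤ s := by
    rw [hs]
    refine hcc.trans (Real.exp_le_exp.2 ?_)
    have : (χ - κ) * n ≤ (χ - min κ δ₁) * n := by
      gcongr
      exact min_le_left _ _
    linarith
  -- the first bad time
  classical
  have hex : ∃ k : ℕ, (k = n ∨ ¬ B * Real.exp κ ^ k * s * Pd d c₀ k ≤ ‖zz d c₀ k‖) := ⟨n, Or.inl rfl⟩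
  obtain ⟨k, hk⟩ : ∃ k, k = Nat.find hex := ⟨_, rfl⟩
  have hk1 := Nat.find_spec hex
  rw [← hk] at hk1
  have hk2 : ∀ j < k, B * Real.exp κ ^ j * s * Pd d c₀ j ≤ ‖zz d c₀ j‖ := by
    intro j hj
    rw [hk] at hj
    have := Nat.find_min hex hj
    push Not at this
    exact this.2
  have hkn : k ≤ n := by
    rw [hk]
    exact Nat.find_min' hex (Or.inl rfl)
  have hpass := hPC.pass c₀ hc c' s k hs0 hcs hk2 c' (mem_ball_self hs0)
  have hklow : (χ - 5 * κ) * n ≤ χ * k := by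
    rcases hk1 with hk1 | hk1
    · rw [hk1]
      have : 0 < κ * n := by positivity
      linarith
    · push Not at hk1
      obtain ⟨-, g2, g3⟩ := hC₂ k
      have hkR : (k : ℝ) ≤ n := by exact_mod_cast hkn
      have e1 : 1 ≤ C₂ * Real.exp (κ * k) * (B * Real.exp κ ^ k * s * Pd d c₀ k) := by
        refine g3.trans ?_
        gcongr
      have e2 : C₂ * Real.exp (κ * k) * (B * Real.exp κ ^ k * s * Pd d c₀ k) ≤
          C₂ * Real.exp (κ * k) * (B * Real.exp κ ^ k * s * (C₂ * Real.exp ((χ + κ) * k))) := by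
        gcongr
      have e3 : C₂ * Real.exp (κ * k) * (B * Real.exp κ ^ k * s * (C₂ * Real.exp ((χ + κ) * k))) =
          Real.exp (Real.log (B * C₂ ^ 2) + κ * k + κ * k - (χ - κ) * n + (χ + κ) * k) := by
        rw [sub_eq_add_neg, Real.exp_add, Real.exp_add, Real.exp_add, Real.exp_add,
          Real.exp_log (by positivity), ← Real.exp_nat_mul, hs, mul_comm (k : ℝ) κ]
        ring
      rw [e3] at e2
      have e4 : 0 ≤ Real.log (B * C₂ ^ 2) + κ * k + κ * k - (χ - κ) * n + (χ + κ) * k := by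
        rw [← Real.exp_le_exp, Real.exp_zero]
        exact e1.trans e2
      have e5 : κ * k ≤ κ * n := by gcongr
      nlinarith
  have hΛκ : Λ * (5 * κ / χ) ≤ ε / 4 := by
    calc Λ * (5 * κ / χ) ≤ Λ * (5 * (χ * ε / (20 * Λ)) / χ) := by gcongr
      _ = ε / 4 := by field_simp; ring
  have hgap : Λ * (n - k) ≤ ε / 4 * n := by
    have e1 : (n : ℝ) - k ≤ 5 * κ / χ * n := by
      rw [div_mul_eq_mul_div, le_div_iff₀ hχ]
      linarith
    calc Λ * (n - k) ≤ Λ * (5 * κ / χ * n) := by gcongr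
      _ = Λ * (5 * κ / χ) * n := by ring
      _ ≤ ε / 4 * n := by gcongr
  -- up to `k`
  have hfirst : ∀ j ≤ k, Real.exp (χ * j - 2 * κ * n) ≤ Pd d c' j ∧
      Pd d c' j ≤ Real.exp (χ * j + 2 * κ * n) := by
    intro j hj
    obtain ⟨-, p2, p3, -⟩ := hpass j hj
    obtain ⟨g1, g2, -⟩ := hC₂ j
    have hjn : (j : ℝ) ≤ n := by exact_mod_cast hj.trans hkn
    have hκj : κ * j ≤ κ * n := by gcongr
    constructor
    · have e1 : Real.exp (χ * j - 2 * κ * n) * (2 * C₂) ≤ Pd d c' j * (2 * C₂) := by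
        calc Real.exp (χ * j - 2 * κ * n) * (2 * C₂) =
              Real.exp (χ * j - 2 * κ * n) * Real.exp (Real.log (2 * C₂)) := by
              rw [Real.exp_log (by positivity)]
          _ = Real.exp (χ * j - 2 * κ * n + Real.log (2 * C₂)) := (Real.exp_add _ _).symm
          _ ≤ Real.exp ((χ - κ) * j) := Real.exp_le_exp.2 (by nlinarith)
          _ ≤ C₂ * Pd d c₀ j := g1
          _ ≤ C₂ * (2 * Pd d c' j) := by
              gcongr
              unfold Pd at p2 ⊢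
              linarith
          _ = Pd d c' j * (2 * C₂) := by ring
      exact le_of_mul_le_mul_right e1 (by positivity)
    · calc Pd d c' j ≤ 2 * Pd d c₀ j := p3
        _ ≤ 2 * (C₂ * Real.exp ((χ + κ) * j)) := by gcongr
        _ = Real.exp (Real.log (2 * C₂) + (χ + κ) * j) := by
            rw [Real.exp_add, Real.exp_log (by positivity)]
            ring
        _ ≤ _ := Real.exp_le_exp.2 (by nlinarith)
  intro j hj
  have hκn : 0 < κ * n := by positivity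
  have hκε : κ * n ≤ ε / 8 * n := by gcongr
  rcases le_or_gt j k with hjk | hjk
  · obtain ⟨h1, h2⟩ := hfirst j hjk
    exact ⟨(Real.exp_le_exp.2 (by linarith)).trans h1, h2.trans (Real.exp_le_exp.2 (by linarith))⟩
  have hjkR : (k : ℝ) ≤ j := by exact_mod_cast hjk.le
  have hjn : (j : ℝ) + 1 ≤ n := by exact_mod_cast (by omega : j + 1 ≤ n)
  constructor
  · obtain ⟨m, hm⟩ : ∃ m, n - 1 = j + m := ⟨n - 1 - j, by omega⟩
    have h1 := Pd_le hd hbd j m
    rw [← hm, ← hΛ] at h1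
    have h2 : Real.exp ((χ - ε / 4) * n) ≤ Pd d c' j * Real.exp (Λ * m) := hlow.trans h1
    have hmR : (m : ℝ) ≤ n - k := by
      have : (j + m : ℕ) + 1 = n := by omega
      have h3 : ((j + m : ℕ) : ℝ) + 1 = n := by exact_mod_cast this
      push_cast at h3
      linarith
    have h3 : Real.exp (Λ * m) ≤ Real.exp (ε / 4 * n) := by
      apply Real.exp_le_exp.2
      refine le_trans ?_ hgap
      gcongr
    have h4 : Real.exp ((χ - ε / 4) * n) ≤ Pd d c' j * Real.exp (ε / 4 * n) := by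
      refine h2.trans ?_
      gcongr
      exact Pd_nonneg _ _ _
    have h5 : Real.exp ((χ - ε / 4) * n - ε / 4 * n) ≤ Pd d c' j := by
      rw [Real.exp_sub, div_le_iff₀ (Real.exp_pos _)]
      exact h4
    refine le_trans (Real.exp_le_exp.2 ?_) h5
    have : χ * j ≤ χ * n := mul_le_mul_of_nonneg_left (by linarith) hχ.le
    nlinarith
  · obtain ⟨m, rfl⟩ : ∃ m, j = k + m := ⟨j - k, by omega⟩
    have h1 := Pd_le hd hbd k m
    rw [← hΛ] at h1
    have hmR : (m : ℝ) ≤ n - k := by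
      push_cast at hjn
      linarith
    have h3 : Real.exp (Λ * m) ≤ Real.exp (ε / 4 * n) := by
      apply Real.exp_le_exp.2
      refine le_trans ?_ hgap
      gcongr
    calc Pd d c' (k + m) ≤ Pd d c' k * Real.exp (Λ * m) := h1
      _ ≤ Real.exp (χ * k + 2 * κ * n) * Real.exp (ε / 4 * n) := by
          gcongr
          exact (hfirst k le_rfl).2
      _ = Real.exp (χ * k + 2 * κ * n + ε / 4 * n) := (Real.exp_add _ _).symm
      _ ≤ _ := by
          apply Real.exp_le_exp.2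
          have : χ * k ≤ χ * (k + m : ℕ) := by gcongr
          nlinarith

end Pool.Agent.N772.FU
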