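import Pool.Agent.N772.FU.Num
import Pool.Agent.N772.FU.Hyp
import Pool.Agent.W327.RD.Dyn

/-!
# The rational maps on the sphere
-/

set_option autoImplicit false

open Polynomial Filter Topology MeasureTheory
open scoped OnePoint

namespace Pool.Agent.N772.FU

open Pool.Agent.H762R2.Rt Pool.Agent.H462R2.AP
open Pool.Agent.Helper114.Herman Pool.Agent.Helper114.Konig

/-- **Attraction on the sphere.** -/
theorem sinks_of_trap {f : OnePoint ℂ → OnePoint ℂ} (hf : Continuous f) {F : ℂ → ℂ} {m : ℂ}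
    (hm : m ≠ 0) {n : ℕ} (hn : 0 < n) {R : ℝ}
    (hconj : ∀ x : ℂ, ‖x‖ < R → f^[n] ((m * x : ℂ) : OnePoint ℂ) = ((m * F x : ℂ) : OnePoint ℂ))
    (hF : ∀ x : ℂ, ‖x‖ < R → DifferentiableAt ℂ F x) {ζ : ℂ} (h : Trap F R ζ) :
    Sinks f ((m * ζ : ℂ) : OnePoint ℂ) := by
  obtain ⟨a, ρ, M, J, hρ, hM, h1, h2, h3⟩ := h
  have hit : ∀ (i : ℕ) (x : ℂ), (∀ j < i, ‖F^[j] x‖ < R) →
      f^[n * i] ((m * x : ℂ) : OnePoint ℂ) = ((m * F^[i] x : ℂ) : OnePoint ℂ) := by
    intro i
    induction i with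
    | zero => intro x _; simp
    | succ i ih =>
      intro x hx
      rw [show n * (i + 1) = n + n * i by ring, Function.iterate_add_apply,
        ih x (fun j hj => hx j (by omega)), hconj _ (hx i (by omega)),
        Function.iterate_succ_apply']
  have hdi : ∀ (i : ℕ) (x : ℂ), (∀ j < i, ‖F^[j] x‖ < R) → DifferentiableAt ℂ (F^[i]) x := by
    intro i
    induction i with
    | zero => intro x _; exact differentiableAt_id
    | succ i ih =>
      intro x hx
      rw [Function.iterate_succ']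
      exact (hF _ (hx i (by omega))).comp x (ih x (fun j hj => hx j (by omega)))
  have hρc : (ρ : ℂ) ≠ 0 := by exact_mod_cast hρ.ne'
  have hball : ∀ y : ℂ, ‖y‖ ≤ 1 → a + ρ * y ∈ Metric.closedBall a ρ := by
    intro y hy
    rw [Metric.mem_closedBall, dist_eq_norm, add_sub_cancel_left, norm_mul, Complex.norm_real,
      Real.norm_eq_abs, abs_of_pos hρ]
    nlinarith
  obtain ⟨g, hg⟩ : ∃ g : ℂ → ℂ, g = fun y => (F^[M] (a + ρ * y) - a) / ρ := ⟨_, rfl⟩
  have hgd : ∀ y ∈ Metric.closedBall (0 : ℂ) 1, DifferentiableAt ℂ g y := by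
    intro y hy
    rw [mem_closedBall_zero_iff] at hy
    have e1 := (h1 _ (hball y hy)).2
    have e2 : DifferentiableAt ℂ (F^[M]) (a + ρ * y) := hdi M _ (fun j hj => e1 j hj.le)
    have e3 : DifferentiableAt ℂ (fun y : ℂ => a + ρ * y) y :=
      (differentiableAt_id.const_mul _).const_add _
    rw [hg]
    exact ((e2.comp y e3).sub_const _).div_const _
  have hgb : ∀ y ∈ Metric.closedBall (0 : ℂ) 1, ‖g y‖ < 1 / 4 := by
    intro y hy
    rw [mem_closedBall_zero_iff] at hy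
    have e1 := (h1 _ (hball y hy)).1
    rw [hg]
    simp only
    rw [norm_div, Complex.norm_real, Real.norm_eq_abs, abs_of_pos hρ, div_lt_iff₀ hρ]
    linarith
  have hmρ : m * (ρ : ℂ) ≠ 0 := mul_ne_zero hm hρc
  obtain ⟨ψ, hψ⟩ : ∃ ψ : ℂ → OnePoint ℂ, ψ = fun y => ((m * (a + ρ * y) : ℂ) : OnePoint ℂ) :=
    ⟨_, rfl⟩
  have hψc : Continuous ψ := by
    rw [hψ]
    exact (OnePoint.continuous_coe (X := ℂ)).comp (by fun_prop)
  have hψo : IsOpenMap ψ := by
    have e1 : ψ = (fun x : ℂ => (x : OnePoint ℂ)) ∘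
        ((Homeomorph.mulLeft₀ (m * (ρ : ℂ)) hmρ).trans (Homeomorph.addLeft (m * a))) := by
      rw [hψ]
      funext y
      simp only [Function.comp, Homeomorph.trans_apply, Homeomorph.coe_mulLeft₀,
        Homeomorph.coe_addLeft]
      congr 1
      ring
    rw [e1]
    exact (OnePoint.isOpenEmbedding_coe (X := ℂ)).isOpenMap.comp (Homeomorph.isOpenMap _)
  have hS : ∀ x : ℂ, ‖x‖ ≤ 1 / 2 → Sinks f (ψ x) := by
    intro x hx
    exact two_charts' (ψ := fun _ => ψ) (σ := id) (τ := fun _ => n * M) (h := fun _ => g)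
      (r := 1 / 2) hf (by norm_num) (fun _ => Nat.mul_pos hn hM) (fun _ => hψc) (fun _ => hψo)
      (fun _ y hy => by
        have e1 := (h1 _ (hball y (by linarith))).2
        rw [hψ]
        simp only
        rw [hit M _ (fun j hj => e1 j hj.le), hg]
        simp only
        congr 2
        field_simp
        ring)
      (fun _ y hy => (hgb y (by rw [mem_closedBall_zero_iff]; linarith)).trans (by norm_num))
      (fun _ y z hy hz => W327.RD.cauchy_lip hgd hgb hy hz) (i := true) hx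
  apply sinks_of_iterate hf (n * J)
  rw [hit J ζ (fun j hj => h3 j hj.le)]
  have e1 := hS ((F^[J] ζ - a) / ρ) (by
    rw [norm_div, Complex.norm_real, Real.norm_eq_abs, abs_of_pos hρ, div_le_iff₀ hρ]
    linarith)
  rw [hψ] at e1
  simp only at e1
  rwa [mul_div_cancel₀ _ hρc, add_sub_cancel] at e1

/-- the denominator -/
noncomputable def denP (d : ℕ) (s : ℕ → ℂ) : ℂ[X] := 1 + ∑ i ∈ Finset.Icc 1 d, C (s i) * X ^ i

/-- the numerator -/
noncomputable def numP (d : ℕ) (p s : ℕ → ℂ) (k : ℂ) : ℂ[X] :=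
  (X ^ d + ∑ i ∈ Finset.Ico 1 d, C (p i) * X ^ i) + C k * denP d s

theorem denP_eval (d : ℕ) (s : ℕ → ℂ) (z : ℂ) : (denP d s).eval z = Vs d s z := by
  unfold denP Vs
  rw [eval_add, eval_one, eval_finsetSum]
  simp

theorem numP_eval (d : ℕ) (p s : ℕ → ℂ) (k z : ℂ) :
    (numP d p s k).eval z = Us d p z + k * Vs d s z := by
  unfold numP Us
  rw [eval_add, eval_add, eval_mul, eval_C, denP_eval, eval_pow, eval_X, eval_finsetSum]
  simp

theorem denP_deg (d : ℕ) (s : ℕ → ℂ) : (denP d s).natDegree ≤ d := by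
  unfold denP
  refine natDegree_add_le_of_degree_le (by simp) ?_
  refine natDegree_sum_le_of_forall_le _ _ fun i hi => ?_
  rw [Finset.mem_Icc] at hi
  exact (natDegree_C_mul_X_pow_le _ _).trans hi.2

theorem numP_deg_le (d : ℕ) (p s : ℕ → ℂ) (k : ℂ) : (numP d p s k).natDegree ≤ d := by
  unfold numP
  refine natDegree_add_le_of_degree_le (natDegree_add_le_of_degree_le (by simp) ?_) ?_
  · refine natDegree_sum_le_of_forall_le _ _ fun i hi => ?_
    rw [Finset.mem_Ico] at hi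
    exact (natDegree_C_mul_X_pow_le _ _).trans hi.2.le
  · exact (natDegree_C_mul_le _ _).trans (denP_deg d s)

theorem denP_coeff {d i : ℕ} (s : ℕ → ℂ) (hi : 1 ≤ i) (hid : i ≤ d) : (denP d s).coeff i = s i := by
  unfold denP
  rw [coeff_add, coeff_one, if_neg (by omega), zero_add, finset_sum_coeff,
    Finset.sum_eq_single i]
  · simp
  · intro j _ hj
    rw [coeff_C_mul_X_pow, if_neg (Ne.symm hj)]
  · intro h
    exact absurd (Finset.mem_Icc.2 ⟨hi, hid⟩) h

theorem numP_coeff_top {d : ℕ} (hd : 2 ≤ d) (p s : ℕ → ℂ) (k : ℂ) :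
    (numP d p s k).coeff d = 1 + k * s d := by
  unfold numP
  rw [coeff_add, coeff_add, coeff_C_mul, denP_coeff s (by omega) le_rfl, coeff_X_pow, if_pos rfl,
    finset_sum_coeff, Finset.sum_eq_zero, add_zero]
  intro i hi
  rw [Finset.mem_Ico] at hi
  rw [coeff_C_mul_X_pow, if_neg (by omega)]

theorem hom_add (A B : ℂ[X]) (d : ℕ) (u v : ℂ) : hom (A + B) d u v = hom A d u v + hom B d u v := by
  unfold hom
  rw [← Finset.sum_add_distrib]
  refine Finset.sum_congr rfl fun k _ => ?_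
  rw [coeff_add]
  ring

theorem hom_C_mul (a : ℂ) (B : ℂ[X]) (d : ℕ) (u v : ℂ) : hom (C a * B) d u v = a * hom B d u v := by
  unfold hom
  rw [Finset.mul_sum]
  refine Finset.sum_congr rfl fun k _ => ?_
  rw [coeff_C_mul]
  ring

theorem hom_X_pow {i d : ℕ} (hi : i ≤ d) (u v : ℂ) :
    hom (X ^ i : ℂ[X]) d u v = u ^ i * v ^ (d - i) := by
  unfold hom
  rw [Finset.sum_eq_single i]
  · rw [coeff_X_pow, if_pos rfl, one_mul]
  · intro j _ hj
    rw [coeff_X_pow, if_neg hj, zero_mul, zero_mul]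
  · intro h
    exact absurd (Finset.mem_range.2 (by omega)) h

theorem hom_sum (S : Finset ℕ) (a : ℕ → ℂ) {d : ℕ} (hS : ∀ i ∈ S, i ≤ d) (u v : ℂ) :
    hom (∑ i ∈ S, C (a i) * X ^ i) d u v = ∑ i ∈ S, a i * (u ^ i * v ^ (d - i)) := by
  classical
  induction S using Finset.induction_on with
  | empty => simp [hom]
  | insert i S hi ih =>
    rw [Finset.sum_insert hi, Finset.sum_insert hi, hom_add, hom_C_mul,
      hom_X_pow (hS i (Finset.mem_insert_self _ _)),
      ih (fun j hj => hS j (Finset.mem_insert_of_mem hj))]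

/-- the denominator at infinity -/
noncomputable def Dx (d : ℕ) (s : ℕ → ℂ) (x : ℂ) : ℂ :=
  x ^ d + ∑ i ∈ Finset.Icc 1 d, s i * x ^ (d - i)

/-- the numerator at infinity -/
noncomputable def Nx (d : ℕ) (p s : ℕ → ℂ) (k x : ℂ) : ℂ :=
  (1 + ∑ i ∈ Finset.Ico 1 d, p i * x ^ (d - i)) + k * Dx d s x

theorem hom_den (d : ℕ) (s : ℕ → ℂ) (x : ℂ) : hom (denP d s) d 1 x = Dx d s x := by
  unfold denP Dx
  rw [hom_add, hom_sum _ _ (fun i hi => (Finset.mem_Icc.1 hi).2)]
  have h1 : hom (1 : ℂ[X]) d 1 x = x ^ d := by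
    have := hom_X_pow (i := 0) (d := d) (Nat.zero_le _) 1 x
    rwa [pow_zero, pow_zero, one_mul, Nat.sub_zero] at this
  rw [h1]
  congr 1
  refine Finset.sum_congr rfl fun i _ => ?_
  rw [one_pow, one_mul]

theorem hom_num (d : ℕ) (p s : ℕ → ℂ) (k x : ℂ) : hom (numP d p s k) d 1 x = Nx d p s k x := by
  unfold numP Nx
  rw [hom_add, hom_add, hom_C_mul, hom_den, hom_X_pow le_rfl,
    hom_sum _ _ (fun i hi => (Finset.mem_Ico.1 hi).2.le)]
  simp

theorem sum_small' {s : Finset ℕ} {d : ℕ} (hs : s.card ≤ d)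
    {p : ℕ → ℂ} {σ : ℝ} (hp : ∀ i, ‖p i‖ ≤ σ) {z : ℂ} (hz : ‖z‖ ≤ 1) :
    ‖∑ i ∈ s, p i * z ^ (d - i)‖ ≤ d * σ := by
  have hσ : 0 ≤ σ := (norm_nonneg _).trans (hp 0)
  apply sum_bd hs hσ
  intro i _
  rw [norm_mul, norm_pow]
  calc ‖p i‖ * ‖z‖ ^ (d - i) ≤ σ * 1 := by
        gcongr
        · exact hp i
        · exact pow_le_one₀ (norm_nonneg z) hz
    _ = σ := mul_one _

theorem at_inf {d : ℕ} (hd : 2 ≤ d) {p s : ℕ → ℂ} {σ : ℝ} (hp : ∀ i, ‖p i‖ ≤ σ)
    (hs : ∀ i, ‖s i‖ ≤ σ) (hσ : d * σ ≤ 1 / 1000) {k : ℂ} (hk : ‖k‖ ≤ 3) {x : ℂ}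
    (hx : ‖x‖ ≤ 1 / 5) : Nx d p s k x ≠ 0 ∧ ‖5 * (Dx d s x / Nx d p s k x)‖ < 1 / 4 := by
  have hx1 : ‖x‖ ≤ 1 := by linarith
  have h1 : ‖Dx d s x‖ ≤ 1 / 25 + 1 / 1000 := by
    unfold Dx
    refine (norm_add_le _ _).trans (add_le_add ?_ ?_)
    · rw [norm_pow]
      calc ‖x‖ ^ d ≤ ‖x‖ ^ 2 := pow_le_pow_of_le_one (norm_nonneg x) hx1 hd
        _ ≤ (1 / 5) ^ 2 := by gcongr
        _ = 1 / 25 := by norm_num
    · exact (sum_small' (by simp) hs hx1).trans hσ
  have h2 : ‖∑ i ∈ Finset.Ico 1 d, p i * x ^ (d - i)‖ ≤ 1 / 1000 :=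
    (sum_small' (by simp) hp hx1).trans hσ
  have h3 : 87 / 100 ≤ ‖Nx d p s k x‖ := by
    have e1 : (1 : ℂ) = Nx d p s k x - (∑ i ∈ Finset.Ico 1 d, p i * x ^ (d - i)) -
        k * Dx d s x := by
      unfold Nx
      ring
    have e2 : (1 : ℝ) ≤ ‖Nx d p s k x‖ + ‖∑ i ∈ Finset.Ico 1 d, p i * x ^ (d - i)‖ +
        ‖k * Dx d s x‖ := by
      calc (1 : ℝ) = ‖(1 : ℂ)‖ := norm_one.symm
        _ = ‖Nx d p s k x - (∑ i ∈ Finset.Ico 1 d, p i * x ^ (d - i)) - k * Dx d s x‖ := by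
            rw [← e1]
        _ ≤ ‖Nx d p s k x - (∑ i ∈ Finset.Ico 1 d, p i * x ^ (d - i))‖ + ‖k * Dx d s x‖ :=
            norm_sub_le _ _
        _ ≤ _ := by
            gcongr
            exact norm_sub_le _ _
    have e3 : ‖k * Dx d s x‖ ≤ 3 * (1 / 25 + 1 / 1000) := by
      rw [norm_mul]
      gcongr
    linarith
  refine ⟨?_, ?_⟩
  · intro h0
    rw [h0, norm_zero] at h3
    norm_num at h3
  · rw [norm_mul, norm_div]
    have e0 : ‖(5 : ℂ)‖ = 5 := by simp
    rw [e0, ← mul_div_assoc, div_lt_iff₀ (by linarith)]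
    linarith

theorem ch_true_eq (x : ℂ) : ch true x = pr 1 x := by
  simp only [ch_true]
  rw [← pr_one x, sinv_pr (Or.inr one_ne_zero)]

/-- the trap at infinity -/
theorem sinks_inf {d : ℕ} (hd : 2 ≤ d) {p s : ℕ → ℂ} {σ : ℝ} (hp : ∀ i, ‖p i‖ ≤ σ)
    (hs : ∀ i, ‖s i‖ ≤ σ) (hσ : d * σ ≤ 1 / 1000) {k : ℂ} (hk : ‖k‖ ≤ 3)
    {f : OnePoint ℂ → OnePoint ℂ} (hf : IsRat f (numP d p s k) (denP d s))
    (hdeg : d = max (numP d p s k).natDegree (denP d s).natDegree) {y : ℂ} (hy : ‖y‖ ≤ 1 / 2) :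
    Sinks f (ch true ((1 / 5 : ℂ) * y)) := by
  have h5 : (1 / 5 : ℂ) ≠ 0 := by norm_num
  have h5n : ‖(1 / 5 : ℂ)‖ = 1 / 5 := by simp
  obtain ⟨g, hg⟩ : ∃ g : ℂ → ℂ, g = fun y => 5 * (Dx d s ((1 / 5 : ℂ) * y) /
    Nx d p s k ((1 / 5 : ℂ) * y)) := ⟨_, rfl⟩
  have hsm : ∀ y ∈ Metric.closedBall (0 : ℂ) 1, ‖(1 / 5 : ℂ) * y‖ ≤ 1 / 5 := by
    intro y hy
    rw [mem_closedBall_zero_iff] at hy
    rw [norm_mul, h5n]
    linarith
  have hDd : Differentiable ℂ (Dx d s) := by unfold Dx; fun_prop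
  have hNd : Differentiable ℂ (Nx d p s k) := by unfold Nx Dx; fun_prop
  have hgd : ∀ y ∈ Metric.closedBall (0 : ℂ) 1, DifferentiableAt ℂ g y := by
    intro y hy
    have e1 := (at_inf hd hp hs hσ hk (hsm y hy)).1
    have e2 : DifferentiableAt ℂ (fun y : ℂ => (1 / 5 : ℂ) * y) y := differentiableAt_id.const_mul _
    rw [hg]
    exact (((hDd _).comp y e2).fun_div ((hNd _).comp y e2) e1).const_mul _
  have hgb : ∀ y ∈ Metric.closedBall (0 : ℂ) 1, ‖g y‖ < 1 / 4 := by
    intro y hy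
    rw [hg]
    exact (at_inf hd hp hs hσ hk (hsm y hy)).2
  have hconj : ∀ y ∈ Metric.closedBall (0 : ℂ) 1,
      f (ch true ((1 / 5 : ℂ) * y)) = ch true ((1 / 5 : ℂ) * g y) := by
    intro y hy
    have e1 := (at_inf hd hp hs hσ hk (hsm y hy)).1
    rw [ch_true_eq, rat_formula hf hdeg (by omega) (Or.inl one_ne_zero), hom_den, hom_num, hg]
    simp only
    rw [← mul_assoc, show (1 / 5 : ℂ) * 5 = 1 by norm_num, one_mul, ch_true]
    simp only
    rw [← pr_ne e1, sinv_pr (Or.inr e1)]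
  have hmem : ∀ x : ℂ, ‖x‖ ≤ 1 / 2 → x ∈ Metric.closedBall (0 : ℂ) 1 := by
    intro x hx
    rw [mem_closedBall_zero_iff]
    linarith
  exact two_charts' (ψ := fun _ y => ch true ((1 / 5 : ℂ) * y)) (σ := id) (τ := fun _ => 1)
    (h := fun _ => g) (r := 1 / 2) hf.cont (by norm_num) (fun _ => one_pos)
    (fun _ => (continuous_ch true).comp (continuous_const.mul continuous_id))
    (fun _ => (isOpenMap_ch true).comp (Homeomorph.mulLeft₀ (1 / 5 : ℂ) h5).isOpenMap)
    (fun _ x hx => by rw [Function.iterate_one]; exact hconj x (hmem x hx))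
    (fun _ x hx => (hgb x (hmem x hx)).trans (by norm_num))
    (fun _ x y hx hy => W327.RD.cauchy_lip hgd hgb hx hy) (i := true) hy

/-- **Hyperbolicity on the sphere.** -/
theorem sphere_hyp {d : ℕ} (hd : 2 ≤ d) {p s : ℕ → ℂ} {σ : ℝ} (hp : ∀ i, ‖p i‖ ≤ σ)
    (hs : ∀ i, ‖s i‖ ≤ σ) (hσ : d * (σ * 10 ^ d) ≤ 1 / 1000) {k : ℂ} (hk : ‖k‖ ≤ 3)
    (hfin : ∀ f : OnePoint ℂ → OnePoint ℂ, IsRat f (numP d p s k) (denP d s) → ∀ z : ℂ, ‖z‖ ≤ 10 →
      deriv (Us d p) z * Vs d s z = Us d p z * deriv (Vs d s) z → Sinks f (z : OnePoint ℂ)) :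
    IsCoprime (numP d p s k) (denP d s) ∧
      max (numP d p s k).natDegree (denP d s).natDegree = d ∧
      Hyp (numP d p s k) (denP d s) := by
  have hσ0 : 0 ≤ σ := (norm_nonneg _).trans (hp 0)
  have hdR : (2 : ℝ) ≤ d := by exact_mod_cast hd
  have h10 : (1 : ℝ) ≤ 10 ^ d := one_le_pow₀ (by norm_num)
  have hσd : d * σ ≤ 1 / 1000 := by
    refine le_trans ?_ hσ
    gcongr
    exact le_mul_of_one_le_right hσ0 h10
  have hσ1 : σ ≤ 1 / 1000 := by
    have : σ ≤ d * σ := le_mul_of_one_le_left hσ0 (by linarith)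
    linarith
  have hV10 : ∀ z : ℂ, ‖z‖ ≤ 10 → Vs d s z ≠ 0 := by
    intro z hz
    have e1 := Vs_near (d := d) hs (by norm_num) hz
    exact (half_of_near (e1.trans (by linarith))).2
  have htop : (numP d p s k).coeff d ≠ 0 := by
    rw [numP_coeff_top hd]
    intro h0
    have e1 : (1 : ℂ) = -(k * s d) := by linear_combination h0
    have e2 : (1 : ℝ) = ‖k * s d‖ := by
      rw [← norm_neg, ← e1, norm_one]
    rw [norm_mul] at e2
    have e3 : ‖k‖ * ‖s d‖ ≤ 3 * (1 / 1000) := by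
      gcongr
      exact (hs d).trans hσ1
    linarith
  have hndeg : (numP d p s k).natDegree = d :=
    le_antisymm (numP_deg_le d p s k) (le_natDegree_of_ne_zero htop)
  have hdeg : max (numP d p s k).natDegree (denP d s).natDegree = d := by
    rw [hndeg]
    exact max_eq_left (denP_deg d s)
  have hcop : IsCoprime (numP d p s k) (denP d s) := by
    refine (isCoprime_iff_aeval_ne_zero_of_isAlgClosed ℂ ℂ _ _).2 ?_
    intro z
    simp only [coe_aeval_eq_eval]
    by_contra hcon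
    push Not at hcon
    obtain ⟨h1, h2⟩ := hcon
    rw [denP_eval] at h2
    rw [numP_eval, h2, mul_zero, add_zero] at h1
    rcases le_or_gt ‖z‖ 10 with hz | hz
    · exact hV10 z hz h2
    · -- far away the numerator does not vanish
      have e1 : ‖Us d p z - z ^ d‖ ≤ d * (σ * ‖z‖ ^ d) := Us_near hp (by linarith) le_rfl
      rw [h1, zero_sub, norm_neg, norm_pow] at e1
      have e2 : 0 < ‖z‖ ^ d := by positivity
      have e3 : d * (σ * ‖z‖ ^ d) = d * σ * ‖z‖ ^ d := by ring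
      rw [e3] at e1
      nlinarith
  have hQ0 : denP d s ≠ 0 := by
    intro h0
    have e1 := denP_eval d s 0
    rw [h0, eval_zero] at e1
    exact hV10 0 (by simp) e1.symm
  obtain ⟨f, hf, -⟩ := exists_isRat hcop hQ0
  refine ⟨hcop, hdeg, hcop, f, hf.cont, hf.eval, ?_⟩
  intro c hnot
  induction c using OnePoint.rec with
  | infty =>
    have e1 : ch true ((1 / 5 : ℂ) * 0) = ∞ := by simp [ch, sinv_zero]
    rw [← e1]
    exact sinks_inf hd hp hs hσd hk hf hdeg.symm (by simp)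
  | coe w =>
    rcases le_or_gt ‖w‖ 10 with hw | hw
    · by_cases hW : deriv (Us d p) w * Vs d s w = Us d p w * deriv (Vs d s) w
      · exact hfin f hf w hw hW
      exfalso
      apply hnot
      have hp' : (denP d s).eval w ≠ 0 := by rw [denP_eval]; exact hV10 w hw
      have hder := ((numP d p s k).hasStrictDerivAt w).fun_div ((denP d s).hasStrictDerivAt w) hp'
      have hUd : deriv (Us d p) w + k * deriv (Vs d s) w = (numP d p s k).derivative.eval w := by
        have g1 := ((numP d p s k).hasDerivAt w)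
        have g2 : (fun z => (numP d p s k).eval z) = fun z => Us d p z + k * Vs d s z := by
          funext z
          exact numP_eval d p s k z
        rw [g2] at g1
        have g3 : HasDerivAt (fun z => Us d p z + k * Vs d s z)
            (deriv (Us d p) w + k * deriv (Vs d s) w) w :=
          ((Us_diff d p w).hasDerivAt).add (((Vs_diff d s w).hasDerivAt).const_mul k)
        exact g3.unique g1
      have hVd : deriv (Vs d s) w = (denP d s).derivative.eval w := by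
        have g1 := ((denP d s).hasDerivAt w)
        have g2 : (fun z => (denP d s).eval z) = Vs d s := by
          funext z
          exact denP_eval d s z
        rw [g2] at g1
        exact g1.deriv
      have hne : ((numP d p s k).derivative.eval w * (denP d s).eval w -
          (numP d p s k).eval w * (denP d s).derivative.eval w) / ((denP d s).eval w) ^ 2 ≠ 0 := by
        apply div_ne_zero _ (pow_ne_zero _ hp')
        rw [← hUd, ← hVd, denP_eval, numP_eval]
        intro h0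
        apply hW
        linear_combination h0
      obtain ⟨U, hU, hinj⟩ := injOn_of_deriv hder hne
      have hUQ : {x : ℂ | (denP d s).eval x ≠ 0} ∈ 𝓝 w :=
        (isOpen_ne_fun (denP d s).continuous continuous_const).mem_nhds hp'
      refine ⟨(fun x : ℂ => (x : OnePoint ℂ)) '' (U ∩ {x : ℂ | (denP d s).eval x ≠ 0}), ?_, ?_⟩
      · exact (OnePoint.isOpenEmbedding_coe (X := ℂ)).isOpenMap.image_mem_nhds
          (inter_mem hU hUQ)
      · rintro _ ⟨x, ⟨hx, hxQ⟩, rfl⟩ _ ⟨y, ⟨hy, hyQ⟩, rfl⟩ hxy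
        simp only at hxy
        rw [hf.eval x hxQ, hf.eval y hyQ, OnePoint.coe_eq_coe] at hxy
        rw [hinj hx hy hxy]
    · have hw0 : w ≠ 0 := by
        intro h0
        rw [h0, norm_zero] at hw
        linarith
      have e1 : ch true ((1 / 5 : ℂ) * (5 / w)) = (w : OnePoint ℂ) := by
        have e2 : (1 / 5 : ℂ) * (5 / w) = w⁻¹ := by field_simp
        rw [e2, ch_true]
        simp only
        rw [sinv_coe (inv_ne_zero hw0), inv_inv]
      rw [← e1]
      refine sinks_inf hd hp hs hσd hk hf hdeg.symm ?_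
      rw [norm_div, div_le_iff₀ (by linarith)]
      have : ‖(5 : ℂ)‖ = 5 := by simp
      rw [this]
      linarith

end Pool.Agent.N772.FU
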